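import Pool.Agent.MP_4be736_ag.H39.Spec

/-!
Passing to a birational parametrisation by induction on the degree.
-/

open Polynomial
open scoped IntermediateField

namespace Pool.Agent.MP_4be736_ag.H39

namespace BirA

theorem surj {A B : ℂ[X]} (hd : B.natDegree < A.natDegree) (hc : IsCoprime A B) (β : ℂ) :
    ∃ a, B.eval a ≠ 0 ∧ A.eval a / B.eval a = β := by
  have h1 : (A - C β * B).natDegree = A.natDegree :=
    natDegree_sub_eq_left_of_natDegree_lt ((natDegree_C_mul_le β B).trans_lt hd)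
  obtain ⟨a, ha⟩ := Complex.exists_root (f := A - C β * B)
    (natDegree_pos_iff_degree_pos.1 (by omega))
  simp only [IsRoot.def, eval_sub, eval_mul, eval_C, sub_eq_zero] at ha
  have hB : B.eval a ≠ 0 := fun h => by
    obtain ⟨u, v, huv⟩ := hc
    have := congrArg (eval a) huv
    simp [ha, h] at this
  exact ⟨a, hB, by rw [ha, mul_div_cancel_right₀ _ hB]⟩

theorem alg_C (c : ℂ) : algebraMap ℂ[X] (RatFunc ℂ) (C c) = algebraMap ℂ (RatFunc ℂ) c :=
  (IsScalarTower.algebraMap_apply ℂ ℂ[X] (RatFunc ℂ) c).symm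

theorem alg_ne {p : ℂ[X]} (h : p ≠ 0) : algebraMap ℂ[X] (RatFunc ℂ) p ≠ 0 :=
  (map_ne_zero_iff _ (IsFractionRing.injective ℂ[X] (RatFunc ℂ))).2 h

theorem ne_bot {k e : ℕ} {y : Fin k → ℂ} {f : Fin k → ℂ[X]} (hf : Aff y e f) (he : 1 ≤ e)
    {l₀ : Fin k} (h0 : y l₀ ≠ 0) :
    IntermediateField.adjoin ℂ (Set.range fun l =>
      algebraMap ℂ[X] (RatFunc ℂ) (f l) / algebraMap ℂ[X] (RatFunc ℂ) (f l₀)) ≠ ⊥ := by
  intro h
  have hc : (f l₀).coeff e ≠ 0 := by rw [hf.top]; exact h0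
  have hne : f l₀ ≠ 0 := fun h => hc (by simp [h])
  obtain ⟨a, ha⟩ := Complex.exists_root (f := f l₀)
    (natDegree_pos_iff_degree_pos.1 (lt_of_lt_of_le he (le_natDegree_of_ne_zero hc)))
  obtain ⟨l, hl⟩ := hf.prim a
  have hm : algebraMap ℂ[X] (RatFunc ℂ) (f l) / algebraMap ℂ[X] (RatFunc ℂ) (f l₀) ∈
      (⊥ : IntermediateField ℂ (RatFunc ℂ)) := h ▸ IntermediateField.subset_adjoin ℂ _ ⟨l, rfl⟩
  obtain ⟨c, hc'⟩ := IntermediateField.mem_bot.1 hm
  have : f l = C c * f l₀ := by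
    apply IsFractionRing.injective ℂ[X] (RatFunc ℂ)
    rw [map_mul, alg_C, hc', div_mul_cancel₀ _ (alg_ne hne)]
  rw [this, eval_mul, ha.eq_zero, mul_zero] at hl
  exact hl rfl

theorem X_mem {A B : ℂ[X]} (hA : A.Monic) (hB : B ≠ 0) (hd : B.natDegree < A.natDegree)
    (h1 : A.natDegree = 1) : (RatFunc.X : RatFunc ℂ) ∈
      ℂ⟮algebraMap ℂ[X] (RatFunc ℂ) A / algebraMap ℂ[X] (RatFunc ℂ) B⟯ := by
  have e : (RatFunc.X : RatFunc ℂ) = algebraMap ℂ (RatFunc ℂ) (B.coeff 0) *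
      (algebraMap ℂ[X] (RatFunc ℂ) A / algebraMap ℂ[X] (RatFunc ℂ) B) -
      algebraMap ℂ (RatFunc ℂ) (A.coeff 0) := by
    rw [← alg_C, ← alg_C, ← eq_C_of_natDegree_eq_zero (by omega), mul_div_cancel₀ _ (alg_ne hB),
      ← map_sub, ← RatFunc.algebraMap_X]
    congr 1
    conv_rhs => rw [hA.eq_X_add_C h1]
    simp
  rw [e]
  exact sub_mem (mul_mem (IntermediateField.algebraMap_mem _ _)
    (IntermediateField.mem_adjoin_simple_self _ _)) (IntermediateField.algebraMap_mem _ _)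

end BirA

open BirA in
theorem sBir (h0 : STop) (h1 : SLurA) (h2 : SLurB) (h3 : SLurC) (h4 : SLurD) (h5 : SDescent) :
    SBir := by
  intro k P y w e f hy hG hw
  induction e using Nat.strong_induction_on generalizing f with
  | _ e ih =>
    intro he hf hF hC
    obtain ⟨l₀, hl⟩ := Function.ne_iff.1 hy
    have hl : y l₀ ≠ 0 := hl
    have hne : f l₀ ≠ 0 := fun h => hl (by rw [← hf.top, h, coeff_zero])
    obtain ⟨A, B, hA, hB, hd, hc, hE⟩ := h2 _ (ne_bot hf he hl)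
    by_cases hA1 : A.natDegree = 1
    · exact ⟨e, f, hf, hF, hC, h1 k f l₀ hne (hE ▸ X_mem hA hB hd hA1)⟩
    obtain ⟨e', g, g1, g2, g3, g4⟩ := h3 k f l₀ A B hne hB hd fun l =>
      hE ▸ IntermediateField.subset_adjoin ℂ _ ⟨l, rfl⟩
    obtain ⟨hee, g', hg', hev⟩ := h4 k e e' y f g l₀ A B hf hl hA hd hc g1 g2 g3 g4
    have he' : 1 ≤ e' := Nat.pos_of_ne_zero fun h => by
      rw [h, mul_zero] at hee
      omega
    have hlt : e' < e := by
      have : 2 * e' ≤ A.natDegree * e' := Nat.mul_le_mul_right _ (by omega)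
      omega
    have key : ∀ (n : ℕ) (F : MvPolynomial (Fin k) ℂ), F.IsHomogeneous n → ∀ t : ℂ,
        B.eval t ≠ 0 → (MvPolynomial.aeval f F).eval t =
          B.eval t ^ (n * e') * (MvPolynomial.aeval g' F).eval (A.eval t / B.eval t) := by
      intro n F hF t ht
      rw [eval_aeval, eval_aeval, mul_comm n, pow_mul, ← H94.eval_smul_hom hF]
      congr 2
      funext l
      exact hev t ht l
    have top : ∀ j, (MvPolynomial.aeval g' (P.G j)).coeff (P.d j * e') ≠ 0 := fun j => by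
      rw [(h0 k _ e' _ g' (P.homG j) hg'.deg).2]
      simpa only [hg'.top] using hG j
    refine ih e' hlt g' he' hg' (fun i => Polynomial.funext fun β => ?_)
      (h5 _ w A B _ _ hw hB hd hc (fun j h => top j (by rw [h, coeff_zero])) (fun j t ht => ?_) hC)
    · obtain ⟨a, ha, rfl⟩ := surj hd hc β
      have := key _ _ (P.homF i) a ha
      rw [hF i, eval_zero] at this
      rw [eval_zero]
      exact (mul_eq_zero.1 this.symm).resolve_left (pow_ne_zero _ ha)
    · rw [le_antisymm (h0 k _ e' _ g' (P.homG j) hg'.deg).1 (le_natDegree_of_ne_zero (top j))]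
      exact key _ _ (P.homG j) t ht

end Pool.Agent.MP_4be736_ag.H39
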