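import Pool.Agent.MP_4be736_ag.H39.Spec

/-!
The dimension bound by degrees of determinants.
-/

open Polynomial

namespace Pool.Agent.MP_4be736_ag.H39

namespace BoundA

variable {K N L : Type} [Fintype K] [DecidableEq K] [Fintype N] [DecidableEq N] [Fintype L]
  [DecidableEq L]

theorem DD_change (ε : K ≃ N ⊕ L) (s u : N → K → ℂ[X]) (w : L → K → ℂ[X]) (A : Matrix N N ℂ[X])
    (h : ∀ n, s n = ∑ m, A n m • u m) : DD ε s w = DD ε u w * A.det := by
  have e : A.det = ((Matrix.fromBlocks A.transpose 0 0 (1 : Matrix L L ℂ[X])).submatrix ε ε).det := by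
    rw [Matrix.det_submatrix_equiv_self, Matrix.det_fromBlocks_zero₂₁, Matrix.det_transpose,
      Matrix.det_one, mul_one]
  rw [e, DD, DD, ← Matrix.det_mul]
  congr 1
  ext1 l k
  rw [Matrix.mul_apply]
  simp only [Matrix.of_apply, Matrix.submatrix_apply]
  rw [ε.sum_comp fun z => Sum.elim u w z l *
    Matrix.fromBlocks A.transpose 0 0 (1 : Matrix L L ℂ[X]) z (ε k), Fintype.sum_sum_type]
  rcases ε k with n | i
  · simp [h, mul_comm]
  · simp [Matrix.one_apply]

omit [DecidableEq N] in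
theorem smul_mem (ε : K ≃ N ⊕ L) (φ w : L → K → ℂ[X]) (s : N → K → ℂ[X])
    (hs : ∀ n i, ∑ l, φ i l * s n l = 0) (hW : DW φ w ≠ 0) (x : K → ℂ[X])
    (hx : ∀ i, ∑ l, φ i l * x l = 0) :
    DD ε s w • x ∈ Submodule.span ℂ[X] (Set.range s) := by
  obtain ⟨B, hB⟩ : ∃ B : N ⊕ L → ℂ[X], ∀ l, DD ε s w * x l =
      ∑ n, s n l * B (.inl n) + ∑ i, w i l * B (.inr i) := by
    let M : Matrix K K ℂ[X] := Matrix.of fun l l' => Sum.elim s w (ε l') l
    refine ⟨fun z => M.cramer x (ε.symm z), fun l => ?_⟩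
    have := congrFun (M.mulVec_cramer x) l
    rw [Matrix.mulVec, dotProduct, ← ε.symm.sum_comp, Fintype.sum_sum_type] at this
    simpa [M, DD] using this.symm
  have h0 : (fun i => B (.inr i)) = 0 := by
    refine Matrix.eq_zero_of_mulVec_eq_zero hW (funext fun i => ?_)
    have e : ∑ l, φ i l * (DD ε s w * x l) = 0 := by
      simp only [mul_left_comm (φ i _), ← Finset.mul_sum, hx i, mul_zero]
    simp only [hB, mul_add, Finset.sum_add_distrib, Finset.mul_sum, ← mul_assoc] at e
    rw [Finset.sum_comm, Finset.sum_comm (s := (Finset.univ : Finset K))] at e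
    simp only [← Finset.sum_mul, hs, zero_mul, Finset.sum_const_zero, zero_add] at e
    exact e
  have e : DD ε s w • x = ∑ n, B (.inl n) • s n := by
    funext l
    have h1 : ∀ i, B (.inr i) = 0 := congrFun h0
    simp [hB, h1, mul_comm]
  rw [e]
  exact Submodule.sum_mem _ fun n _ => Submodule.smul_mem _ _ (Submodule.subset_span ⟨n, rfl⟩)

end BoundA

open BoundA in
theorem sBound (h1 : SDetDiv) (h2 : SLattice) : SBound := by
  intro K N L J I _ _ _ _ _ _ _ _ ε φ w ψ g s v hli s0 s1 v0 v1 hD hW hc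
  let Λ : Submodule ℂ[X] (K → ℂ[X]) :=
    { carrier := {x | (∀ i, ∑ l, φ i l * x l = 0) ∧ ∀ j, g j ∣ ∑ l, ψ j l * x l}
      add_mem' := fun {x y} hx hy => ⟨fun i => by
          simp only [Pi.add_apply, mul_add, Finset.sum_add_distrib, hx.1 i, hy.1 i, add_zero],
        fun j => by
          simp only [Pi.add_apply, mul_add, Finset.sum_add_distrib]
          exact dvd_add (hx.2 j) (hy.2 j)⟩
      zero_mem' := ⟨fun i => by simp, fun j => by simp⟩
      smul_mem' := fun c x hx => ⟨fun i => by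
          simp only [Pi.smul_apply, smul_eq_mul, mul_left_comm (φ i _), ← Finset.mul_sum, hx.1 i,
            mul_zero],
        fun j => by
          simp only [Pi.smul_apply, smul_eq_mul, mul_left_comm (ψ j _), ← Finset.mul_sum]
          exact (hx.2 j).mul_left c⟩ }
  have hs : LinearIndependent ℂ[X] s := by
    have := (Matrix.linearIndependent_cols_of_det_ne_zero hD).comp (fun n => ε.symm (.inl n))
      (ε.symm.injective.comp Sum.inl_injective)
    have e : (Matrix.of fun l l' => Sum.elim s w (ε l') l).col ∘ (fun n => ε.symm (.inl n)) = s := by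
      funext n l
      simp [Matrix.col]
    rwa [e] at this
  obtain ⟨u, A, hu, hA, hI⟩ := h2 K N I Λ s (DD ε s w) v (fun n => ⟨s0 n, s1 n⟩) hs hD
    (fun x hx => smul_mem ε φ w s s0 hW x hx.1) (fun i => ⟨v0 i, v1 i⟩) hc
  have e := DD_change ε s u w A hA
  rw [e] at hD ⊢
  have hd := h1 K N L J ε φ w ψ g u hli (fun n => (hu n).1) fun n => (hu n).2
  have hg : ∏ j, g j ≠ 0 := fun e0 =>
    left_ne_zero_of_mul hD (by rwa [e0, mul_zero, zero_dvd_iff] at hd)
  have := natDegree_le_of_dvd hd (left_ne_zero_of_mul hD)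
  rw [natDegree_mul hW hg, natDegree_prod _ _ (Finset.prod_ne_zero_iff.1 hg)] at this
  rw [natDegree_mul (left_ne_zero_of_mul hD) (right_ne_zero_of_mul hD)]
  omega

end Pool.Agent.MP_4be736_ag.H39
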