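import Pool.Agent.MP_4be736_ag.H39.Spec

/-!
The choice of the contact orders.
-/

open Polynomial

namespace Pool.Agent.MP_4be736_ag.H39

namespace CombA

theorem part_ge (a : ℕ) (m : ℕ∞) (hm : 1 ≤ m) :
    (a : ℝ) * im m ≤ ((if m = ⊤ then 0 else (a + m.toNat - 1) / m.toNat : ℕ) : ℝ) := by
  induction m using ENat.recTopCoe with
  | top => simp [im]
  | coe n =>
    have hn : 1 ≤ n := by exact_mod_cast hm
    have h0 : (0 : ℝ) < n := by exact_mod_cast hn
    have e : im (n : ℕ∞) = (n : ℝ)⁻¹ := by simp [im]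
    rw [if_neg (ENat.natCast_ne_top n), ENat.toNat_natCast, e, mul_inv_le_iff₀ h0]
    have := Nat.lt_div_mul_add (a := a + n - 1) hn
    have h1 : a ≤ (a + n - 1) / n * n := by omega
    exact_mod_cast h1

theorem need_ge {J : Type} [Fintype J] {d : J → ℕ} {m : J → ℕ∞} {ι : ℕ} (hm : ∀ j, 1 ≤ m j)
    (h : ∑ j, (1 - im (m j)) * d j < ι) {μ : ℕ} (hμ : 1 ≤ μ) :
    (∑ j, d j) * μ < ι * μ + need d m μ := by
  have h0 : (0 : ℝ) < μ := by exact_mod_cast hμ
  have h1 : ∑ j, ((d j * μ : ℕ) : ℝ) * im (m j) ≤ need d m μ := by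
    rw [need, Nat.cast_sum]
    exact Finset.sum_le_sum fun j _ => part_ge _ _ (hm j)
  have h2 := mul_lt_mul_of_pos_right h h0
  have h3 : (∑ j, (1 - im (m j)) * d j) * μ =
      (∑ j, (d j : ℝ)) * μ - ∑ j, ((d j * μ : ℕ) : ℝ) * im (m j) := by
    rw [Finset.sum_mul, Finset.sum_mul, ← Finset.sum_sub_distrib]
    refine Finset.sum_congr rfl fun j _ => ?_
    push_cast
    ring
  have h4 : (∑ j, (d j : ℝ)) * μ < ι * μ + need d m μ := by linarith
  exact_mod_cast h4

end CombA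

theorem sComb (h1 : SCombA) (h2 : SCombB) : SComb := by
  intro J _ d m ι hι hd hm h
  by_cases ht : ∃ j, m j = ⊤
  · refine h1 J d m ι hd hm fun μ hμ => ?_
    have := CombA.need_ge hm h hμ
    rw [if_pos ht]
    omega
  by_cases hb : ∃ e, 1 ≤ e ∧ ι * e + need d m e < (∑ j, d j) * e + 2
  · classical
    refine h2 J d m ι (Nat.find hb) hι hm (fun j hj => ht ⟨j, hj⟩) (Nat.find_spec hb).1 h
      (Nat.find_spec hb).2 fun μ hμ hlt => ?_
    exact not_lt.1 fun h' => Nat.find_min hb hlt ⟨hμ, h'⟩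
  · refine h1 J d m ι hd hm fun μ hμ => ?_
    rw [if_neg ht, add_zero]
    exact not_lt.1 fun h' => hb ⟨μ, hμ, h'⟩

theorem sCheap : SCheap := by
  classical
  intro J Pt _ w s c a γ hw hγ hc hs h2
  refine ⟨Finset.univ.image a, fun b => 1 - ∑ π with a π = b, c π, fun b _ => ?_,
    fun j b hb => ?_, ?_⟩
  · have : 0 ≤ ∑ π with a π = b, c π := Finset.sum_nonneg fun π _ => hc π
    linarith
  · have h0 : C (γ j) * ∏ π, (X - C (a π)) ^ s π j ≠ 0 :=
      mul_ne_zero (C_ne_zero.2 (hγ j))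
        (Finset.prod_ne_zero_iff.2 fun π _ => pow_ne_zero _ (X_sub_C_ne_zero _))
    simp only [IsRoot.def, eval_mul, eval_C, eval_prod, eval_pow, eval_sub, eval_X, mul_eq_zero,
      hγ j, false_or, Finset.prod_eq_zero_iff, Finset.mem_univ, true_and, pow_eq_zero_iff',
      sub_eq_zero] at hb
    obtain ⟨π, rfl, hπ⟩ := hb
    refine ⟨Finset.mem_image_of_mem _ (Finset.mem_univ π), ?_⟩
    have h3 : c π ≤ ∑ π' with a π' = a π, c π' :=
      Finset.single_le_sum (fun π' _ => hc π') (by simp)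
    have h4 : s π j ≤ (C (γ j) * ∏ π, (X - C (a π)) ^ s π j).rootMultiplicity (a π) :=
      (le_rootMultiplicity_iff h0).2
        ((Finset.dvd_prod_of_mem (fun π => (X - C (a π)) ^ s π j) (Finset.mem_univ π)).mul_left _)
    have h5 := mul_le_mul_of_nonneg_right (Nat.cast_le (α := ℝ).2 h4) (hw j)
    have h6 := hs π j (Nat.pos_of_ne_zero hπ)
    simp only
    linarith
  · simp only [sub_sub_cancel]
    rwa [Finset.sum_fiberwise_of_maps_to fun π _ => Finset.mem_image_of_mem a (Finset.mem_univ π)]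

end Pool.Agent.MP_4be736_ag.H39
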