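import Pool.Agent.MP_4be736_ag.H39.Spec

/-!
Contact orders equal to the multiplicities.
-/

namespace Pool.Agent.MP_4be736_ag.H39

open Finset

namespace CombAA

theorem sum_fib {Pt J : Type} [Fintype J] [DecidableEq J] (f : Pt → Option J) (T : Finset Pt)
    (S : Option J → ℕ) : ∑ π ∈ T, S (f π) =
      #{π ∈ T | f π = none} * S none + ∑ j, #{π ∈ T | f π = some j} * S (some j) := by
  rw [← sum_fiberwise T f, Fintype.sum_option]
  have e : ∀ o, ∑ π ∈ T with f π = o, S (f π) = #{π ∈ T | f π = o} * S o := fun o => by
    rw [sum_congr rfl fun π h => congrArg S (mem_filter.1 h).2, sum_const, smul_eq_mul]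
  simp only [e]

end CombAA

theorem sCombA : SCombA := by
  classical
  intro J _ d m ι hd hm H
  have hM : ∀ j, m j ≠ ⊤ → 0 < (m j).toNat := fun j h => by
    have := ENat.toNat_le_toNat (hm j) h
    rwa [ENat.toNat_one] at this
  obtain ⟨e, he, hdv⟩ : ∃ e : ℕ, 1 ≤ e ∧ ∀ j, m j ≠ ⊤ → (m j).toNat ∣ e := by
    refine ⟨∏ j, if m j = ⊤ then 1 else (m j).toNat, Nat.succ_le_of_lt (prod_pos fun j _ => ?_),
      fun j h => ?_⟩
    · split_ifs with h
      exacts [one_pos, hM j h]
    · have := dvd_prod_of_mem (fun j => if m j = ⊤ then 1 else (m j).toNat) (mem_univ j)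
      rwa [if_neg h] at this
  let n : J → ℕ := fun j => d j * e / (m j).toNat
  let S : Option J → J → ℕ := fun o j =>
    o.elim (if m j = ⊤ then d j * e else 0) fun j' => if j' = j then (m j).toNat else 0
  refine ⟨e, Option (Σ j, Fin (n j)), inferInstance, fun π => S (π.map Sigma.fst),
    fun π => π.elim 1 fun _ => 0, he, fun j => ?_, fun μ T hμ _ hT => ?_, fun π => ?_,
    fun π j h => ?_, by simp⟩
  · rw [Fintype.sum_option, Fintype.sum_sigma]
    simp only [S, Option.map_none, Option.map_some, Option.elim_none, Option.elim_some, sum_const,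
      card_univ, Fintype.card_fin, smul_eq_mul, mul_ite, mul_zero, sum_ite_eq', mem_univ, if_true]
    split_ifs with h
    · simp [h]
    · rw [zero_add]
      exact Nat.div_mul_cancel ((hdv j h).mul_left _)
  · refine (H μ hμ).trans ?_
    have c := CombAA.sum_fib (fun π : Option (Σ j, Fin (n j)) => π.map Sigma.fst) T fun _ => 1
    have k : ∀ j, d j * μ ≤ #{π ∈ T | π.map Sigma.fst = none} * (if m j = ⊤ then d j * e else 0) +
        #{π ∈ T | π.map Sigma.fst = some j} * (m j).toNat := fun j => by
      have := CombAA.sum_fib (fun π : Option (Σ j, Fin (n j)) => π.map Sigma.fst) T fun o => S o j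
      simp only [S, Option.elim_none, Option.elim_some, mul_ite, mul_zero, sum_ite_eq', mem_univ,
        if_true] at this
      rw [mul_ite, mul_zero]
      exact (hT j).trans this.le
    simp only [sum_const, smul_eq_mul, mul_one] at c
    rw [c, add_assoc, add_comm (need d m μ)]
    refine Nat.add_le_add_left (add_le_add ?_ (sum_le_sum fun j _ => ?_)) _
    · split_ifs with h
      · obtain ⟨j, hj⟩ := h
        have := k j
        rw [hj, ENat.toNat_top, mul_zero, add_zero] at this
        refine Nat.pos_of_ne_zero fun h0 => ?_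
        rw [h0, zero_mul] at this
        exact absurd (Nat.mul_pos (hd j) hμ) (not_lt.2 this)
      · exact Nat.zero_le _
    · split_ifs with h
      · exact Nat.zero_le _
      · have := k j
        rw [if_neg h, mul_zero, zero_add] at this
        have p := hM j h
        rw [← Nat.lt_succ_iff, Nat.div_lt_iff_lt_mul p, Nat.succ_mul]
        omega
  · cases π <;> simp
  · rcases π with _ | ⟨j', a⟩
    · have : 0 ≤ im (m j) := by unfold im; positivity
      simp only [Option.elim_none, sub_le_self_iff]
      positivity
    · simp only [S, Option.map_some, Option.elim_some] at h ⊢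
      split_ifs at h ⊢ with h1
      · have p : (0 : ℝ) < (m j).toNat := by exact_mod_cast h
        have q : im (m j) = ((m j).toNat : ℝ)⁻¹ := by
          unfold im
          revert h
          induction m j using ENat.recTopCoe <;> simp
        rw [q, mul_inv_cancel₀ p.ne', sub_self]
      · exact absurd h (lt_irrefl 0)

end Pool.Agent.MP_4be736_ag.H39
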