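import Pool.Agent.MP_4be736_ag.H39.Spec

/-!
Contact orders when all multiplicities are finite.
-/

open scoped ENNReal

namespace Pool.Agent.MP_4be736_ag.H39

theorem sFill : SFill := by
  classical
  intro J _ lo hi R hle h1 h2
  induction R, h1 using Nat.le_induction with
  | base => exact ⟨lo, fun j => ⟨le_rfl, hle j⟩, rfl⟩
  | succ R hR ih =>
    obtain ⟨p, hp, hs⟩ := ih (by omega)
    have hlt : ∑ j, p j < ∑ j, hi j := by omega
    obtain ⟨j₀, -, hj₀⟩ := Finset.exists_lt_of_sum_lt hlt
    refine ⟨fun j => p j + if j = j₀ then 1 else 0, fun j => ?_, ?_⟩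
    · have := hp j
      by_cases h : j = j₀
      · subst h
        simp only [if_true]
        omega
      · simp only [h, if_false]
        omega
    · rw [Finset.sum_add_distrib, hs]
      simp

namespace CombBA

theorem im_eq {m : ℕ∞} (h : m ≠ ⊤) : im m = ((m.toNat : ℝ))⁻¹ := by
  lift m to ℕ using h
  simp [im]

theorem one_le_toNat {m : ℕ∞} (h1 : 1 ≤ m) (h : m ≠ ⊤) : 1 ≤ m.toNat := by
  lift m to ℕ using h
  simpa using h1

theorem ceil_le {a M n : ℕ} (hM : 1 ≤ M) (h : a ≤ M * n) : (a + M - 1) / M ≤ n := by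
  apply Nat.le_of_lt_succ
  rw [Nat.div_lt_iff_lt_mul (by omega)]
  have : (n + 1) * M = M * n + M := by ring
  show _ < (n + 1) * M
  omega

theorem le_mul_of_ceil {a M n : ℕ} (hM : 1 ≤ M) (h : (a + M - 1) / M ≤ n) : a ≤ M * n := by
  have h1 : (a + M - 1) / M < n + 1 := by omega
  rw [Nat.div_lt_iff_lt_mul (by omega)] at h1
  have : (n + 1) * M = M * n + M := by ring
  omega

end CombBA

open CombBA

theorem sCombB (h : SFill) : SCombB := by
  classical
  intro J _ d m ι e hι hm1 hm he hsum hlt hmu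
  have hM : ∀ j, 1 ≤ (m j).toNat := fun j => one_le_toNat (hm1 j) (hm j)
  have hneed : ∀ μ, need d m μ = ∑ j, (d j * μ + (m j).toNat - 1) / (m j).toNat := by
    intro μ
    unfold need
    exact Finset.sum_congr rfl fun j _ => if_neg (hm j)
  have h2 : 2 ≤ ι * e := by nlinarith
  obtain ⟨R, hR⟩ : ∃ R, ι * e + R = (∑ j, d j) * e + 2 :=
    ⟨(∑ j, d j) * e + 2 - ι * e, by omega⟩
  obtain ⟨p, hp, hps⟩ := h J (fun j => (d j * e + (m j).toNat - 1) / (m j).toNat)
    (fun j => d j * e) R
    (fun j => ceil_le (hM j) (Nat.le_mul_of_pos_left _ (hM j)))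
    (by rw [← hneed]; omega) (by rw [← Finset.sum_mul]; omega)
  have ht : ∀ j, ∃ t : Fin (p j) → ℕ, (∀ n, 1 ≤ t n ∧ t n ≤ (m j).toNat) ∧
      ∑ n, t n = d j * e := by
    intro j
    refine h (Fin (p j)) (fun _ => 1) (fun _ => (m j).toNat) (d j * e) (fun _ => hM j) ?_ ?_
    · simpa using (hp j).2
    · have := le_mul_of_ceil (hM j) (hp j).1
      simpa [mul_comm] using this
  choose t ht hts using ht
  have hcard : Fintype.card (Σ j, Fin (p j)) = R := by
    rw [Fintype.card_sigma, ← hps]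
    simp
  have htot : ∑ π : Σ j, Fin (p j), t π.1 π.2 = (∑ j, d j) * e := by
    rw [Fintype.sum_sigma, Finset.sum_mul]
    exact Finset.sum_congr rfl fun j _ => hts j
  refine ⟨e, Σ j, Fin (p j), inferInstance, fun π j => if π.1 = j then t π.1 π.2 else 0,
    fun π => 1 - t π.1 π.2 * im (m π.1), he, fun j => ?_, ?_, fun π => ?_, fun π j hpos => ?_, ?_⟩
  · rw [Fintype.sum_sigma, Finset.sum_eq_single j]
    · simpa using hts j
    · intro b _ hb
      simp [hb]
    · simp
  · intro μ T h1 hμ hT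
    rcases hμ.lt_or_eq with hlt' | rfl
    · refine (hmu μ h1 hlt').trans (Nat.add_le_add_left ?_ _)
      rw [hneed, Finset.card_eq_sum_card_fiberwise (f := fun π : Σ j, Fin (p j) => π.1)
        (s := T) (t := Finset.univ) (fun _ _ => Finset.mem_coe.2 (Finset.mem_univ _))]
      refine Finset.sum_le_sum fun j _ => ceil_le (hM j) ((hT j).trans ?_)
      rw [← Finset.sum_filter, mul_comm, ← smul_eq_mul]
      refine Finset.sum_le_card_nsmul _ _ _ fun π hπ => ?_
      have hj : π.1 = j := (Finset.mem_filter.1 hπ).2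
      rw [← hj]
      exact (ht π.1 π.2).2
    · have hA : (∑ j, d j) * μ ≤ ∑ π ∈ T, t π.1 π.2 := by
        rw [Finset.sum_mul]
        refine (Finset.sum_le_sum fun j _ => hT j).trans ?_
        rw [Finset.sum_comm]
        simp
      have hB : Tᶜ.card ≤ ∑ π ∈ Tᶜ, t π.1 π.2 := by
        rw [Finset.card_eq_sum_ones]
        exact Finset.sum_le_sum fun π _ => (ht π.1 π.2).1
      have hC := Finset.sum_add_sum_compl T fun π : Σ j, Fin (p j) => t π.1 π.2
      have hD := Finset.card_add_card_compl T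
      omega
  · have h1 : (0 : ℝ) < (m π.1).toNat := by exact_mod_cast hM π.1
    have h2 : (t π.1 π.2 : ℝ) ≤ (m π.1).toNat := by exact_mod_cast (ht π.1 π.2).2
    beta_reduce
    rw [im_eq (hm π.1), sub_nonneg, ← div_eq_mul_inv, div_le_one h1]
    exact h2
  · by_cases hj : π.1 = j
    · subst hj
      simp
    · simp [hj] at hpos
  · have hA : ∑ π : Σ j, Fin (p j), (t π.1 π.2 : ℝ) * im (m π.1) =
        ∑ j, (d j : ℝ) * e * im (m j) := by
      rw [Fintype.sum_sigma]
      refine Finset.sum_congr rfl fun j _ => ?_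
      simp only
      rw [← Finset.sum_mul, ← Nat.cast_sum, hts j, Nat.cast_mul]
    have hB : (ι : ℝ) * e + R = (∑ j, (d j : ℝ)) * e + 2 := by exact_mod_cast hR
    have hC : (∑ j, (1 - im (m j)) * d j) * (e : ℝ) =
        (∑ j, (d j : ℝ)) * e - ∑ j, (d j : ℝ) * e * im (m j) := by
      rw [Finset.sum_mul, Finset.sum_mul, ← Finset.sum_sub_distrib]
      exact Finset.sum_congr rfl fun j _ => by ring
    have he' : (0 : ℝ) < e := by exact_mod_cast he
    have hD := mul_lt_mul_of_pos_right hsum he'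
    rw [Finset.sum_sub_distrib, hA, Finset.sum_const, Finset.card_univ, hcard]
    simp only [nsmul_eq_mul, mul_one]
    linarith

end Pool.Agent.MP_4be736_ag.H39
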