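import Pool.Agent.MP_4be736_ag.H39.Spec

/-! Counting base points. -/

open Polynomial

namespace Pool.Agent.MP_4be736_ag.H39

namespace CountA

open Classical in
theorem count_le {Pt : Type} [Fintype Pt] (s : Pt → ℕ) (a : Pt → ℂ) (Q : ℂ[X]) (d : ℕ)
    (h : Q ^ d ∣ ∏ π, (X - C (a π)) ^ s π) (c : ℂ) :
    d * Q.roots.count c ≤ ∑ π ∈ Finset.univ.filter fun π => a π = c, s π := by
  have h0 : (∏ π, (X - C (a π)) ^ s π : ℂ[X]) ≠ 0 :=
    Finset.prod_ne_zero_iff.2 fun π _ => pow_ne_zero _ (X_sub_C_ne_zero _)
  have h1 := Multiset.count_le_of_le c (roots.le_of_dvd h0 h)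
  rw [roots_pow, Multiset.count_nsmul, roots_prod _ _ h0, Multiset.count_bind] at h1
  refine h1.trans (le_of_eq ?_)
  rw [Finset.sum_filter]
  refine Finset.sum_congr rfl fun π _ => ?_
  rw [roots_pow, roots_X_sub_C, Multiset.count_nsmul, Multiset.count_singleton]
  by_cases e : a π = c
  · rw [if_pos e, if_pos e.symm, mul_one]
  · rw [if_neg e, if_neg (Ne.symm e), mul_zero]

end CountA

theorem sCount : SCount := by
  classical
  intro J Pt _ d s e e' N k a Q S hst hQ he hd hS hc
  have hn : Multiset.card Q.roots = Q.natDegree := IsAlgClosed.card_roots_eq_natDegree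
  have h1 : ∀ c ∈ Q.roots.toFinset, N * Q.roots.count c + 2 ≤
      k * Q.roots.count c + (Finset.univ.filter fun π => a π = c).card := by
    intro c hc
    refine hst _ _ (Multiset.one_le_count_iff_mem.2 (Multiset.mem_toFinset.1 hc)) ?_ fun j => ?_
    · have := Multiset.count_le_card c Q.roots
      omega
    · convert CountA.count_le (fun π => s π j) a Q (d j) (hd j) c
  have h2 := Finset.sum_le_sum h1
  rw [Finset.sum_add_distrib, Finset.sum_add_distrib, ← Finset.mul_sum, ← Finset.mul_sum,
    Multiset.toFinset_sum_count_eq, hn, Finset.sum_const, smul_eq_mul] at h2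
  have h3 : ∑ c ∈ Q.roots.toFinset, (Finset.univ.filter fun π => a π = c).card =
      (Finset.univ.filter fun π => a π ∈ Q.roots.toFinset).card :=
    Finset.sum_card_fiberwise_eq_card_filter _ _ _
  have h4 := Finset.card_filter_add_card_filter_not (s := (Finset.univ : Finset Pt))
    (fun π => a π ∈ Q.roots.toFinset)
  have h5 : S ⊆ Q.roots.toFinset ∪
      (Finset.univ.filter fun π => ¬ a π ∈ Q.roots.toFinset).image a := by
    intro b hb
    by_cases hr : b ∈ Q.roots.toFinset
    · exact Finset.mem_union_left _ hr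
    · rcases hS b hb with h | ⟨π, rfl⟩
      · exact absurd (Multiset.mem_toFinset.2 ((mem_roots hQ.ne_zero).2 h)) hr
      · exact Finset.mem_union_right _
          (Finset.mem_image_of_mem a (Finset.mem_filter.2 ⟨Finset.mem_univ _, hr⟩))
  have h6 := (Finset.card_le_card h5).trans ((Finset.card_union_le _ _).trans
    (Nat.add_le_add_left Finset.card_image_le _))
  rw [Finset.card_univ] at h4
  rw [he, mul_add, mul_add] at hc
  have h7 : Q.roots.toFinset.card = 0 := by omega
  rw [Finset.card_eq_zero, Multiset.toFinset_eq_empty] at h7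
  rw [h7, Multiset.card_zero] at hn
  exact hQ.natDegree_eq_zero.1 hn.symm

end Pool.Agent.MP_4be736_ag.H39
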