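import Pool.Agent.MP_4be736_ag.H39.Spec

/-! A derivation applied to the coefficients of a polynomial. -/

open Polynomial

namespace Pool.Agent.MP_4be736_ag.H39

namespace DcA

theorem coeff_dc (δ : Der) (p : ℂ[X]) (n : ℕ) : (dc δ p).coeff n = δ (p.coeff n) := by
  classical
  rw [dc, coeff_sum, Polynomial.sum]
  simp only [coeff_monomial]
  rw [Finset.sum_ite_eq']
  split_ifs with h
  · rfl
  · rw [notMem_support_iff.1 h, map_zero]

theorem dc_add (δ : Der) (p q : ℂ[X]) : dc δ (p + q) = dc δ p + dc δ q := by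
  ext n
  simp only [coeff_dc, coeff_add, map_add]

theorem dc_mul (δ : Der) (p q : ℂ[X]) : dc δ (p * q) = p * dc δ q + q * dc δ p := by
  ext n
  rw [coeff_dc, coeff_add, mul_comm q, coeff_mul, coeff_mul, coeff_mul, map_sum,
    ← Finset.sum_add_distrib]
  refine Finset.sum_congr rfl fun x _ => ?_
  rw [Derivation.leibniz, coeff_dc, coeff_dc, smul_eq_mul, smul_eq_mul]
  ring

theorem dc_C (δ : Der) (a : ℂ) : dc δ (C a) = C (δ a) := by
  ext n
  rw [coeff_dc, coeff_C, coeff_C]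
  split_ifs
  · rfl
  · exact map_zero δ

theorem dc_lin (δ : Der) (a : ℂ) : dc δ (X - C a) = -C (δ a) := by
  ext n
  rw [coeff_dc, coeff_sub, map_sub, coeff_neg, ← dc_C, coeff_dc, coeff_X]
  split_ifs <;> simp

theorem chain (δ : Der) {k : ℕ} (F : MvPolynomial (Fin k) ℂ) (f : Fin k → ℂ[X])
    (h : Kills δ F) : dc δ (MvPolynomial.aeval f F) = dP F f fun l => dc δ (f l) := by
  classical
  let Q : MvPolynomial (Fin k) ℂ → Prop := fun F =>
    dc δ (MvPolynomial.aeval f F) = dP F f fun l => dc δ (f l)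
  have hC : ∀ a : ℂ, δ a = 0 → Q (MvPolynomial.C a) := fun a ha => by
    simp [Q, dP, dc_C, ha]
  have hX : ∀ l, Q (MvPolynomial.X l) := fun l => by
    simp [Q, dP, MvPolynomial.pderiv_X, Pi.single_apply, apply_ite]
  have hA : ∀ F G, Q F → Q G → Q (F + G) := fun F G h h' => by
    simp only [Q, dP, map_add, dc_add, add_mul, Finset.sum_add_distrib] at h h' ⊢
    rw [h, h']
  have hM : ∀ F G, Q F → Q G → Q (F * G) := fun F G h h' => by
    simp only [Q, dP, map_mul, dc_mul, Derivation.leibniz, smul_eq_mul, map_add, add_mul,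
      Finset.sum_add_distrib] at h h' ⊢
    rw [h, h', Finset.mul_sum, Finset.mul_sum]
    simp only [mul_assoc]
  have h1 : Q 1 := by simpa using hC 1 δ.map_one_eq_zero
  have hP : ∀ (n : ℕ) l, Q (MvPolynomial.X l ^ n) := fun n l => by
    induction n with
    | zero => simpa using h1
    | succ n ih => rw [pow_succ]; exact hM _ _ ih (hX l)
  change Q F
  rw [F.as_sum]
  refine Finset.sum_induction _ Q hA (by simpa using hC 0 (map_zero δ)) fun m _ => ?_
  rw [MvPolynomial.monomial_eq]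
  exact hM _ _ (hC _ (h m)) (Finset.prod_induction _ Q hM h1 fun l _ => hP _ l)

theorem dvd (δ : Der) (p ξ : ℂ[X]) (hp : p ≠ 0) (h : ∀ a, p.IsRoot a → ξ.eval a = δ a) :
    p ∣ dc δ p + ξ * derivative p := by
  let Q : ℂ[X] → Prop := fun p => p ∣ dc δ p + ξ * derivative p
  have hM : ∀ p q, Q p → Q q → Q (p * q) := by
    rintro p q ⟨u, hu⟩ ⟨v, hv⟩
    refine ⟨u + v, ?_⟩
    rw [dc_mul, derivative_mul]
    linear_combination q * hu + p * hv
  have hC : ∀ a : ℂ, a ≠ 0 → Q (C a) := fun a ha => (isUnit_C.2 (Ne.isUnit ha)).dvd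
  change Q p
  rw [(IsAlgClosed.splits p).eq_prod_roots]
  refine hM _ _ (hC _ (leadingCoeff_ne_zero.2 hp)) (Multiset.prod_induction Q _ hM
    (one_dvd _) fun q hq => ?_)
  obtain ⟨a, ha, rfl⟩ := Multiset.mem_map.1 hq
  have h1 := X_sub_C_dvd_sub_C_eval (a := a) (p := ξ)
  rw [h a ((mem_roots hp).1 ha)] at h1
  simp only [Q, dc_lin, derivative_X_sub_C, mul_one]
  rwa [neg_add_eq_sub]

end DcA

theorem sDc : SDc := fun δ =>
  ⟨DcA.coeff_dc δ, DcA.dc_mul δ, fun _ F f h => DcA.chain δ F f h, DcA.dvd δ⟩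

end Pool.Agent.MP_4be736_ag.H39
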