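import Pool.Agent.Results.MP_4be736_ag.NotUniruled

/-!
Orbifold pairs with integral multiplicities on smooth complete intersections.
-/

open MvPolynomial
open scoped ENNReal

namespace Pool.Agent.MP_4be736_ag.H39

open Pool.Agent.Results.MP_4be736_ag.NotUniruled (PP RatCurve pt)

/-- The gradient of `F` at `y`. -/
noncomputable def grad {k : ℕ} (y : Fin k → ℂ) (F : MvPolynomial (Fin k) ℂ) : Fin k → ℂ :=
  fun l => eval y (pderiv l F)

/-- `X = {F_i = 0}` in projective space, `D = ∑ (1 - 1 / m_j) (X ∩ {G_j = 0})` with integral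
multiplicities `m_j ∈ {2, 3, ..., ∞}`. The Jacobian condition says that `X` is a smooth complete
intersection and that the `D_j` are smooth with simple normal crossings. -/
structure CIPair (k : ℕ) where
  c : ℕ
  F : Fin c → MvPolynomial (Fin k) ℂ
  δ : Fin c → ℕ
  r : ℕ
  G : Fin r → MvPolynomial (Fin k) ℂ
  d : Fin r → ℕ
  m : Fin r → ℕ∞
  homF : ∀ i, (F i).IsHomogeneous (δ i)
  homG : ∀ j, (G j).IsHomogeneous (d j)
  δ_pos : ∀ i, 1 ≤ δ i
  d_pos : ∀ j, 1 ≤ d j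
  two_le : ∀ j, 2 ≤ m j
  snc : ∀ y : Fin k → ℂ, y ≠ 0 → (∀ i, eval y (F i) = 0) → LinearIndependent ℂ
    (Sum.elim (fun i => grad y (F i)) fun j : {j // eval y (G j) = 0} => grad y (G j))

/-- The variety `X`. -/
def CIPair.X {k : ℕ} (P : CIPair k) : Set (PP k) := {x | ∀ i, eval x.rep (P.F i) = 0}

/-- `1 / m` as a real number (`1 / ∞ = 0`). -/
noncomputable def im (m : ℕ∞) : ℝ := ((m : ℝ≥0∞)⁻¹).toReal

/-- `t_{a,j}`: the order of `a` in `f^* D_j`. -/
noncomputable def ordAt {k : ℕ} (P : CIPair k) (f : RatCurve k) (a : PP 2) (j : Fin P.r) : ℕ :=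
  multiplicity (C (a.rep 1) * X 0 - C (a.rep 0) * X 1) (aeval f.F (P.G j))

/-- The smallest multiplicity at `a` making `f` an orbifold morphism:
`max (1, max_j m_j / t_{a,j})`. -/
noncomputable def mOrb {k : ℕ} (P : CIPair k) (f : RatCurve k) (a : PP 2) : ℝ≥0∞ :=
  max 1 (⨆ (j : Fin P.r) (_ : eval (pt f a).rep (P.G j) = 0),
    (P.m j : ℝ≥0∞) / (ordAt P f a j : ℝ≥0∞))

/-- `Q` holds on `X` outside a countable union of proper Zariski-closed subsets of `X`. -/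
def GeneralOn {k : ℕ} (X : Set (PP k)) (Q : PP k → Prop) : Prop :=
  ∃ 𝒵 : Set (Set (PP k)), 𝒵.Countable ∧
    (∀ Z ∈ 𝒵, Z ⊂ X ∧ ∃ S : Set (MvPolynomial (Fin k) ℂ),
      (∀ g ∈ S, ∃ n, g.IsHomogeneous n) ∧ Z = {x | ∀ g ∈ S, eval x.rep g = 0}) ∧
    ∀ x ∈ X, (∀ Z ∈ 𝒵, x ∉ Z) → Q x

/-- Through a general point of `X` passes a rational curve `C ⊆ X` with `(K_X + D) . C < 0`. -/
def CIPair.WeaklyUniruled {k : ℕ} (P : CIPair k) : Prop :=
  GeneralOn P.X fun x => ∃ f : RatCurve k, x ∈ Set.range (pt f) ∧ Set.range (pt f) ⊆ P.X ∧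
    (∑ i, (P.δ i : ℝ) - k + ∑ j, (1 - im (P.m j)) * P.d j) * f.e < 0

/-- `f` is an orbifold rational curve on `(X, D)`: its image lies in `X`, not in `Supp D`, and
`deg D_C = ∑ (1 - 1 / m(f,a)) < 2`. -/
def CIPair.OrbRat {k : ℕ} (P : CIPair k) (f : RatCurve k) : Prop :=
  Set.range (pt f) ⊆ P.X ∧ (∃ a, ∀ j, eval (pt f a).rep (P.G j) ≠ 0) ∧
    ∑' a : {a : PP 2 // ∃ j, eval (pt f a).rep (P.G j) = 0}, (1 - (mOrb P f a)⁻¹) < 2

/-- Through a general point of `X` passes an orbifold rational curve. -/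
def CIPair.Uniruled {k : ℕ} (P : CIPair k) : Prop :=
  GeneralOn P.X fun x => ∃ f : RatCurve k, x ∈ Set.range (pt f) ∧ P.OrbRat f

end Pool.Agent.MP_4be736_ag.H39
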