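import Pool.Agent.MP_4be736_ag.H39.Spec

/-!
Derivations of the complex numbers with prescribed values.
-/

namespace Pool.Agent.MP_4be736_ag.H39

namespace DerExtA

theorem smooth (k L : Type) [Field k] [Field L] [Algebra k L] [CharZero k] :
    Algebra.FormallySmooth k L := by
  obtain ⟨s, hs⟩ := exists_isTranscendenceBasis k L
  have := hs.isAlgebraic_field
  have : CharZero (IntermediateField.adjoin k (Set.range ((↑) : s → L))) :=
    algebraRat.charZero _
  exact Algebra.FormallySmooth.of_algebraicIndependent_of_isSeparable hs.1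

/-- A copy of the dual numbers without its standard algebra structures. -/
def Dual (K : Type) [Field K] : Type := TrivSqZeroExt K K

noncomputable instance (K : Type) [Field K] : CommRing (Dual K) :=
  inferInstanceAs (CommRing (TrivSqZeroExt K K))

theorem extend {R : Type} [CommRing R] (ι : R →+* ℂ) (hinj : Function.Injective ι)
    (φ : R →+* TrivSqZeroExt ℂ ℂ) (hφ : ∀ r, (φ r).fst = ι r) :
    ∃ δ : Der, ∀ r, δ (ι r) = (φ r).snd := by
  let : Algebra R ℂ := ι.toAlgebra
  have : IsDomain R := hinj.isDomain _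
  let : Algebra (FractionRing R) ℂ := (IsFractionRing.lift hinj).toAlgebra
  have : IsScalarTower R (FractionRing R) ℂ :=
    IsScalarTower.of_algebraMap_eq fun x => (IsFractionRing.lift_algebraMap hinj x).symm
  have : CharZero (FractionRing R) := (algebraMap (FractionRing R) ℂ).charZero
  have : Algebra.FormallySmooth (FractionRing R) ℂ := smooth _ _
  have : Algebra.FormallySmooth R (FractionRing R) := .of_isLocalization (nonZeroDivisors _)
  have : Algebra.FormallySmooth R ℂ := .comp _ (FractionRing R) _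
  let : Algebra R (Dual ℂ) := RingHom.toAlgebra φ
  let g0 : Dual ℂ →+* ℂ := (TrivSqZeroExt.fstHom ℂ ℂ ℂ).toRingHom
  let g : Dual ℂ →ₐ[R] ℂ := { g0 with commutes' := hφ }
  have hs : Function.Surjective g := fun x => ⟨TrivSqZeroExt.inl x, rfl⟩
  have hn : IsNilpotent (RingHom.ker (g : Dual ℂ →+* ℂ)) := by
    refine ⟨2, ?_⟩
    rw [pow_two, Ideal.zero_eq_bot, eq_bot_iff, Ideal.mul_le]
    intro r hr s hs
    have h1 : TrivSqZeroExt.fst (R := ℂ) (M := ℂ) r = 0 := hr
    have h2 : TrivSqZeroExt.fst (R := ℂ) (M := ℂ) s = 0 := hs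
    have : ∀ r s : TrivSqZeroExt ℂ ℂ, r.fst = 0 → s.fst = 0 → r * s = 0 := by
      intro r s h1 h2
      ext <;> simp [h1, h2]
    exact this r s h1 h2
  let σ := Algebra.FormallySmooth.liftOfSurjective (AlgHom.id R ℂ) g hs hn
  have hσ : ∀ x, TrivSqZeroExt.fst (R := ℂ) (M := ℂ) (σ x) = x := fun x =>
    Algebra.FormallySmooth.liftOfSurjective_apply (AlgHom.id R ℂ) g hs hn x
  have hmul : ∀ x y, TrivSqZeroExt.snd (R := ℂ) (M := ℂ) (σ (x * y)) =
      x * TrivSqZeroExt.snd (R := ℂ) (M := ℂ) (σ y) +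
        y * TrivSqZeroExt.snd (R := ℂ) (M := ℂ) (σ x) := by
    intro x y
    rw [map_mul]
    have := TrivSqZeroExt.snd_mul (R := ℂ) (M := ℂ) (σ x) (σ y)
    rw [hσ, hσ] at this
    refine this.trans ?_
    simp [mul_comm]
  let D : ℂ →+ ℂ :=
    { toFun := fun x => TrivSqZeroExt.snd (R := ℂ) (M := ℂ) (σ x)
      map_zero' := by rw [map_zero]; rfl
      map_add' := fun x y => by rw [map_add]; rfl }
  exact ⟨Derivation.mk' D.toIntLinearMap hmul, fun r =>
    congrArg (TrivSqZeroExt.snd (R := ℂ) (M := ℂ)) (σ.commutes r)⟩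

theorem extend' {P : Type} [CommRing P] (e : P →+* ℂ) (θ : P →+* TrivSqZeroExt ℂ ℂ)
    (h1 : ∀ g, (θ g).fst = e g) (h2 : ∀ g, e g = 0 → (θ g).snd = 0) :
    ∃ δ : Der, ∀ g, δ (e g) = (θ g).snd := by
  let φ : P ⧸ RingHom.ker e →+* TrivSqZeroExt ℂ ℂ := Ideal.Quotient.lift _ θ fun g hg =>
    TrivSqZeroExt.ext ((h1 g).trans hg) (h2 g hg)
  have hφ : ∀ r, (φ r).fst = RingHom.kerLift e r := fun r => by
    obtain ⟨g, rfl⟩ := Ideal.Quotient.mk_surjective r
    exact h1 g
  obtain ⟨δ, hδ⟩ := extend (RingHom.kerLift e) (RingHom.kerLift_injective e) φ hφ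
  exact ⟨δ, fun g => hδ (Ideal.Quotient.mk _ g)⟩

end DerExtA

open MvPolynomial in
theorem sDerExt : SDerExt := by
  classical
  intro K I _ u w h
  let θ : MvPolynomial I K →+* TrivSqZeroExt ℂ ℂ :=
    eval₂Hom ((TrivSqZeroExt.inlHom ℂ ℂ).comp (algebraMap K ℂ))
      fun i => TrivSqZeroExt.inl (u i) + TrivSqZeroExt.inr (w i)
  have hX : ∀ i, θ (X i) = TrivSqZeroExt.inl (u i) + TrivSqZeroExt.inr (w i) := fun i => by
    simp [θ]
  have hC : ∀ a, θ (C a) = TrivSqZeroExt.inl (algebraMap K ℂ a) := fun a => by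
    simp [θ]
  have h1 : ∀ g, (θ g).fst = aeval u g ∧ (θ g).snd = ∑ i, aeval u (pderiv i g) * w i := fun g => by
    induction g using MvPolynomial.induction_on with
    | C c => simp [hC]
    | add a b ha hb => simp [ha.1, hb.1, ha.2, hb.2, add_mul, Finset.sum_add_distrib]
    | mul_X a j ha =>
      refine ⟨by simp [ha.1, hX], ?_⟩
      rw [map_mul, TrivSqZeroExt.snd_mul, hX, ha.1, ha.2]
      simp [pderiv_X, Pi.single_apply, add_mul, Finset.sum_add_distrib,
        apply_ite (aeval u), mul_assoc, ← Finset.mul_sum]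
      ring
  obtain ⟨δ, hδ⟩ := DerExtA.extend' (aeval u : MvPolynomial I K →ₐ[K] ℂ).toRingHom θ
    (fun g => (h1 g).1) fun g hg => (h1 g).2.trans (h g hg)
  have h2 : ∀ g, δ (aeval u g) = (θ g).snd := hδ
  refine ⟨δ, fun a ha => ?_, fun i => ?_⟩
  · have := h2 (C ⟨a, ha⟩)
    rwa [hC, aeval_C] at this
  · simpa [hX] using h2 (X i)

end Pool.Agent.MP_4be736_ag.H39
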