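import Pool.Agent.MP_4be736_ag.H39.Spec

/-!
Divisibility of the determinant.
-/

open Polynomial

namespace Pool.Agent.MP_4be736_ag.H39

namespace DetDivA

theorem exists_ext {K P : Type} [Fintype K] [Fintype P] {f : P → K → ℂ}
    (hf : LinearIndependent ℂ f) : ∃ (m : ℕ) (x : Fin m → K → ℂ),
      LinearIndependent ℂ (Sum.elim f x) ∧ Fintype.card P + m = Fintype.card K := by
  obtain ⟨W, hW⟩ := Submodule.exists_isCompl (Submodule.span ℂ (Set.range f))
  let b := Module.finBasis ℂ W
  refine ⟨_, fun i => (b i : K → ℂ), hf.sum_type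
    (b.linearIndependent.map' W.subtype W.ker_subtype) (hW.disjoint.mono_right ?_), ?_⟩
  · exact Submodule.span_le.2 (Set.range_subset_iff.2 fun i => (b i).2)
  · have := Submodule.finrank_add_eq_of_isCompl hW
    rwa [finrank_span_eq_card hf, Module.finrank_fintype_fun_eq_card] at this

theorem dvd_of_loc {H D : ℂ[X]} (h : ∀ a : ℂ, ∃ r : ℂ[X], r.eval a ≠ 0 ∧ H ∣ r * D) : H ∣ D := by
  let I : Ideal ℂ[X] :=
    { carrier := {r | H ∣ r * D}
      add_mem' := fun {a b} ha hb => by
        change H ∣ (a + b) * D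
        rw [add_mul]
        exact dvd_add ha hb
      zero_mem' := by simp
      smul_mem' := fun c r hr => by
        change H ∣ (c * r) * D
        rw [mul_assoc]
        exact Dvd.dvd.mul_left hr c }
  let p := Submodule.IsPrincipal.generator I
  by_cases hp : p.degree = 0
  · have h1 : H ∣ p * D := Submodule.IsPrincipal.generator_mem I
    exact (isUnit_iff_degree_eq_zero.2 hp).dvd_mul_left.1 h1
  · obtain ⟨a, ha⟩ := IsAlgClosed.exists_root p hp
    obtain ⟨r, h1, h2⟩ := h a
    exact absurd (ha.dvd ((Submodule.IsPrincipal.mem_iff_generator_dvd I).1 h2)) h1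

theorem det_mul_DD {K N L : Type} [Fintype K] [DecidableEq K] [Fintype N] [DecidableEq N]
    [Fintype L] [DecidableEq L] (ε : K ≃ N ⊕ L) (φ w : L → K → ℂ[X]) (ρ u : N → K → ℂ[X])
    (h : ∀ n i, ∑ l, φ i l * u n l = 0) :
    (Matrix.of fun k l => Sum.elim ρ φ (ε k) l).det * DD ε u w =
      (Matrix.of fun n n' => ∑ l, ρ n l * u n' l).det * DW φ w := by
  rw [DD, DW, ← Matrix.det_mul, ← Matrix.det_fromBlocks_zero₂₁ _
    (Matrix.of fun n i => ∑ l, ρ n l * w i l), ← Matrix.det_submatrix_equiv_self ε]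
  congr 1
  ext1 k k'
  rw [Matrix.mul_apply, Matrix.submatrix_apply]
  simp only [Matrix.of_apply]
  rcases ε k with n | i <;> rcases ε k' with n' | i' <;> simp [h]

end DetDivA

open DetDivA in
theorem sDetDiv : SDetDiv := by
  intro K N L J _ _ _ _ _ _ _ ε φ w ψ g u hli h0 hg
  classical
  refine dvd_of_loc fun a => ?_
  obtain ⟨m, x, hx, hm⟩ := exists_ext (hli a)
  have hc : Fintype.card N = Fintype.card ({j // (g j).eval a = 0} ⊕ Fin m) := by
    have := Fintype.card_congr ε
    simp only [Fintype.card_sum, Fintype.card_fin] at this hm ⊢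
    omega
  let τ := Fintype.equivOfCardEq hc
  let ρ : N → K → ℂ[X] := fun n => Sum.elim (fun j => ψ j.1) (fun e l => C (x e l)) (τ n)
  let d : N → ℂ[X] := fun n => Sum.elim (fun j => g j.1) (fun _ => 1) (τ n)
  have hd : ∀ n n', d n ∣ ∑ l, ρ n l * u n' l := fun n n' => by
    simp only [d, ρ]
    rcases τ n with j | e
    · exact hg n' j.1
    · exact one_dvd _
  choose M hM using hd
  have e1 := det_mul_DD ε φ w ρ u h0
  simp only [hM] at e1
  rw [show (Matrix.of fun n n' => d n * M n n') = Matrix.of fun n n' => d n * Matrix.of M n n'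
    from rfl, Matrix.det_mul_column] at e1
  have e2 : ∏ n, d n = ∏ j : {j // (g j).eval a = 0}, g j := by
    rw [show (∏ n, d n) = _ from τ.prod_comp (Sum.elim (fun j => g j.1) fun _ => 1)]
    simp
  refine ⟨(Matrix.of fun k l => Sum.elim ρ φ (ε k) l).det *
    ∏ j : {j // ¬ (g j).eval a = 0}, g j, ?_, (Matrix.of M).det, ?_⟩
  · rw [eval_mul, eval_prod]
    refine mul_ne_zero ?_ (Finset.prod_ne_zero_iff.2 fun j _ => j.2)
    have e3 := (evalRingHom a).map_det (Matrix.of fun k l => Sum.elim ρ φ (ε k) l)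
    rw [coe_evalRingHom] at e3
    rw [e3]
    refine ((Matrix.isUnit_iff_isUnit_det _).1 (Matrix.linearIndependent_rows_iff_isUnit.1 ?_)).ne_zero
    let σ : K ≃ (L ⊕ {j // (g j).eval a = 0}) ⊕ Fin m :=
      ε.trans (((Equiv.sumComm _ _).trans ((Equiv.refl L).sumCongr τ)).trans
        (Equiv.sumAssoc _ _ _).symm)
    have e4 : ((evalRingHom a).mapMatrix (Matrix.of fun k l => Sum.elim ρ φ (ε k) l)).row =
        Sum.elim (Sum.elim (fun i l => (φ i l).eval a)
          fun (j : {j // (g j).eval a = 0}) l => (ψ j l).eval a) x ∘ σ := by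
      funext k l
      simp only [σ, Matrix.row, RingHom.mapMatrix_apply, Matrix.map_apply, Matrix.of_apply,
        coe_evalRingHom, Function.comp_apply, Equiv.trans_apply]
      rcases ε k with n | i
      · simp only [Sum.elim_inl, Equiv.sumComm_apply, Sum.swap_inl, Equiv.sumCongr_apply,
          Sum.map_inr, ρ]
        rcases τ n with j | e <;> simp
      · simp
    rw [e4]
    exact hx.comp σ σ.injective
  · rw [← Fintype.prod_subtype_mul_prod_subtype (fun j => (g j).eval a = 0) g, ← e2]
    linear_combination (∏ j : {j // ¬ (g j).eval a = 0}, g j) * e1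

end Pool.Agent.MP_4be736_ag.H39
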