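import Pool.Agent.MP_4be736_ag.H39.Spec

/-!
The dimension bound for deformations of a curve through a movable point.
-/

open Polynomial

namespace Pool.Agent.MP_4be736_ag.H39

namespace DimA

theorem sum_comp_equiv {k n c : ℕ} (ε : Option (Fin k) ≃ Option (Fin n) ⊕ Fin c) (e : ℕ) :
    ∑ l, Sum.elim (fun m : Option (Fin n) => m.elim 0 fun _ => e) (fun _ : Fin c => 0) (ε l) =
      n * e := by
  rw [Equiv.sum_comp ε (Sum.elim (fun m : Option (Fin n) => m.elim 0 fun _ => e) fun _ : Fin c => 0)]
  simp [Fintype.sum_sum_type, Fintype.sum_option]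

theorem dw (h0 : STop) (h3 : STopDet) {k c e : ℕ} (F : Fin c → MvPolynomial (Fin k) ℂ)
    (δ : Fin c → ℕ) (hF : ∀ i, (F i).IsHomogeneous (δ i)) (y : Fin k → ℂ) (h : Fin k → ℂ[X])
    (hA : Aff y e h) (w : Fin c → Fin k → ℂ)
    (hw : ∀ i i', ∑ l, grad y (F i) l * w i' l = if i = i' then 1 else 0) :
    (Matrix.of fun i i' => ∑ l, MvPolynomial.aeval h (MvPolynomial.pderiv l (F i)) *
      C (w i' l)).det.coeff (∑ i, (δ i - 1) * e) = 1 := by
  have hp := fun i l => h0 k (δ i - 1) e (MvPolynomial.pderiv l (F i)) h (hF i).pderiv hA.deg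
  have := (h3 (Fin c) (Matrix.of fun i i' => ∑ l,
    MvPolynomial.aeval h (MvPolynomial.pderiv l (F i)) * C (w i' l)) (fun i => (δ i - 1) * e)
    (fun _ => 0) (fun i i' => by
      rw [Matrix.of_apply, add_zero]
      exact natDegree_sum_le_of_forall_le _ _ fun l _ =>
        (natDegree_mul_C_le _ _).trans (hp i l).1)).2
  rw [Finset.sum_const_zero, add_zero] at this
  rw [this, ← Matrix.det_one (n := Fin c)]
  refine congrArg _ (Matrix.ext fun i i' => ?_)
  rw [Matrix.of_apply, Matrix.of_apply, add_zero, finsetSum_coeff, Matrix.one_apply, ← hw]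
  refine Finset.sum_congr rfl fun l _ => ?_
  rw [coeff_mul_C, (hp i l).2, grad]
  simp only [hA.top]

theorem indep {k : ℕ} (P : CIPair k) (h : Fin k → ℂ[X]) (hp : ∀ a : ℂ, ∃ l, (h l).eval a ≠ 0)
    (hF : ∀ i, MvPolynomial.aeval h (P.F i) = 0) (a : ℂ) :
    LinearIndependent ℂ (Sum.elim (fun i (l : Option (Fin k)) => (l.elim 0 fun l =>
      MvPolynomial.aeval h (MvPolynomial.pderiv l (P.F i)) : ℂ[X]).eval a)
      fun (j : {j // (MvPolynomial.aeval h (P.G j)).eval a = 0}) (l : Option (Fin k)) =>
        (l.elim (derivative (MvPolynomial.aeval h (P.G j))) fun l =>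
          MvPolynomial.aeval h (MvPolynomial.pderiv l (P.G j)) : ℂ[X]).eval a) := by
  have h1 := P.snc (fun l => (h l).eval a) (fun h0 => by
    obtain ⟨l, hl⟩ := hp a
    exact hl (congrFun h0 l)) fun i => by rw [← eval_aeval, hF, eval_zero]
  have h2 := h1.comp (Sum.map id fun j : {j // (MvPolynomial.aeval h (P.G j)).eval a = 0} =>
    ⟨j.1, by rw [← eval_aeval]; exact j.2⟩)
    (Function.injective_id.sumMap fun j j' hj => Subtype.ext (Subtype.mk.inj hj))
  refine LinearIndependent.of_comp (LinearMap.funLeft ℂ ℂ some) ?_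
  refine Eq.mp (congrArg (fun x => LinearIndependent ℂ x) ?_) h2
  funext o l
  rcases o with i | j
  · exact (eval_aeval _ _ _).symm
  · exact (eval_aeval _ _ _).symm

end DimA

open DimA

theorem sDim (h0 : STop) (h1 : SDc) (h3 : STopDet) (h4 : SBound) (h5 : SLead) (h6 : SFrame) :
    SDim := by
  intro k P y e h S I _ v ξ hy hF hM hG hA hFh hS b1 b2 b3 b4 hli
  classical
  obtain ⟨n, t, w, ε, hn, ht, htφ, hw, hdet⟩ := h6 k P.c (fun i => grad y (P.F i))
    ((P.snc y hy hF).comp Sum.inl Sum.inl_injective)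
  choose δ hδF hδG hδy using fun m => hM (t m) (htφ m)
  have hGt := fun j => h0 k (P.d j) e (P.G j) h (P.homG j) hA.deg
  have hGc : ∀ j, (MvPolynomial.aeval h (P.G j)).coeff (P.d j * e) ≠ 0 := by
    intro j
    rw [(hGt j).2]
    simp only [hA.top]
    exact hG j
  have hG0 : ∀ j, MvPolynomial.aeval h (P.G j) ≠ 0 := fun j h0 => hGc j (by rw [h0, coeff_zero])
  set R : ℂ[X] := ∏ a ∈ S, (X - C a) with hR
  have hRm : R.Monic := monic_prod_of_monic _ _ fun a _ => monic_X_sub_C a
  have hRd : R.natDegree = S.card := natDegree_finsetProd_X_sub_C_eq_card S id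
  let η : Fin n → ℂ[X] := fun m => Lagrange.interpolate S id fun a => δ m a
  have hη : ∀ m, (η m).degree < S.card := fun m =>
    Lagrange.degree_interpolate_lt _ (Set.injOn_id _)
  have hηa : ∀ m, ∀ a ∈ S, (η m).eval a = δ m a := fun m a ha =>
    Lagrange.eval_interpolate_at_node (v := id) _ (Set.injOn_id _) ha
  have hdd : ∀ m l, (dc (δ m) (h l)).natDegree ≤ e := fun m l =>
    natDegree_le_iff_coeff_eq_zero.2 fun N hN => by
      rw [(h1 _).1, coeff_eq_zero_of_natDegree_lt ((hA.deg l).trans_lt hN), map_zero]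
  have hdc : ∀ m l, (dc (δ m) (h l)).coeff e = t m l := fun m l => by
    rw [(h1 _).1, hA.top, hδy]
  have hdc0 : ∀ (d : Der), dc d 0 = 0 := fun d => by
    ext N
    rw [(h1 _).1, coeff_zero, map_zero]
  let s : Option (Fin n) → Option (Fin k) → ℂ[X] := fun m =>
    m.elim (fun l => l.elim R fun _ => 0) fun m l => l.elim (η m) fun l => dc (δ m) (h l)
  let w' : Fin P.c → Option (Fin k) → ℂ[X] := fun i l => l.elim 0 fun l => C (w i l)
  let φ : Fin P.c → Option (Fin k) → ℂ[X] := fun i l => l.elim 0 fun l =>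
    MvPolynomial.aeval h (MvPolynomial.pderiv l (P.F i))
  have hD := h3 (Option (Fin k)) (Matrix.of fun l l' => Sum.elim s w' (ε l') l)
    (fun l => l.elim S.card fun _ => 0)
    (fun l' => Sum.elim (fun m : Option (Fin n) => m.elim 0 fun _ => e) (fun _ => 0) (ε l')) (by
      intro l l'
      rw [Matrix.of_apply]
      rcases ε l' with (_ | m) | i <;> rcases l with _ | l
      · exact hRd.le
      · exact natDegree_zero.le.trans (Nat.zero_le _)
      · exact (natDegree_le_of_degree_le (hη m).le).trans (Nat.le_add_right _ _)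
      · exact (hdd m l).trans (Nat.le_add_left _ _)
      · exact natDegree_zero.le.trans (Nat.zero_le _)
      · exact (natDegree_C _).le)
  rw [sum_comp_equiv, Fintype.sum_option] at hD
  simp only [Option.elim_none, Option.elim_some, Finset.sum_const_zero, add_zero] at hD
  have hD0 : DD ε s w' ≠ 0 := by
    intro h0
    apply hdet
    rw [DD] at h0
    have h2 := hD.2
    rw [h0, coeff_zero] at h2
    refine Eq.trans (congrArg _ (Matrix.ext fun l l' => ?_)) h2.symm
    simp only [Matrix.of_apply]
    rcases ε l' with (_ | m) | i <;> rcases l with _ | l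
    · change 1 = R.coeff (S.card + 0)
      rw [add_zero, ← hRd]
      exact hRm.symm
    · rfl
    · change 0 = (η m).coeff (S.card + e)
      exact (coeff_eq_zero_of_degree_lt ((hη m).trans_le (by exact_mod_cast Nat.le_add_right _ _))).symm
    · change t m l = (dc (δ m) (h l)).coeff (0 + e)
      rw [zero_add, hdc]
    · rfl
    · exact (coeff_C_zero).symm
  have hW : (DW φ w').coeff (∑ i, (P.δ i - 1) * e) = 1 := by
    rw [← dw h0 h3 P.F P.δ P.homF y h hA w hw, DW]
    refine congrArg (fun M : Matrix _ _ ℂ[X] => M.det.coeff _) (Matrix.ext fun i i' => ?_)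
    rw [Matrix.of_apply, Matrix.of_apply, Fintype.sum_option]
    exact (congrArg (· + _) (zero_mul _)).trans (zero_add _)
  have hB := h4 (Option (Fin k)) (Option (Fin n)) (Fin P.c) (Fin P.r) I ε φ w'
    (fun j l => l.elim (derivative (MvPolynomial.aeval h (P.G j))) fun l =>
      MvPolynomial.aeval h (MvPolynomial.pderiv l (P.G j)))
    (fun j => MvPolynomial.aeval h (P.G j)) s (fun o l => l.elim (ξ o) (v o))
    (indep P h hA.prim hFh) ?_ ?_ ?_ ?_ hD0 (fun h0 => by simp [h0] at hW) ?_
  · have e1 : ∑ i, (P.δ i - 1) * e ≤ (DW φ w').natDegree :=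
      le_natDegree_of_ne_zero (by rw [hW]; exact one_ne_zero)
    have e2 : ∑ j, P.d j * e ≤ ∑ j, (MvPolynomial.aeval h (P.G j)).natDegree :=
      Finset.sum_le_sum fun j _ => le_natDegree_of_ne_zero (hGc j)
    have e3 : (DD ε s w').natDegree ≤ S.card + n * e := hD.1
    have e4 : ∑ i, (P.δ i - 1) * e + P.c * e = (∑ i, P.δ i) * e := by
      have : ∀ i, P.δ i * e = (P.δ i - 1) * e + e := fun i => by
        rw [← Nat.succ_mul, Nat.succ_eq_add_one, Nat.sub_add_cancel (P.δ_pos i)]
      rw [Finset.sum_mul, Finset.sum_congr rfl fun i _ => this i, Finset.sum_add_distrib]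
      simp
    rw [← Finset.sum_mul] at e2
    have e5 : k * e = n * e + P.c * e := by rw [← add_mul, hn]
    rw [add_mul, ← e4, e5]
    omega
  · rintro (_ | m) i <;> rw [Fintype.sum_option]
    · simp [φ, s]
    · have := (h1 (δ m)).2.2.1 k (P.F i) h (hδF m i)
      rw [hFh, hdc0] at this
      exact ((congrArg (· + _) (zero_mul _)).trans (zero_add _)).trans this.symm
  · rintro (_ | m) j <;> rw [Fintype.sum_option]
    · have := (h1 0).2.2.2 _ R (hG0 j) fun a ha => by
        rw [hR, eval_prod]
        exact Finset.prod_eq_zero (hS j a ha) (by simp)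
      have h2 : dc 0 (MvPolynomial.aeval h (P.G j)) = 0 := by
        ext N
        rw [(h1 _).1]
        rfl
      rw [h2, zero_add, mul_comm] at this
      simpa [s] using this
    · have := (h1 (δ m)).2.2.2 _ (η m) (hG0 j) fun a ha => hηa m a (hS j a ha)
      rw [(h1 (δ m)).2.2.1 k (P.G j) h (hδG m j), add_comm, mul_comm] at this
      exact this
  · intro o i
    rw [Fintype.sum_option]
    exact ((congrArg (· + _) (zero_mul _)).trans (zero_add _)).trans (b3 o i)
  · intro o j
    have := b4 o j
    rw [add_comm, mul_comm] at this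
    rw [Fintype.sum_option]
    exact this
  · intro c hc
    obtain ⟨A, hA'⟩ := (Submodule.mem_span_range_iff_exists_fun _).1 hc
    have c1 : ∀ l, ∑ m, A (some m) * dc (δ m) (h l) = ∑ o, c o • v o l := by
      intro l
      have := congrFun hA' (some l)
      rw [Finset.sum_apply, Finset.sum_apply, Fintype.sum_option] at this
      simpa [s] using this
    have c2 : A none * R + ∑ m, A (some m) * η m = ∑ o, c o • ξ o := by
      have := congrFun hA' none
      rw [Finset.sum_apply, Finset.sum_apply, Fintype.sum_option] at this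
      simpa [s] using this
    have hdeg : ∀ (p : I → ℂ[X]) (N : ℕ), (∀ o, (p o).degree < N) → (∑ o, c o • p o).degree < N :=
      fun p N hp => mem_degreeLT.1 (Submodule.sum_mem _ fun o _ =>
        Submodule.smul_mem _ _ (mem_degreeLT.2 (hp o)))
    have c3 : ∀ m, A (some m) = 0 := h5 (Fin k) (Fin n) e (fun m l => dc (δ m) (h l))
      (fun m => A (some m)) hdd (by simpa only [hdc] using ht) fun l => by
        rw [c1]; exact hdeg _ _ fun o => b1 o l
    simp only [c3, zero_mul, Finset.sum_const_zero, add_zero] at c1 c2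
    have c4 : ∑ o, c o • ξ o = 0 :=
      eq_zero_of_dvd_of_degree_lt (Dvd.intro_left _ c2) (by
        rw [degree_eq_natDegree hRm.ne_zero, hRd]
        exact hdeg _ _ b2)
    refine funext (Fintype.linearIndependent_iff.1 hli c ?_)
    refine Prod.ext (funext fun l => ?_) ?_
    · rw [Prod.fst_sum, Finset.sum_apply]
      exact (c1 l).symm
    · rw [Prod.snd_sum]
      exact c4

end Pool.Agent.MP_4be736_ag.H39
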