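import Pool.Agent.MP_4be736_ag.H39.Spec

/-!
Existence of a curve without base point with prescribed contact orders.
-/

open Polynomial

namespace Pool.Agent.MP_4be736_ag.H39

namespace ExistsA

theorem cv_coeff {k e : ℕ} (y : Fin k → ℂ) (z : Fin k × Fin e → ℂ) (l : Fin k) (n : Fin e) :
    (cv y e z l).coeff n = z (l, n) := by
  rw [cv, coeff_add, coeff_C_mul_X_pow, if_neg n.2.ne, zero_add, finsetSum_coeff,
    Finset.sum_eq_single n]
  · rw [coeff_C_mul_X_pow, if_pos rfl]
  · intro m _ hm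
    rw [coeff_C_mul_X_pow, if_neg fun h => hm (Fin.ext h.symm)]
  · simp

theorem cv_top {k e : ℕ} (y : Fin k → ℂ) (z : Fin k × Fin e → ℂ) (l : Fin k) :
    (cv y e z l).coeff e = y l := by
  rw [cv, coeff_add, coeff_C_mul_X_pow, if_pos rfl, finsetSum_coeff, Finset.sum_eq_zero, add_zero]
  intro m _
  rw [coeff_C_mul_X_pow, if_neg m.2.ne']

theorem cv_deg {k e : ℕ} (y : Fin k → ℂ) (z : Fin k × Fin e → ℂ) (l : Fin k) :
    (cv y e z l).natDegree ≤ e := by
  refine natDegree_add_le_of_degree_le (natDegree_C_mul_X_pow_le _ _) ?_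
  exact natDegree_sum_le_of_forall_le _ _ fun m _ => (natDegree_C_mul_X_pow_le _ _).trans m.2.le

/-- The linear map from tangent data of the reduced curve to tangent vectors of the unknowns. -/
noncomputable def theta {k : ℕ} (e : ℕ) {Pt : Type} (Q : ℂ[X]) (h : Fin k → ℂ[X]) (a : Pt → ℂ) :
    ((Fin k → ℂ[X]) × ℂ[X]) →ₗ[ℂ] ((Fin k × Fin e) ⊕ Pt → ℂ) where
  toFun x := Sum.elim
    (fun u => (Q * x.1 u.1 - ((x.2 * derivative Q) %ₘ Q) * h u.1).coeff u.2) fun π => x.2.eval (a π)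
  map_add' x x' := by
    funext u
    rcases u with u | π
    · simp only [Sum.elim_inl, Prod.fst_add, Prod.snd_add, Pi.add_apply, add_mul, add_modByMonic,
        mul_add, coeff_sub, coeff_add]
      ring
    · simp
  map_smul' c x := by
    funext u
    rcases u with u | π
    · simp only [Sum.elim_inl, Prod.smul_fst, Prod.smul_snd, Pi.smul_apply, smul_mul_assoc,
        smul_modByMonic, mul_smul_comm, coeff_sub, coeff_smul, RingHom.id_apply, smul_eq_mul]
      ring
    · simp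

end ExistsA

open ExistsA

theorem sExists (h1 : SSolve) (h2 : SIndep) (h3 : SFactor) (h4 : STangent) (h5 : SDim)
    (h6 : SCount) : SExists := by
  intro k P y e Pt _ s hy hF hM hG he hs hstar
  classical
  set N := ∑ i, P.δ i + ∑ j, P.d j with hN
  have hP : N * e + 2 ≤ k * e + Fintype.card Pt :=
    hstar e Finset.univ he le_rfl fun j => (hs j).ge
  let T : Set ℂ := ((⋃ i, Set.range fun m => MvPolynomial.coeff m (P.F i)) ∪
    ⋃ j, Set.range fun m => MvPolynomial.coeff m (P.G j)) ∪ Set.range y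
  have hT : T.Countable :=
    ((Set.countable_iUnion fun i => Set.countable_range _).union
      (Set.countable_iUnion fun i => Set.countable_range _)).union (Set.countable_range _)
  let w : (Fin k × Fin e) ⊕ Pt → ℕ := Sum.elim (fun u => e - u.2) fun _ => 1
  obtain ⟨E, hE0, hE⟩ := h2 ((Fin k × Fin e) ⊕ Pt) (Fin (k * e + Fintype.card Pt - N * e - 1)) w
    e.factorial T e.factorial_pos (by
      rintro (u | π)
      · exact Nat.dvd_factorial (Nat.sub_pos_of_lt u.2.2) (Nat.sub_le _ _)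
      · exact one_dvd _) hT
  obtain ⟨z, hz, hEz, hFz, hGz⟩ := h1 k P y e Pt _ s E hF hs hE0 (by
    rw [Fintype.card_fin, ← hN]; omega)
  obtain ⟨δ, hδ, hind⟩ := hE z hz hEz
  set f := cv y e fun u => z (.inl u) with hf
  obtain ⟨Q, e', h, hQ, hee, hA, hfh, hhom⟩ := h3 k e y f hy (cv_deg _ _) (cv_top _ _)
  have hFh : ∀ i, MvPolynomial.aeval h (P.F i) = 0 := by
    intro i
    have := hhom _ _ (P.homF i)
    rw [hFz i] at this
    exact (mul_eq_zero.1 this.symm).resolve_left (pow_ne_zero _ hQ.ne_zero)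
  have hprod : ∀ j, (∏ π, (X - C (z (.inr π))) ^ s π j : ℂ[X]) ≠ 0 := fun j =>
    (monic_prod_of_monic _ _ fun π _ => (monic_X_sub_C _).pow _).ne_zero
  have hGe : ∀ j, Q ^ P.d j * MvPolynomial.aeval h (P.G j) =
      C (MvPolynomial.eval y (P.G j)) * ∏ π, (X - C (z (.inr π))) ^ s π j := fun j =>
    (hhom _ _ (P.homG j)).symm.trans (hGz j)
  have hGh : ∀ j, MvPolynomial.aeval h (P.G j) ≠ 0 := by
    intro j h0
    have := hGe j
    rw [h0, mul_zero] at this
    exact mul_ne_zero (C_ne_zero.2 (hG j)) (hprod j) this.symm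
  let S : Finset ℂ := Q.roots.toFinset ∪ Finset.univ.image fun π => z (.inr π)
  have hSa : ∀ π, z (.inr π) ∈ S := fun π =>
    Finset.mem_union_right _ (Finset.mem_image_of_mem _ (Finset.mem_univ π))
  have hS1 : ∀ j a, (MvPolynomial.aeval h (P.G j)).IsRoot a → a ∈ S := by
    intro j a ha
    have h0 := congrArg (eval a) (hGe j)
    rw [eval_mul, ha.eq_zero, mul_zero, eval_mul, eval_C, eval_prod] at h0
    obtain ⟨π, -, hπ⟩ := Finset.prod_eq_zero_iff.1 ((mul_eq_zero.1 h0.symm).resolve_left (hG j))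
    rw [eval_pow, eval_sub, eval_X, eval_C] at hπ
    rw [sub_eq_zero.1 (pow_eq_zero_iff'.1 hπ).1]
    exact hSa π
  have hS2 : ∀ a, Q.IsRoot a → a ∈ S := fun a ha =>
    Finset.mem_union_left _ (Multiset.mem_toFinset.2 ((mem_roots hQ.ne_zero).2 ha))
  have key : ∀ (δ : Der) (ε : ℂ), (∀ a ∈ T, δ a = 0) → ∃ (v : Fin k → ℂ[X]) (ξ : ℂ[X]),
      (∀ l, (v l).degree < e') ∧ ξ.degree < S.card ∧ (∀ i, dP (P.F i) h v = 0) ∧
      (∀ j, MvPolynomial.aeval h (P.G j) ∣
        dP (P.G j) h v + ξ * derivative (MvPolynomial.aeval h (P.G j))) ∧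
      theta e Q h (fun π => z (.inr π)) (v, ξ) = fun u => δ (z u) + ε * (w u * z u) := by
    intro δ ε hδ
    obtain ⟨v, ξ, a1, a2, a3, a4, a5, a6⟩ := h4 k P e' h Q S δ ε hQ hA.deg
      (fun l => by rw [hA.top]; exact hδ _ (Or.inr ⟨l, rfl⟩))
      (fun i m => hδ _ (Or.inl (Or.inl (Set.mem_iUnion.2 ⟨i, m, rfl⟩))))
      (fun i m => hδ _ (Or.inl (Or.inr (Set.mem_iUnion.2 ⟨i, m, rfl⟩)))) hFh hGh hS1 hS2
    refine ⟨v, ξ, a1, a2, a3, a4, funext fun u => ?_⟩
    rcases u with u | π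
    · refine (a6 u.1 u.2).trans ?_
      rw [← hfh, ← hee, hf, cv_coeff]
      simp only [w, Sum.elim_inl, Nat.cast_sub u.2.2.le, mul_assoc]
    · refine (a5 _ (hSa π)).trans ?_
      simp [w]
  choose v ξ b1 b2 b3 b4 b5 using
    fun o : Option (Fin (k * e + Fintype.card Pt - N * e - 1)) =>
      key (o.elim 0 δ) (o.elim 1 fun _ => 0) (by
        rcases o with _ | q
        · intro a _; rfl
        · exact hδ q)
  have hli : LinearIndependent ℂ fun o => (v o, ξ o) := by
    refine LinearIndependent.of_comp (theta e Q h fun π => z (.inr π)) ?_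
    have : (theta e Q h fun π => z (.inr π)) ∘ (fun o => (v o, ξ o)) = fun o =>
        (o.elim (fun u => (w u : ℂ) * z u) fun q u => δ q (z u) : (Fin k × Fin e) ⊕ Pt → ℂ) := by
      funext o
      refine (b5 o).trans ?_
      rcases o with _ | q <;> funext u <;> simp
    rw [this]
    exact hind
  have hdim := h5 k P y e' h S _ v ξ hy hF hM hG hA hFh hS1 b1 b2 b3 b4 hli
  rw [Fintype.card_option, Fintype.card_fin, ← hN] at hdim
  have hQ1 : Q = 1 := by
    refine h6 _ Pt P.d s e e' N k (fun π => z (.inr π)) Q S hstar hQ hee (fun j => ?_) ?_ (by omega)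
    · refine (isUnit_C.2 (hG j).isUnit).dvd_mul_left.1 ?_
      rw [← hGe j]
      exact dvd_mul_right _ _
    · intro b hb
      rcases Finset.mem_union.1 hb with hb | hb
      · exact Or.inl ((mem_roots hQ.ne_zero).1 (Multiset.mem_toFinset.1 hb))
      · obtain ⟨π, -, hπ⟩ := Finset.mem_image.1 hb
        exact Or.inr ⟨π, hπ⟩
  refine ⟨f, fun π => z (.inr π), ⟨cv_deg _ _, cv_top _ _, fun a => ?_⟩, hFz, hGz⟩
  obtain ⟨l, hl⟩ := hA.prim a
  exact ⟨l, by rw [hfh, hQ1, one_mul]; exact hl⟩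

end Pool.Agent.MP_4be736_ag.H39
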