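import Pool.Agent.MP_4be736_ag.H39.Spec

/-!
Removing the common factor of the coordinates of a curve.
-/

open Polynomial

namespace Pool.Agent.MP_4be736_ag.H39

theorem sFactor : SFactor := by
  classical
  intro k e y f hy hd ht
  obtain ⟨l₀, hl₀⟩ := Function.ne_iff.1 hy
  have hf0 : f l₀ ≠ 0 := fun h => hl₀ (by rw [← ht, h, coeff_zero, Pi.zero_apply])
  have hdv : ∀ l, Finset.univ.gcd f ∣ f l := fun l => Finset.gcd_dvd (Finset.mem_univ l)
  have hQ0 : Finset.univ.gcd f ≠ 0 := ne_zero_of_dvd_ne_zero hf0 (hdv l₀)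
  have hQ : (Finset.univ.gcd f).Monic := Finset.normalize_gcd (s := Finset.univ) (f := f) ▸
    monic_normalize hQ0
  have hmax : ∀ q, (∀ l, q ∣ f l) → q ∣ Finset.univ.gcd f := fun q h =>
    Finset.dvd_gcd fun l _ => h l
  generalize Finset.univ.gcd f = Q at hdv hQ0 hQ hmax
  obtain ⟨e', rfl⟩ := Nat.exists_eq_add_of_le ((natDegree_le_of_dvd (hdv l₀) hf0).trans (hd l₀))
  choose h hh using hdv
  have hdeg : ∀ l, (h l).natDegree ≤ e' := fun l => by
    by_cases h0 : h l = 0
    · simp [h0]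
    · have := hd l
      rw [hh l, natDegree_mul hQ0 h0] at this
      omega
  refine ⟨Q, e', h, hQ, rfl, ⟨hdeg, fun l => ?_, fun a => ?_⟩, hh, fun n F hF => ?_⟩
  · rw [← ht, hh l, coeff_mul_add_eq_of_natDegree_le le_rfl (hdeg l), hQ.coeff_natDegree, one_mul]
  · by_contra hc
    push Not at hc
    have h1 := natDegree_le_of_dvd (hmax (Q * (X - C a)) fun l =>
      hh l ▸ mul_dvd_mul_left Q (dvd_iff_isRoot.2 (hc l))) hQ0
    rw [natDegree_mul hQ0 (X_sub_C_ne_zero a), natDegree_X_sub_C] at h1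
    omega
  · refine Polynomial.funext fun a => ?_
    rw [eval_mul, eval_pow, eval_aeval, eval_aeval, ← H94.eval_smul_hom hF]
    congr 2
    funext l
    rw [hh l, eval_mul]
    rfl

end Pool.Agent.MP_4be736_ag.H39
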