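import Pool.Agent.MP_4be736_ag.H39.Spec

/-!
From an affine parametrisation to a rational curve.
-/

open Polynomial

namespace Pool.Agent.MP_4be736_ag.H39

open Pool.Agent.Results.MP_4be736_ag.NotUniruled (PP RatCurve pt aff)

namespace FinAA

theorem ne10 : (![1, 0] : Fin 2 → ℂ) ≠ 0 := by
  intro h; simpa using congrFun h 0

theorem v0_ne {v : Fin 2 → ℂ} (hv : v ≠ 0) (h1 : v 1 = 0) : v 0 ≠ 0 := by
  intro h0
  apply hv
  funext l
  fin_cases l
  exacts [h0, h1]

theorem eval_inf {p : ℂ[X]} {e : ℕ} (hp : p.natDegree ≤ e) (v : Fin 2 → ℂ) (h1 : v 1 = 0) :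
    MvPolynomial.eval v (p.homogenize e) = v 0 ^ e * p.coeff e := by
  have hv : v = v 0 • ![1, 0] := by
    funext l
    fin_cases l
    · simp
    · simpa using h1
  have hh := Polynomial.isHomogeneous_homogenize (n := e) p
  have h2 := H94.deh_coeff hh
  rw [H94.deh, Polynomial.aeval_homogenize_X_one p hp] at h2
  rw [h2, ← H94.eval_smul_hom hh, ← hv]

theorem eq_inf (a : PP 2) (h1 : a.rep 1 = 0) : a = Projectivization.mk ℂ _ ne10 := by
  rw [← a.mk_rep, Projectivization.mk_eq_mk_iff']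
  refine ⟨a.rep 0, ?_⟩
  funext l
  fin_cases l
  · simp
  · simpa using h1.symm

theorem eq_aff (a : PP 2) (h1 : a.rep 1 ≠ 0) : a = aff (a.rep 0 / a.rep 1) := by
  conv_lhs => rw [← a.mk_rep]
  rw [aff, Projectivization.mk_eq_mk_iff']
  refine ⟨a.rep 1, ?_⟩
  funext l
  fin_cases l
  · simp [mul_div_cancel₀ _ h1]
  · simp

end FinAA

open FinAA in
theorem sFinA : SFinA := by
  classical
  intro k e y hy f hf ⟨s, hs0, hs⟩
  have hne : ∀ a : PP 2, (fun l => MvPolynomial.eval a.rep ((f l).homogenize e)) ≠ 0 := by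
    intro a h
    by_cases h1 : a.rep 1 = 0
    · apply hy
      funext l
      have h2 := congrFun h l
      rw [eval_inf (hf.deg l) _ h1, hf.top] at h2
      exact (mul_eq_zero.1 h2).resolve_left (pow_ne_zero _ (v0_ne a.rep_nonzero h1))
    · obtain ⟨l, hl⟩ := hf.prim (a.rep 0 / a.rep 1)
      have h2 := congrFun h l
      rw [Polynomial.eval_homogenize (hf.deg l) _ h1] at h2
      exact mul_ne_zero hl (pow_ne_zero _ h1) h2
  let c : RatCurve k :=
    { e := e
      F := fun l => (f l).homogenize e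
      homog := fun l => Polynomial.isHomogeneous_homogenize _
      ne := hne
      bir := by
        refine ⟨insert (Projectivization.mk ℂ _ ne10) (aff '' {b | s.IsRoot b}),
          ((Polynomial.finite_setOfPred_isRoot hs0).image _).insert _, ?_⟩
        have key : ∀ a : PP 2,
            a ∈ (insert (Projectivization.mk ℂ _ ne10) (aff '' {b | s.IsRoot b}) : Set (PP 2))ᶜ →
            a.rep 1 ≠ 0 ∧ s.eval (a.rep 0 / a.rep 1) ≠ 0 := by
          intro a ha
          have h1 : a.rep 1 ≠ 0 := fun h1 => ha (Or.inl (eq_inf a h1))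
          exact ⟨h1, fun h2 => ha (Or.inr ⟨_, h2, (eq_aff a h1).symm⟩)⟩
        intro a ha b hb hab
        obtain ⟨ha1, ha2⟩ := key a ha
        obtain ⟨hb1, hb2⟩ := key b hb
        obtain ⟨u, hu⟩ := (Projectivization.mk_eq_mk_iff' ℂ _ _ _ _).1 hab
        have h3 := hs _ _ (u * b.rep 1 ^ e / a.rep 1 ^ e) ha2 hb2 fun l => by
          have h4 := congrFun hu l
          simp only [Pi.smul_apply, smul_eq_mul] at h4
          rw [Polynomial.eval_homogenize (hf.deg l) _ ha1,
            Polynomial.eval_homogenize (hf.deg l) _ hb1] at h4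
          have h5 : a.rep 1 ^ e ≠ 0 := pow_ne_zero _ ha1
          field_simp
          linear_combination -h4
        rw [eq_aff a ha1, eq_aff b hb1, h3] }
  refine ⟨c, Projectivization.mk ℂ _ ne10, fun _ => rfl, ?_, fun a h1 => eq_inf a h1⟩
  obtain ⟨u, hu⟩ := Projectivization.exists_smul_eq_mk_rep ℂ _ ne10
  have h1 : (Projectivization.mk ℂ _ ne10).rep 1 = 0 := by
    rw [← hu]; simp
  rw [pt, Projectivization.mk_eq_mk_iff']
  refine ⟨(Projectivization.mk ℂ _ ne10).rep 0 ^ e, ?_⟩
  funext l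
  change _ = MvPolynomial.eval _ ((f l).homogenize e)
  rw [eval_inf (hf.deg l) _ h1, hf.top]
  simp

end Pool.Agent.MP_4be736_ag.H39
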