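import Pool.Agent.MP_4be736_ag.H39.Spec

/-!
The curve with a cheap orbifold divisor is an orbifold rational curve.
-/

open Polynomial
open scoped ENNReal

namespace Pool.Agent.MP_4be736_ag.H39

open Pool.Agent.Results.MP_4be736_ag.NotUniruled (PP RatCurve pt)
open Pool.Agent.MP_4be736_ag.H94 (eval_smul_hom)

namespace FinBA

theorem form {k e n : ℕ} {f : Fin k → ℂ[X]} {c : RatCurve k} (h1 : ∀ l, (f l).natDegree ≤ e)
    (h2 : ∀ l, c.F l = (f l).homogenize e) {H : MvPolynomial (Fin k) ℂ} (hH : H.IsHomogeneous n) :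
    MvPolynomial.aeval c.F H = (MvPolynomial.aeval f H).homogenize (n * e) := by
  refine (homogenize_eq_of_isHomogeneous ?_ ?_).symm
  · rw [mul_comm]
    exact hH.aeval _ fun l => by rw [h2]; exact isHomogeneous_homogenize _
  · rw [← AlgHom.comp_apply, MvPolynomial.comp_aeval]
    congr 2
    funext l
    rw [h2, aeval_homogenize_X_one _ (h1 l)]

theorem at_pt {k n : ℕ} (c : RatCurve k) (a : PP 2) {H : MvPolynomial (Fin k) ℂ}
    (hH : H.IsHomogeneous n) : MvPolynomial.eval (pt c a).rep H = 0 ↔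
      MvPolynomial.eval a.rep (MvPolynomial.aeval c.F H) = 0 := by
  obtain ⟨u, hu⟩ := Projectivization.exists_smul_eq_mk_rep ℂ _ (c.ne a)
  have h : MvPolynomial.eval a.rep (MvPolynomial.aeval c.F H) =
      MvPolynomial.eval (fun i => MvPolynomial.eval a.rep (c.F i)) H := by
    clear hH
    induction H using MvPolynomial.induction_on with
    | C b => simp
    | add p q hp hq => simp only [map_add, hp, hq]
    | mul_X p i hp => simp only [map_mul, hp, MvPolynomial.aeval_X, MvPolynomial.eval_X]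
  rw [pt, ← hu, Units.smul_def, eval_smul_hom hH, h, mul_eq_zero,
    or_iff_right (pow_ne_zero _ u.ne_zero)]

theorem le_mult {p : ℂ[X]} {N : ℕ} (hp : p ≠ 0) (hN : p.natDegree ≤ N) (u v : ℂ) (hv : v ≠ 0) :
    p.rootMultiplicity (u / v) ≤ multiplicity (MvPolynomial.C v * MvPolynomial.X 0 -
      MvPolynomial.C u * MvPolynomial.X 1 : MvPolynomial (Fin 2) ℂ) (p.homogenize N) := by
  obtain ⟨q, hq⟩ := pow_rootMultiplicity_dvd p (u / v)
  generalize p.rootMultiplicity (u / v) = τ at hq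
  have hq0 : q ≠ 0 := by rintro rfl; exact hp (by rw [hq, mul_zero])
  have hd : p.natDegree = τ + q.natDegree := by
    rw [hq, ((monic_X_sub_C _).pow _).natDegree_mul' hq0, natDegree_pow, natDegree_X_sub_C,
      mul_one]
  obtain ⟨M, rfl⟩ : ∃ M, N = τ + M := ⟨N - τ, by omega⟩
  refine FiniteMultiplicity.le_multiplicity_of_pow_dvd
    (FiniteMultiplicity.of_not_isUnit (fun h => ?_) (mt (homogenize_eq_zero_iff hN).1 hp))
    ⟨(C (v⁻¹ ^ τ) * q).homogenize M, homogenize_eq_of_isHomogeneous ?_ ?_⟩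
  · have := (h.map (MvPolynomial.eval ![u, v])).ne_zero
    simp [mul_comm] at this
  · have := ((MvPolynomial.isHomogeneous_C_mul_X (σ := Fin 2) v 0).sub
      (MvPolynomial.isHomogeneous_C_mul_X u 1)).pow τ
    rw [one_mul] at this
    exact this.mul (isHomogeneous_homogenize _)
  · rw [map_mul, aeval_homogenize_X_one _ ((natDegree_C_mul_le _ _).trans (by omega)), hq,
      ← mul_assoc, C_pow, map_pow, ← mul_pow]
    congr 2
    have h1 : (C v * C v⁻¹ : ℂ[X]) = 1 := by rw [← C_mul, mul_inv_cancel₀ hv, C_1]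
    simp only [map_sub, map_mul, MvPolynomial.aeval_C, MvPolynomial.aeval_X,
      Polynomial.algebraMap_eq, Matrix.cons_val_zero, Matrix.cons_val_one,
      div_eq_mul_inv]
    linear_combination X * h1

theorem eq_of_div {a b : PP 2} (ha : a.rep 1 ≠ 0) (hb : b.rep 1 ≠ 0)
    (h : a.rep 0 / a.rep 1 = b.rep 0 / b.rep 1) : a = b := by
  rw [← a.mk_rep, ← b.mk_rep, Projectivization.mk_eq_mk_iff']
  refine ⟨a.rep 1 / b.rep 1, funext fun i => ?_⟩
  rw [div_eq_div_iff ha hb] at h
  fin_cases i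
  · change a.rep 1 / b.rep 1 * b.rep 0 = a.rep 0
    field_simp
    linear_combination -h
  · exact div_mul_cancel₀ _ hb

end FinBA

open FinBA in
theorem sFinB (h : STop) : SFinB := by
  intro k e P y hy f c a₀ hf hc h0 h1 hF hG hC
  obtain ⟨S, ν, hν, hS, h2⟩ := hC
  have hd := fun j => h k _ e (P.G j) f (P.homG j) hf.deg
  have hp : ∀ j, MvPolynomial.aeval f (P.G j) ≠ 0 := fun j h3 => hG j <| by
    have := (hd j).2
    rw [h3, coeff_zero, funext hf.top] at this
    exact this.symm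
  have ha : ∀ j, MvPolynomial.eval (pt c a₀).rep (P.G j) ≠ 0 := fun j => by
    obtain ⟨u, hu⟩ := Projectivization.exists_smul_eq_mk_rep ℂ y hy
    rw [h0, ← hu, Units.smul_def, eval_smul_hom (P.homG j)]
    exact mul_ne_zero (pow_ne_zero _ u.ne_zero) (hG j)
  have hr : ∀ (a : PP 2) j, MvPolynomial.eval (pt c a).rep (P.G j) = 0 → a.rep 1 ≠ 0 ∧
      (MvPolynomial.aeval f (P.G j)).IsRoot (a.rep 0 / a.rep 1) := fun a j h3 => by
    have h4 : a.rep 1 ≠ 0 := fun h4 => ha j (h1 a h4 ▸ h3)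
    rw [at_pt c a (P.homG j), form hf.deg hc (P.homG j), eval_homogenize (hd j).1 _ h4] at h3
    exact ⟨h4, (mul_eq_zero.1 h3).resolve_right (pow_ne_zero _ h4)⟩
  refine ⟨?_, ⟨a₀, ha⟩, ?_⟩
  · rintro _ ⟨a, rfl⟩ i
    rw [at_pt c a (P.homF i), form hf.deg hc (P.homF i), hF, homogenize_zero, map_zero]
  let s : {a : PP 2 // ∃ j, MvPolynomial.eval (pt c a).rep (P.G j) = 0} → S := fun a =>
    ⟨a.1.rep 0 / a.1.rep 1, a.2.elim fun j hj => (hS j _ (hr _ j hj).2).1⟩
  have hs : Function.Injective s := fun a b hab => Subtype.ext <|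
    eq_of_div (a.2.elim fun j hj => (hr _ j hj).1) (b.2.elim fun j hj => (hr _ j hj).1)
      (congrArg Subtype.val hab)
  refine lt_of_le_of_lt ((ENNReal.tsum_le_tsum fun a => ?_).trans
    (ENNReal.tsum_comp_le_tsum_of_injective hs fun b => ENNReal.ofReal (1 - ν b))) ?_
  · have h3 : ENNReal.ofReal (ν (s a)) ≤ (mOrb P c a)⁻¹ := by
      rw [ENNReal.le_inv_iff_le_inv]
      refine max_le (ENNReal.one_le_inv.2 (ENNReal.ofReal_le_one.2 (hν _ (s a).2)))
        (iSup₂_le fun j hj => ?_)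
      have h4 : (P.m j : ℝ≥0∞) ≠ 0 := by
        have := P.two_le j
        intro h5
        rw [ENat.toENNReal_eq_zero] at h5
        simp [h5] at this
      rw [← ENNReal.le_inv_iff_le_inv, ENNReal.inv_div (.inl (ENNReal.natCast_ne_top _)) (.inr h4),
        div_eq_mul_inv]
      refine (ENNReal.ofReal_le_ofReal (hS j _ (hr _ j hj).2).2).trans ?_
      simp only [im]
      rw [ENNReal.ofReal_mul (Nat.cast_nonneg _), ENNReal.ofReal_natCast,
        ENNReal.ofReal_toReal (ENNReal.inv_ne_top.2 h4), ordAt, form hf.deg hc (P.homG j)]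
      exact mul_le_mul_left (Nat.cast_le.2 (le_mult (hp j) (hd j).1 _ _ (hr _ j hj).1)) _
    refine (tsub_le_tsub_left h3 1).trans (tsub_le_iff_right.2 (le_trans ?_ ENNReal.ofReal_add_le))
    rw [sub_add_cancel, ENNReal.ofReal_one]
  · rw [Finset.tsum_subtype S fun b => ENNReal.ofReal (1 - ν b),
      ← ENNReal.ofReal_sum_of_nonneg fun b hb => sub_nonneg.2 (hν b hb)]
    exact ENNReal.ofReal_lt_ofNat.2 h2

end Pool.Agent.MP_4be736_ag.H39
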