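import Pool.Agent.MP_4be736_ag.H39.Spec

/-!
A frame adapted to independent linear forms.
-/

namespace Pool.Agent.MP_4be736_ag.H39

theorem sFrame : SFrame := by
  intro k c φ hφ
  classical
  let f : (Fin k → ℂ) →ₗ[ℂ] (Fin c → ℂ) := (Matrix.of φ).mulVecLin
  have hr : Module.finrank ℂ (LinearMap.range f) = c := by
    have := LinearIndependent.rank_matrix (M := Matrix.of φ) hφ
    rwa [Fintype.card_fin] at this
  have hs : LinearMap.range f = ⊤ := Submodule.eq_top_of_finrank_eq (by simpa using hr)
  obtain ⟨g, hg⟩ := f.exists_rightInverse_of_surjective hs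
  let b := Module.finBasis ℂ (LinearMap.ker f)
  have hn : Module.finrank ℂ (LinearMap.ker f) + c = k := by
    have := f.finrank_range_add_finrank_ker
    rw [hr, Module.finrank_fin_fun] at this
    omega
  have hv : LinearIndependent ℂ fun m => (b m : Fin k → ℂ) :=
    b.linearIndependent.map' (LinearMap.ker f).subtype (Submodule.ker_subtype _)
  have h1 : ∀ m i, ∑ l, φ i l * (b m : Fin k → ℂ) l = 0 := fun m i =>
    congrFun (LinearMap.mem_ker.1 (b m).2) i
  have h2 : ∀ i i', ∑ l, φ i l * g (Pi.single i' 1) l = if i = i' then 1 else 0 := fun i i' =>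
    (congrFun (LinearMap.congr_fun hg (Pi.single i' 1)) i).trans (Pi.single_apply _ _ _)
  have ε : Option (Fin k) ≃ Option (Fin (Module.finrank ℂ (LinearMap.ker f))) ⊕ Fin c :=
    Fintype.equivOfCardEq (by simp; omega)
  refine ⟨_, fun m => b m, fun i => g (Pi.single i 1), ε, hn, hv, h1, h2, fun h => ?_⟩
  obtain ⟨x, hx, h0⟩ := Matrix.exists_mulVec_eq_zero_iff.2 h
  have h3 : ∀ l : Option (Fin k), x (ε.symm (.inl none)) * l.elim 1 (fun _ => 0) +
      ∑ m, x (ε.symm (.inl (some m))) * l.elim 0 (b m : Fin k → ℂ) +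
      ∑ i, x (ε.symm (.inr i)) * l.elim 0 (g (Pi.single i 1)) = 0 := fun l => by
    have := congrFun h0 l
    rw [Matrix.mulVec, dotProduct, ← ε.symm.sum_comp] at this
    simp only [Fintype.sum_sum_type, Fintype.sum_option, Matrix.of_apply, Equiv.apply_symm_apply,
      Sum.elim_inl, Sum.elim_inr, Option.elim_none, Option.elim_some, Pi.zero_apply] at this
    simpa only [mul_comm (x _)] using this
  have h4 : x (ε.symm (.inl none)) = 0 := by simpa using h3 none
  have h5 : ∀ i, x (ε.symm (.inr i)) = 0 := fun i => by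
    have h6 : ∑ l, φ i l * (∑ m, x (ε.symm (.inl (some m))) * (b m : Fin k → ℂ) l +
        ∑ i, x (ε.symm (.inr i)) * g (Pi.single i 1) l) = 0 :=
      Finset.sum_eq_zero fun l _ => mul_eq_zero_of_right _ (by simpa using h3 (some l))
    simp only [mul_add, Finset.sum_add_distrib, Finset.mul_sum, mul_left_comm (φ i _)] at h6
    rw [Finset.sum_comm, Finset.sum_comm (s := Finset.univ (α := Fin k))] at h6
    simpa [← Finset.mul_sum, h1, h2] using h6
  have h7 := Fintype.linearIndependent_iff.1 hv (fun m => x (ε.symm (.inl (some m))))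
    (funext fun l => by simpa [h5, Finset.sum_apply] using h3 (some l))
  refine hx (funext fun l => ?_)
  obtain ⟨y, rfl⟩ := ε.symm.surjective l
  rcases y with (_ | m) | i
  exacts [h4, h7 m, h5 i]

end Pool.Agent.MP_4be736_ag.H39
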