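import Pool.Agent.MP_4be736_ag.H39.Spec

/-!
A very general point moves in every tangent direction.
-/

open MvPolynomial

namespace Pool.Agent.MP_4be736_ag.H39

open Pool.Agent.Results.MP_4be736_ag.NotUniruled (PP)

namespace GenA

theorem ev_map {k : ℕ} {K : Subfield ℂ} (y : Fin k → ℂ) (g : MvPolynomial (Fin k) K) :
    eval y (map (algebraMap K ℂ) g) = aeval y g := by
  rw [eval_map, aeval_def]

theorem cnt {k : ℕ} (R : Type) [CommSemiring R] [Countable R] :
    Countable (MvPolynomial (Fin k) R) :=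
  Function.Injective.countable (f := fun g : MvPolynomial (Fin k) R =>
    (⟨g.support, fun m => coeff m g, fun _ => mem_support_iff⟩ : (Fin k →₀ ℕ) →₀ R))
    fun _ _ h => MvPolynomial.ext _ _ fun m => DFunLike.congr_fun h m

theorem field {k : ℕ} (P : CIPair k) : ∃ K : Subfield ℂ, (K : Set ℂ).Countable ∧
    (∀ i m, coeff m (P.F i) ∈ K) ∧ ∀ j m, coeff m (P.G j) ∈ K := by
  refine ⟨Subfield.closure (Set.range (fun x : _ × _ => coeff x.2 (P.F x.1)) ∪
    Set.range fun x : _ × _ => coeff x.2 (P.G x.1)), ?_,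
    fun i m => Subfield.subset_closure (Or.inl ⟨(i, m), rfl⟩),
    fun j m => Subfield.subset_closure (Or.inr ⟨(j, m), rfl⟩)⟩
  exact Cardinal.mk_le_aleph0_iff.1 ((Subfield.cardinalMk_closure_le_max _).trans
    (max_le (Cardinal.le_aleph0_iff_set_countable.2
      ((Set.countable_range _).union (Set.countable_range _))) le_rfl))

theorem ev_rep {k n : ℕ} {q : MvPolynomial (Fin k) ℂ} (hq : q.IsHomogeneous n) {y : Fin k → ℂ}
    (hy : y ≠ 0) : eval (Projectivization.mk ℂ y hy).rep q = 0 ↔ eval y q = 0 := by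
  obtain ⟨a, ha⟩ := Projectivization.exists_smul_eq_mk_rep ℂ y hy
  rw [← ha, Units.smul_def, H94.eval_smul_hom hq, mul_eq_zero,
    or_iff_right (pow_ne_zero _ a.ne_zero)]

end GenA

theorem sGen (h1 : SDerExt) (h2 : STang) (h3 : SScale) : SGen := by
  intro k P
  obtain ⟨K, hK, hF, hG⟩ := GenA.field P
  have : Countable K := hK
  have := GenA.cnt (k := k) K
  let Z : MvPolynomial (Fin k) K → Set (PP k) := fun g =>
    {x | ∀ q ∈ insert (map (algebraMap K ℂ) g) (Set.range P.F), eval x.rep q = 0}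
  have hZ : ∀ g x, x ∈ Z g ↔ aeval x.rep g = 0 ∧ x ∈ P.X := fun g x => by
    simp only [Z, Set.mem_ofPred_eq, Set.forall_mem_insert, Set.forall_mem_range, GenA.ev_map,
      CIPair.X]
  refine ⟨Z '' {g | (∃ n, g.IsHomogeneous n) ∧ Z g ≠ P.X}, (Set.to_countable _).image _, ?_,
    fun x hx hZx => ?_⟩
  · rintro _ ⟨g, ⟨⟨n, hn⟩, hne⟩, rfl⟩
    refine ⟨ssubset_iff_subset_ne.2 ⟨fun x hx => ((hZ g x).1 hx).2, hne⟩, _, ?_, rfl⟩
    rintro q (rfl | ⟨i, rfl⟩)
    · exact ⟨n, hn.map _⟩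
    · exact ⟨_, P.homF i⟩
  obtain ⟨t, ht, hs⟩ := h3 k K x.rep hK
  have hy : t • x.rep ≠ 0 := smul_ne_zero ht x.rep_nonzero
  have hy0 : ∀ i, eval (t • x.rep) (P.F i) = 0 := fun i => by
    rw [H94.eval_smul_hom (P.homF i), hx i, mul_zero]
  refine ⟨t • x.rep, hy, ?_, hy0, fun v hv => ?_⟩
  · exact ((Projectivization.mk_eq_mk_iff' ℂ _ _ hy x.rep_nonzero).2 ⟨t, rfl⟩).trans x.mk_rep
  obtain ⟨δ, d1, d2⟩ := h1 K (Fin k) (t • x.rep) v fun g hg => by
    have k1 := h2 k P.c P.F (map (algebraMap K ℂ) g) (t • x.rep) v hy hy0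
      ((P.snc _ hy hy0).comp Sum.inl Sum.inl_injective) (fun y hy' hy1 => ?_) hv
    · simpa only [grad, pderiv_map, GenA.ev_map] using k1
    rw [← sum_homogeneousComponent g, map_sum, map_sum]
    refine Finset.sum_eq_zero fun n _ => ?_
    have k2 := homogeneousComponent_isHomogeneous n g
    have k3 : Z (homogeneousComponent n g) = P.X := by
      by_contra hne
      exact hZx _ ⟨_, ⟨⟨n, k2⟩, hne⟩, rfl⟩ ((hZ _ x).2 ⟨hs g hg n, hx⟩)
    have k4 : Projectivization.mk ℂ y hy' ∈ Z (homogeneousComponent n g) := by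
      rw [k3]
      exact fun i => (GenA.ev_rep (P.homF i) hy').2 (hy1 i)
    exact (GenA.ev_rep (k2.map _) hy').1 (k4 _ (Set.mem_insert _ _))
  exact ⟨δ, fun i m => d1 _ (hF i m), fun j m => d1 _ (hG j m), d2⟩

end Pool.Agent.MP_4be736_ag.H39
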