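import Pool.Agent.MP_4be736_ag.H39.Spec

/-! Generic equations and independent derivations. -/

namespace Pool.Agent.MP_4be736_ag.H39

namespace IndepA

open KaehlerDifferential Module

theorem kaehler_basis {F L ι : Type*} [Field F] [CharZero F] [Field L] [Algebra F L] {v : ι → L}
    (hv : IsTranscendenceBasis F v) :
    ∃ b : Basis ι L Ω[L⁄F], ∀ i, b i = D F L (v i) := by
  let S := MvPolynomial ι F
  let _ : Algebra S L := (MvPolynomial.aeval v : S →ₐ[F] L).toRingHom.toAlgebra
  have _ : IsScalarTower F S L := .of_algebraMap_eq fun a => by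
    change _ = MvPolynomial.aeval v (MvPolynomial.C a)
    simp
  let E := IntermediateField.adjoin F (Set.range v)
  let e := hv.1.aevalEquivField
  let _ : Algebra S E := (e.toAlgHom.toRingHom.comp (algebraMap S (FractionRing S))).toAlgebra
  have _ : IsScalarTower S E L := .of_algebraMap_eq fun a =>
    (hv.1.aevalEquivField_algebraMap_apply_coe a).symm
  have h1 : Algebra.FormallyEtale S (FractionRing S) :=
    Algebra.FormallyEtale.of_isLocalization (nonZeroDivisors S)
  let e' : FractionRing S ≃ₐ[S] E := { e.toRingEquiv with commutes' := fun _ => rfl }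
  have h2 : Algebra.FormallyEtale S E := Algebra.FormallyEtale.of_equiv e'
  have _ : Algebra.IsAlgebraic E L := hv.isAlgebraic_field
  have _ : CharZero E := algebraRat.charZero _
  have h3 : Algebra.FormallyEtale E L := Algebra.FormallyEtale.of_isSeparable E L
  have h4 : Algebra.FormallyEtale S L := Algebra.FormallyEtale.comp S E L
  refine ⟨((mvPolynomialBasis F ι).baseChange L).map (tensorKaehlerEquivOfFormallyEtale F S L),
    fun i => ?_⟩
  rw [Basis.map_apply, Basis.baseChange_apply, mvPolynomialBasis_apply,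
    tensorKaehlerEquivOfFormallyEtale_apply, mapBaseChange_tmul, one_smul, map_D]
  congr 1
  exact MvPolynomial.aeval_X v i

theorem der_exists {F L ι M : Type*} [Field F] [CharZero F] [Field L] [Algebra F L] {v : ι → L}
    [AddCommGroup M] [Module L M] [Module F M] [IsScalarTower F L M]
    (hv : IsTranscendenceBasis F v) (w : ι → M) :
    ∃ E : Derivation F L M, ∀ i, E (v i) = w i := by
  obtain ⟨b, hb⟩ := kaehler_basis hv
  refine ⟨(b.constr L w).compDer (D F L), fun i => ?_⟩
  change b.constr L w (D F L (v i)) = _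
  rw [← hb, Basis.constr_basis]

end IndepA

open Cardinal in
theorem sFree : SFree := by
  intro I _ T hT
  classical
  let K : Subfield ℂ := Subfield.closure T
  have hK : #K ≤ ℵ₀ :=
    (Subfield.cardinalMk_closure_le_max T).trans
      (max_le (Cardinal.le_aleph0_iff_set_countable.mpr hT) le_rfl)
  obtain ⟨s, hs⟩ := exists_isTranscendenceBasis K ℂ
  have hinf : Infinite s := by
    by_contra hfin
    rw [not_infinite_iff_finite] at hfin
    have h1 := IsAlgClosed.cardinal_le_max_transcendence_basis' _ hs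
    have h2 : #s ≤ ℵ₀ := (Cardinal.lt_aleph0_of_finite s).le
    have h3 : #ℂ ≤ ℵ₀ := h1.trans (max_le (max_le hK h2) le_rfl)
    rw [Cardinal.mk_complex] at h3
    exact absurd h3 (not_le.mpr Cardinal.aleph0_lt_continuum)
  obtain ⟨e⟩ : Nonempty (I ↪ s) :=
    ⟨(Fintype.equivFin I).toEmbedding.trans (Fin.valEmbedding.trans (Infinite.natEmbedding s))⟩
  refine ⟨fun i => e i, fun γ => ?_⟩
  obtain ⟨E, hE⟩ := IndepA.der_exists hs (Function.extend e γ (0 : s → ℂ))
  refine ⟨E.restrictScalars ℤ, fun a ha => ?_, fun i => ?_⟩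
  · exact E.map_algebraMap ⟨a, Subfield.subset_closure ha⟩
  · rw [Derivation.restrictScalars_apply, hE, e.injective.extend_apply]

theorem sIndep (h : SFree) : SIndep := by
  intro U I _ _ w M T hM hw hT
  classical
  obtain ⟨c, hc⟩ := h (I × U) T hT
  choose n hn using hw
  have hn0 : ∀ u, n u ≠ 0 := fun u h0 => by
    have := hn u
    rw [h0] at this
    omega
  have hw0 : ∀ u, w u ≠ 0 := fun u h0 => by
    have := hn u
    rw [h0] at this
    omega
  refine ⟨fun q => ∑ u, MvPolynomial.C (c (q, u)) * MvPolynomial.X u ^ n u, fun q => ?_,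
    fun z hz hE => ?_⟩
  · simp [hn0]
  obtain ⟨u₀, hu₀⟩ : ∃ u, z u ≠ 0 := Function.ne_iff.mp hz
  have hE' : ∀ q, ∑ u, c (q, u) * z u ^ n u = 0 := fun q => by simpa using hE q
  choose δ hδT hδ using fun q : I =>
    hc fun p => if p = (q, u₀) then -(z u₀ ^ n u₀)⁻¹ else 0
  let L : I → (U → ℂ) →ₗ[ℂ] ℂ := fun q =>
    ∑ u, (c (q, u) * n u * z u ^ (n u - 1)) • LinearMap.proj u
  have hL : ∀ q ζ, L q ζ = ∑ u, c (q, u) * n u * z u ^ (n u - 1) * ζ u := fun q ζ => by
    simp [L, LinearMap.sum_apply]
  have h1 : ∀ q, L q (fun u => (w u : ℂ) * z u) = 0 := fun q => by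
    rw [hL]
    have : ∀ u, c (q, u) * n u * z u ^ (n u - 1) * ((w u : ℂ) * z u) =
        M * (c (q, u) * z u ^ n u) := fun u => by
      obtain ⟨m, hm⟩ := Nat.exists_eq_succ_of_ne_zero (hn0 u)
      rw [hn u, hm]
      push_cast
      simp only [Nat.succ_eq_add_one]
      ring
    simp only [this, ← Finset.mul_sum, hE', mul_zero]
  have h2 : ∀ q q', L q' (fun u => δ q (z u)) = if q' = q then 1 else 0 := fun q q' => by
    have h3 := congrArg (δ q) (hE' q')
    simp only [map_sum, Derivation.leibniz, Derivation.leibniz_pow, hδ, smul_eq_mul, map_zero,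
      Finset.sum_add_distrib, nsmul_eq_mul, Prod.mk.injEq] at h3
    have h4 : ∑ u, z u ^ n u * (if q' = q ∧ u = u₀ then -(z u₀ ^ n u₀)⁻¹ else 0) =
        -if q' = q then 1 else 0 := by
      rw [Finset.sum_eq_single u₀]
      · have := pow_ne_zero (n u₀) hu₀
        split_ifs with ha hb hb
        · field_simp
        · exact absurd ha.1 hb
        · exact absurd ⟨hb, rfl⟩ ha
        · simp
      · intro u _ hu
        simp [hu]
      · simp
    rw [h4] at h3
    rw [hL, ← add_neg_eq_zero.mp h3]
    exact Finset.sum_congr rfl fun u _ => by ring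
  refine ⟨δ, hδT, Fintype.linearIndependent_iff.mpr fun g hg => ?_⟩
  rw [Fintype.sum_option] at hg
  simp only [Option.elim_none, Option.elim_some] at hg
  have h5 : ∀ q, g (some q) = 0 := fun q => by
    have := congrArg (L q) hg
    simpa [map_sum, h1, h2] using this
  have h6 : g none = 0 := by
    have := congrFun hg u₀
    simpa [h5, hw0, hu₀] using this
  rintro (_ | q)
  · exact h6
  · exact h5 q

end Pool.Agent.MP_4be736_ag.H39
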