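import Pool.Agent.MP_4be736_ag.H39.Spec

/-!
Fewer equations than unknowns (after the file of helper62 for another problem).
-/

open MvPolynomial

namespace Pool.Agent.MP_4be736_ag.H39

namespace KrullA

variable {σ : Type} [Fintype σ]

/-- Translation of the variables. -/
noncomputable def transl (a : σ → ℂ) : MvPolynomial σ ℂ ≃ₐ[ℂ] MvPolynomial σ ℂ :=
  AlgEquiv.ofAlgHom (aeval fun i => X i + C (a i)) (aeval fun i => X i - C (a i))
    (by ext i; simp) (by ext i; simp)

theorem height_origin :
    (vanishingIdeal ℂ {(0 : σ → ℂ)}).height = (Fintype.card σ : ℕ∞) := by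
  have hdim : ringKrullDim (MvPolynomial σ ℂ) = (Fintype.card σ : ℕ) := by
    rw [MvPolynomial.ringKrullDim_of_isNoetherianRing, ringKrullDim_eq_zero_of_field,
      Nat.card_eq_fintype_card, zero_add]
  have : FiniteRingKrullDim (MvPolynomial σ ℂ) := by
    rw [finiteRingKrullDim_iff_ne_bot_and_top, hdim]
    exact ⟨WithBot.coe_ne_bot, by
      intro h
      exact (ENat.natCast_ne_top (Fintype.card σ)) (WithBot.coe_injective h)⟩
  obtain ⟨p, hp, hh⟩ := Ideal.exists_isMaximal_height (R := MvPolynomial σ ℂ)
  obtain ⟨a, rfl⟩ := isMaximal_iff_eq_vanishingIdeal_singleton.1 hp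
  have he : vanishingIdeal ℂ {a} =
      (vanishingIdeal ℂ {(0 : σ → ℂ)}).comap (transl a).toRingEquiv := by
    ext f
    rw [Ideal.mem_comap, mem_vanishingIdeal_singleton_iff, mem_vanishingIdeal_singleton_iff]
    have : (aeval (0 : σ → ℂ)).comp (transl a).toAlgHom = aeval a := by
      ext i; simp [transl]
    rw [← this]; rfl
  rw [he, RingEquiv.height_comap, hdim] at hh
  exact WithBot.coe_injective hh

end KrullA

theorem sKrull : SKrull := by
  intro σ ι _ _ f h0 hc
  classical
  by_contra hno
  push Not at hno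
  set s : Finset (MvPolynomial σ ℂ) := Finset.univ.image f
  have hz : zeroLocus ℂ (Ideal.span (s : Set (MvPolynomial σ ℂ))) = {0} := by
    rw [zeroLocus_span]
    ext x
    simp only [Set.mem_ofPred_eq, Set.mem_singleton_iff]
    constructor
    · intro hx
      by_contra hx0
      obtain ⟨l, hl⟩ := hno x hx0
      exact hl (hx _ (by simp [s]))
    · rintro rfl p hp
      simp only [s, Finset.coe_image, Finset.coe_univ, Set.image_univ, Set.mem_range] at hp
      obtain ⟨l, rfl⟩ := hp
      exact h0 l
  have hr := vanishingIdeal_zeroLocus_eq_radical (K := ℂ) (Ideal.span (s : Set (MvPolynomial σ ℂ)))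
  rw [hz] at hr
  have hm : vanishingIdeal ℂ {(0 : σ → ℂ)} ∈
      (Ideal.span (s : Set (MvPolynomial σ ℂ))).minimalPrimes := by
    rw [← Ideal.radical_minimalPrimes, ← hr, Ideal.minimalPrimes_eq_subsingleton_self]
    rfl
  have h1 := Ideal.height_le_card_of_mem_minimalPrimes_span_finset hm
  rw [KrullA.height_origin] at h1
  have h2 : s.card ≤ Fintype.card ι := Finset.card_image_le.trans (by simp)
  have h3 : Fintype.card σ ≤ s.card := by exact_mod_cast h1
  omega

end Pool.Agent.MP_4be736_ag.H39
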