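import Pool.Agent.MP_4be736_ag.H39.Spec

/-!
The index of a sublattice is the degree of the determinant.
-/

open Polynomial

namespace Pool.Agent.MP_4be736_ag.H39

namespace LatticeA

theorem core {M N I : Type} [AddCommGroup M] [Module ℂ[X] M] [Module ℂ M]
    [IsScalarTower ℂ ℂ[X] M] [Module.Free ℂ[X] M] [Module.Finite ℂ[X] M] [Fintype N]
    [DecidableEq N] [Fintype I] (s : N → M) (h : ℂ[X]) (v : I → M)
    (hs : LinearIndependent ℂ[X] s) (h0 : h ≠ 0)
    (hh : ∀ x, h • x ∈ Submodule.span ℂ[X] (Set.range s))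
    (hv : ∀ c : I → ℂ, ∑ i, c i • v i ∈ Submodule.span ℂ[X] (Set.range s) → c = 0) :
    ∃ (u : N → M) (A : Matrix N N ℂ[X]), (∀ n, s n = ∑ m, A n m • u m) ∧
      Fintype.card I ≤ A.det.natDegree := by
  set L := Submodule.span ℂ[X] (Set.range s) with hL
  have r1 : Module.finrank ℂ[X] L = Module.finrank ℂ[X] M := by
    refine le_antisymm L.finrank_le
      (((LinearMap.lsmul ℂ[X] M h).codRestrict L hh).finrank_le_finrank_of_injective ?_)
    intro x y e
    exact smul_right_injective M h0 (congrArg Subtype.val e)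
  have r2 : Module.finrank ℂ[X] M = Fintype.card N := r1.symm.trans (finrank_span_eq_card hs)
  obtain ⟨b, a, ab, hab⟩ := L.exists_smith_normal_form_of_rank_eq
    ((Module.finBasisOfFinrankEq ℂ[X] M r2).reindex (Fintype.equivFin N).symm) r1
  have ha : ∀ n, a n ≠ 0 := fun n e => ab.ne_zero n (Subtype.ext (by rw [hab, e, zero_smul]; rfl))
  let bs := Module.Basis.span hs
  refine ⟨b, Matrix.of fun n m => a m * (ab.toMatrix bs).transpose n m, fun n => ?_, ?_⟩
  · have e := congrArg Subtype.val (ab.sum_repr (bs n))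
    rw [Module.Basis.coe_span_apply] at e
    rw [← e, AddSubmonoidClass.coe_finsetSum]
    refine Finset.sum_congr rfl fun m _ => ?_
    rw [Submodule.coe_smul, hab, smul_smul, mul_comm]
    rfl
  · have hu : IsUnit (ab.toMatrix bs).det := ab.isUnit_det bs
    rw [Matrix.det_mul_row, Matrix.det_transpose,
      natDegree_mul (Finset.prod_ne_zero_iff.2 fun n _ => ha n) hu.ne_zero,
      natDegree_eq_zero_of_isUnit hu, add_zero, natDegree_prod _ _ fun n _ => ha n]
    have : ∀ n, Module.Finite ℂ (ℂ[X] ⧸ Ideal.span {a n}) := fun n =>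
      (AdjoinRoot.powerBasis (ha n)).finite
    let T : (I → ℂ) →ₗ[ℂ] (∀ n, ℂ[X] ⧸ Ideal.span {a n}) := LinearMap.pi fun n =>
      (Ideal.Quotient.mkₐ ℂ (Ideal.span {a n})).toLinearMap ∘ₗ
        ((b.coord n).restrictScalars ℂ ∘ₗ Fintype.linearCombination ℂ v)
    have hT : Function.Injective T := by
      rw [injective_iff_map_eq_zero]
      intro c hc
      refine hv c ?_
      have h1 : ∀ n, a n ∣ b.repr (∑ i, c i • v i) n := fun n =>
        Ideal.mem_span_singleton.1 (Ideal.Quotient.eq_zero_iff_mem.1 (congrFun hc n))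
      choose q hq using h1
      rw [← b.sum_repr (∑ i, c i • v i)]
      refine L.sum_mem fun n _ => ?_
      rw [hq, mul_comm, ← smul_smul, ← hab]
      exact L.smul_mem _ (ab n).2
    have := T.finrank_le_finrank_of_injective hT
    rw [Module.finrank_fintype_fun_eq_card, Module.finrank_pi_fintype] at this
    simpa only [finrank_quotient_span_eq_natDegree] using this

end LatticeA

theorem sLattice : SLattice := by
  intro K N I _ _ _ _ Λ s h v hs hli h0 hh hv hc
  have key : ∀ x : Λ, x ∈ Submodule.span ℂ[X] (Set.range fun n => (⟨s n, hs n⟩ : Λ)) ↔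
      (x : K → ℂ[X]) ∈ Submodule.span ℂ[X] (Set.range s) := fun x => by
    have : Set.range s = Λ.subtype '' Set.range fun n => (⟨s n, hs n⟩ : Λ) := by
      rw [← Set.range_comp]; rfl
    rw [this, ← Submodule.map_span]
    exact ⟨fun h => ⟨x, h, rfl⟩, fun ⟨y, h, e⟩ => Subtype.ext e ▸ h⟩
  obtain ⟨u, A, h1, h2⟩ := LatticeA.core (M := Λ) (fun n => ⟨s n, hs n⟩) h (fun i => ⟨v i, hv i⟩)
    (LinearIndependent.of_comp Λ.subtype hli) h0 (fun x => (key _).2 (hh x x.2))
    fun c hc' => hc c (by simpa using (key _).1 hc')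
  refine ⟨fun n => u n, A, fun n => (u n).2, fun n => ?_, h2⟩
  simpa using congrArg Subtype.val (h1 n)

end Pool.Agent.MP_4be736_ag.H39
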