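import Pool.Agent.MP_4be736_ag.H39.Spec

/-!
Injectivity off a finite set, and a normalised generator of an intermediate field.
-/

open Polynomial
open scoped IntermediateField

namespace Pool.Agent.MP_4be736_ag.H39

namespace LurAA

/-- `z` is a quotient of polynomials that takes equal values at points with the same image. -/
def Inv {k : ℕ} (f : Fin k → ℂ[X]) (z : RatFunc ℂ) : Prop :=
  ∃ r s : ℂ[X], s ≠ 0 ∧ z = algebraMap ℂ[X] (RatFunc ℂ) r / algebraMap ℂ[X] (RatFunc ℂ) s ∧
    ∀ β β' u : ℂ, (∀ l, (f l).eval β = u * (f l).eval β') →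
      r.eval β * s.eval β' = r.eval β' * s.eval β

theorem am_ne {s : ℂ[X]} (hs : s ≠ 0) : algebraMap ℂ[X] (RatFunc ℂ) s ≠ 0 :=
  (map_ne_zero_iff _ (IsFractionRing.injective ℂ[X] (RatFunc ℂ))).2 hs

theorem inv_of_mem {k : ℕ} (f : Fin k → ℂ[X]) (l₀ : Fin k) (h0 : f l₀ ≠ 0) (z : RatFunc ℂ)
    (hz : z ∈ IntermediateField.adjoin ℂ (Set.range fun l =>
      algebraMap ℂ[X] (RatFunc ℂ) (f l) / algebraMap ℂ[X] (RatFunc ℂ) (f l₀))) : Inv f z := by
  induction hz using IntermediateField.adjoin_induction with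
  | mem x hx =>
    obtain ⟨l, rfl⟩ := hx
    refine ⟨f l, f l₀, h0, rfl, fun β β' u h => ?_⟩
    rw [h l, h l₀]; ring
  | algebraMap c =>
    refine ⟨C c, 1, one_ne_zero, ?_, fun β β' u _ => by simp⟩
    rw [map_one, div_one, RatFunc.algebraMap_C]; rfl
  | add x y _ _ hx hy =>
    obtain ⟨r, s, hs, rfl, h⟩ := hx
    obtain ⟨r', s', hs', rfl, h'⟩ := hy
    refine ⟨r * s' + s * r', s * s', mul_ne_zero hs hs', ?_, fun β β' u hu => ?_⟩
    · rw [div_add_div _ _ (am_ne hs) (am_ne hs')]; simp only [map_add, map_mul]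
    · simp only [eval_add, eval_mul]
      linear_combination s'.eval β * s'.eval β' * h β β' u hu +
        s.eval β * s.eval β' * h' β β' u hu
  | inv x _ hx =>
    obtain ⟨r, s, hs, rfl, h⟩ := hx
    by_cases hr : r = 0
    · subst hr
      exact ⟨0, s, hs, by simp, h⟩
    · exact ⟨s, r, hr, inv_div _ _, fun β β' u hu => by linear_combination - h β β' u hu⟩
  | mul x y _ _ hx hy =>
    obtain ⟨r, s, hs, rfl, h⟩ := hx
    obtain ⟨r', s', hs', rfl, h'⟩ := hy
    refine ⟨r * r', s * s', mul_ne_zero hs hs', ?_, fun β β' u hu => ?_⟩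
    · rw [div_mul_div_comm]; simp only [map_mul]
    · simp only [eval_mul]
      linear_combination r'.eval β * s'.eval β' * h β β' u hu +
        r.eval β' * s.eval β * h' β β' u hu

theorem adjoin_shift (p : RatFunc ℂ) (c : ℂ) :
    ℂ⟮p⟯ = ℂ⟮(p - algebraMap ℂ (RatFunc ℂ) c)⁻¹⟯ := by
  apply le_antisymm
  · rw [IntermediateField.adjoin_simple_le_iff]
    have h := IntermediateField.mem_adjoin_simple_self ℂ (p - algebraMap ℂ (RatFunc ℂ) c)⁻¹
    have h2 := add_mem (inv_mem h) (IntermediateField.algebraMap_mem _ c)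
    rwa [inv_inv, sub_add_cancel] at h2
  · rw [IntermediateField.adjoin_simple_le_iff]
    exact inv_mem (sub_mem (IntermediateField.mem_adjoin_simple_self ℂ p)
      (IntermediateField.algebraMap_mem _ c))

end LurAA

open LurAA

theorem sLurA : SLurA := by
  intro k f l₀ h0 hX
  obtain ⟨r, s, hs, hr, h⟩ := inv_of_mem f l₀ h0 _ hX
  have hrs : r = X * s := by
    apply IsFractionRing.injective ℂ[X] (RatFunc ℂ)
    rw [map_mul, RatFunc.algebraMap_X, hr, div_mul_cancel₀ _ (am_ne hs)]
  refine ⟨s, hs, fun β β' u hβ hβ' hu => ?_⟩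
  have := h β β' u hu
  rw [hrs] at this
  simp only [eval_mul, eval_X] at this
  apply mul_right_cancel₀ (mul_ne_zero hβ hβ')
  linear_combination this

theorem sLurB : SLurB := by
  intro E hE
  have hp := RatFunc.Luroth.eq_adjoin_generator (E := E)
  have hnc := RatFunc.Luroth.generator_ne_C hE
  set p := RatFunc.Luroth.generator E with hpdef
  have hnd := RatFunc.num_div_denom p
  have hd0 := RatFunc.denom_ne_zero p
  have hdm := RatFunc.monic_denom p
  have hco := RatFunc.isCoprime_num_denom p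
  by_cases hlt : p.denom.natDegree < p.num.natDegree
  · have hn0 : p.num ≠ 0 := by
      rintro h; rw [h] at hlt; simp at hlt
    have hc : p.num.leadingCoeff⁻¹ ≠ 0 := inv_ne_zero (leadingCoeff_ne_zero.2 hn0)
    have hu : IsUnit (C p.num.leadingCoeff⁻¹) := isUnit_C.2 hc.isUnit
    refine ⟨p.num * C p.num.leadingCoeff⁻¹, p.denom * C p.num.leadingCoeff⁻¹,
      monic_mul_leadingCoeff_inv hn0, mul_ne_zero hd0 hu.ne_zero, ?_, ?_, ?_⟩
    · rwa [natDegree_mul_C hc, natDegree_mul_C hc]
    · exact (isCoprime_mul_unit_right hu _ _).2 hco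
    · rw [map_mul, map_mul, mul_div_mul_right _ _ (am_ne hu.ne_zero), hnd]
      exact hp
  · push Not at hlt
    set c := p.num.coeff p.denom.natDegree with hc
    have hq : p - algebraMap ℂ (RatFunc ℂ) c =
        algebraMap ℂ[X] (RatFunc ℂ) (p.num - C c * p.denom) /
          algebraMap ℂ[X] (RatFunc ℂ) p.denom := by
      rw [map_sub, map_mul, sub_div, hnd, mul_div_cancel_right₀ _ (am_ne hd0),
        RatFunc.algebraMap_C]
      rfl
    have hB : p.num - C c * p.denom ≠ 0 := by
      intro h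
      rw [h, map_zero, zero_div, sub_eq_zero] at hq
      exact hnc ⟨c, hq⟩
    refine ⟨p.denom, p.num - C c * p.denom, hdm, hB, ?_, ?_, ?_⟩
    · apply natDegree_lt_natDegree hB
      rw [degree_eq_natDegree hd0, degree_lt_iff_coeff_zero]
      intro m hm
      rcases hm.eq_or_lt with h | h
      · rw [← h, coeff_sub, coeff_C_mul, hdm.coeff_natDegree, mul_one, hc, sub_self]
      · rw [coeff_sub, coeff_C_mul, coeff_eq_zero_of_natDegree_lt (hlt.trans_lt h),
          coeff_eq_zero_of_natDegree_lt h, mul_zero, sub_zero]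
    · have := hco.symm.add_mul_right_right (-C c)
      rwa [neg_mul, ← sub_eq_add_neg] at this
    · rw [← inv_div, ← hq, ← adjoin_shift]
      exact hp

end Pool.Agent.MP_4be736_ag.H39
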