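import Pool.Agent.MP_4be736_ag.H39.Spec

/-!
Factoring a curve through the rational function `A / B`.
-/

open Polynomial
open scoped IntermediateField

namespace Pool.Agent.MP_4be736_ag.H39

namespace LurCA

theorem hom (A B q : ℂ[X]) (hB : B ≠ 0) {e : ℕ} (he : q.natDegree ≤ e) :
    algebraMap ℂ[X] (RatFunc ℂ) (MvPolynomial.aeval ![A, B] (q.homogenize e)) =
      aeval (algebraMap ℂ[X] (RatFunc ℂ) A / algebraMap ℂ[X] (RatFunc ℂ) B) q *
        algebraMap ℂ[X] (RatFunc ℂ) B ^ e := by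
  have h := eval_homogenize (p := q.map (algebraMap ℂ (RatFunc ℂ))) (natDegree_map_le.trans he)
    ![algebraMap ℂ[X] (RatFunc ℂ) A, algebraMap ℂ[X] (RatFunc ℂ) B]
    ((map_ne_zero_iff _ (RatFunc.algebraMap_injective ℂ)).2 hB)
  rw [homogenize_map, MvPolynomial.eval_map, eval_map, ← aeval_def, ← MvPolynomial.aeval_def] at h
  refine Eq.trans ?_ h
  rw [← MvPolynomial.aeval_algebraMap_apply]
  congr 2
  funext i
  fin_cases i <;> rfl

theorem frac {p x : RatFunc ℂ} (h : x ∈ ℂ⟮p⟯) :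
    ∃ r s : ℂ[X], aeval p s ≠ 0 ∧ aeval p r = x * aeval p s := by
  obtain ⟨r, s, e⟩ := (IntermediateField.mem_adjoin_simple_iff ℂ x).1 h
  by_cases k : aeval p s = 0
  · exact ⟨0, 1, by simp, by simp [e, k]⟩
  · exact ⟨r, s, k, by rw [e, div_mul_cancel₀ _ k]⟩

end LurCA

theorem sLurC : SLurC := by
  classical
  intro k f l₀ A B h0 hB _ hm
  choose r s hs hr using fun l => LurCA.frac (hm l)
  have hf : algebraMap ℂ[X] (RatFunc ℂ) (f l₀) ≠ 0 :=
    (map_ne_zero_iff _ (RatFunc.algebraMap_injective ℂ)).2 h0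
  obtain ⟨g, hg, h1⟩ := Finset.extract_gcd (s := Finset.univ)
    (fun l => r l * ∏ l' ∈ Finset.univ.erase l, s l') ⟨l₀, Finset.mem_univ _⟩
  generalize Finset.univ.gcd (fun l => r l * ∏ l' ∈ Finset.univ.erase l, s l') = d at hg
  have hom := fun (q : ℂ[X]) (e : ℕ) => LurCA.hom A B q hB (e := e)
  generalize algebraMap ℂ[X] (RatFunc ℂ) A / algebraMap ℂ[X] (RatFunc ℂ) B = p at hs hr hom
  have h2 : ∀ l, aeval p d * aeval p (g l) = algebraMap ℂ[X] (RatFunc ℂ) (f l) /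
      algebraMap ℂ[X] (RatFunc ℂ) (f l₀) * ∏ l', aeval p (s l') := fun l => by
    rw [← map_mul, ← hg l (Finset.mem_univ l), map_mul, hr, map_prod, mul_assoc,
      Finset.mul_prod_erase _ (fun l' => aeval p (s l')) (Finset.mem_univ l)]
  have h3 : aeval p d * aeval p (g l₀) ≠ 0 := by
    rw [h2, div_self hf, one_mul]
    exact Finset.prod_ne_zero_iff.2 fun l _ => hs l
  have h4 : g l₀ ≠ 0 := fun e => h3 (by rw [e, map_zero, mul_zero])
  obtain ⟨l₁, h5, h6⟩ := Finset.exists_max_image (Finset.univ.filter fun l => g l ≠ 0)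
    (fun l => (g l).natDegree) ⟨l₀, Finset.mem_filter.2 ⟨Finset.mem_univ _, h4⟩⟩
  have h7 : ∀ l, (g l).natDegree ≤ (g l₁).natDegree := fun l => by
    by_cases e : g l = 0
    · rw [e, natDegree_zero]
      exact Nat.zero_le _
    · exact h6 l (Finset.mem_filter.2 ⟨Finset.mem_univ _, e⟩)
  refine ⟨(g l₁).natDegree, g, h7, ⟨l₁, leadingCoeff_ne_zero.2 (Finset.mem_filter.1 h5).2⟩,
    fun a => ?_, fun l => RatFunc.algebraMap_injective ℂ ?_⟩
  · by_contra c
    refine not_isUnit_X_sub_C a (isUnit_of_dvd_one ?_)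
    rw [← h1]
    exact Finset.dvd_gcd fun l _ => dvd_iff_isRoot.2 (of_not_not fun e => c ⟨l, e⟩)
  · rw [map_mul, map_mul, hom _ _ (h7 _), hom _ _ (h7 _), ← mul_assoc, ← mul_assoc]
    congr 1
    refine mul_left_cancel₀ (left_ne_zero_of_mul h3) ?_
    rw [mul_left_comm, h2, mul_left_comm (aeval p d), h2, div_self hf, one_mul, ← mul_assoc,
      mul_div_cancel₀ _ hf]

end Pool.Agent.MP_4be736_ag.H39
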