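import Pool.Agent.MP_4be736_ag.H39.Spec

/-!
A curve that factors through a rational function.
-/

open Polynomial

namespace Pool.Agent.MP_4be736_ag.H39

namespace LurDA

theorem ev (A B : ℂ[X]) (a : ℂ) (q : MvPolynomial (Fin 2) ℂ) :
    (MvPolynomial.aeval ![A, B] q).eval a = MvPolynomial.eval ![A.eval a, B.eval a] q := by
  induction q using MvPolynomial.induction_on with
  | C c => simp
  | add p q hp hq => simp only [map_add, eval_add, hp, hq]
  | mul_X p i hp =>
    simp only [map_mul, eval_mul, MvPolynomial.aeval_X, MvPolynomial.eval_X, hp]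
    fin_cases i <;> simp

theorem top {p : ℂ[X]} {n : ℕ} (h : p.natDegree ≤ n) :
    MvPolynomial.eval ![1, 0] (p.homogenize n) = p.coeff n := by
  rw [← H94.deh_coeff (isHomogeneous_homogenize p), H94.deh, aeval_homogenize_X_one p h]

theorem dvd {k : ℕ} {u : Fin k → ℂ[X]} (hu : ∀ a : ℂ, ∃ l, (u l).eval a ≠ 0) {p q : ℂ[X]}
    (h : ∀ l, p ∣ u l * q) : p ∣ q := by
  classical
  have h1 : IsUnit (Finset.univ.gcd u) := by
    by_contra h2
    obtain ⟨a, ha⟩ := IsAlgClosed.exists_root _ (mt isUnit_iff_degree_eq_zero.2 h2)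
    obtain ⟨l, hl⟩ := hu a
    exact hl (ha.dvd (Finset.gcd_dvd (Finset.mem_univ l)))
  have h2 : p ∣ Finset.univ.gcd fun l => u l * q := Finset.dvd_gcd fun l _ => h l
  rwa [Finset.gcd_mul_right, h1.dvd_mul_left, dvd_normalize_iff] at h2

end LurDA

theorem sLurD (h : STop) : SLurD := by
  intro k e e' y f g l₀ A B hf hy hA hB hAB hg ⟨l₁, h1⟩ hp he
  set G : Fin k → ℂ[X] := fun l => MvPolynomial.aeval ![A, B] ((g l).homogenize e') with hG
  have g1 : ∀ a : ℂ, B.eval a ≠ 0 → ∀ l,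
      (G l).eval a = B.eval a ^ e' * (g l).eval (A.eval a / B.eval a) := fun a ha l => by
    rw [hG, LurDA.ev, eval_homogenize (hg l) _ (by simpa using ha), mul_comm]
    simp
  have g2 : ∀ a : ℂ, ∃ l, (G l).eval a ≠ 0 := fun a => by
    by_cases ha : B.eval a = 0
    · have a1 : A.eval a ≠ 0 := fun a1 => by
        obtain ⟨u, v, huv⟩ := hAB
        simpa [a1, ha] using congrArg (eval a) huv
      refine ⟨l₁, ?_⟩
      rw [hG, LurDA.ev, ha, show ![A.eval a, 0] = A.eval a • ![(1 : ℂ), 0] by simp,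
        H94.eval_smul_hom (isHomogeneous_homogenize _), LurDA.top (hg l₁)]
      exact mul_ne_zero (pow_ne_zero _ a1) h1
    · obtain ⟨l, hl⟩ := hp (A.eval a / B.eval a)
      exact ⟨l, g1 a ha l ▸ mul_ne_zero (pow_ne_zero _ ha) hl⟩
  have g3 : ∀ l, (G l).natDegree ≤ e' * A.natDegree ∧
      (G l).coeff (e' * A.natDegree) = (g l).coeff e' := fun l => by
    obtain ⟨a, b⟩ := h 2 e' A.natDegree _ ![A, B] (isHomogeneous_homogenize (g l)) fun i => by
      fin_cases i
      · exact le_rfl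
      · exact hB.le
    refine ⟨a, b.trans (Eq.trans ?_ (LurDA.top (hg l)))⟩
    congr 2
    funext i
    fin_cases i
    · exact hA
    · exact coeff_eq_zero_of_natDegree_lt hB
  have f0 : (f l₀).coeff e ≠ 0 := hf.top l₀ ▸ hy
  have d1 : f l₀ ∣ G l₀ := LurDA.dvd hf.prim fun l => ⟨_, he l⟩
  have d2 : G l₀ ∣ f l₀ := LurDA.dvd g2 fun l => ⟨f l, by
    rw [mul_comm, mul_comm (G l₀)]
    exact (he l).symm⟩
  obtain ⟨u, hu⟩ := associated_of_dvd_dvd d2 d1
  obtain ⟨κ, hκ, hc⟩ := Polynomial.isUnit_iff.1 u.isUnit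
  have G0 : G l₀ ≠ 0 := fun a => f0 (by simp [← hu, a])
  have f1 : ∀ l, f l = C κ * G l := fun l => mul_right_cancel₀ G0 (by
    rw [show f l * G l₀ = f l₀ * G l from he l, ← hu, hc]
    ring)
  have f2 : ∀ l, (f l).coeff (e' * A.natDegree) = κ * (g l).coeff e' := fun l => by
    rw [f1, coeff_C_mul, (g3 l).2]
  have e1 : e = e' * A.natDegree := by
    refine le_antisymm ((le_natDegree_of_ne_zero f0).trans ?_)
      ((le_natDegree_of_ne_zero (f2 l₁ ▸ mul_ne_zero hκ.ne_zero h1)).trans (hf.deg l₁))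
    rw [f1]
    exact (natDegree_C_mul_le _ _).trans (g3 l₀).1
  refine ⟨e1.trans (mul_comm _ _), fun l => C κ * g l, ⟨fun l => (natDegree_C_mul_le _ _).trans
    (hg l), fun l => ?_, fun a => ?_⟩, fun a ha l => ?_⟩
  · rw [coeff_C_mul, ← f2, ← e1, hf.top]
  · obtain ⟨l, hl⟩ := hp a
    exact ⟨l, by simpa [hκ.ne_zero] using hl⟩
  · rw [f1, eval_mul, eval_mul, g1 a ha, eval_C, eval_C]
    ring

end Pool.Agent.MP_4be736_ag.H39
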