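import Pool.Agent.MP_4be736_ag.H39.Spec

/-!
Assembly.
-/

open Polynomial

namespace Pool.Agent.MP_4be736_ag.H39

open Pool.Agent.Results.MP_4be736_ag.NotUniruled (PP RatCurve pt)

theorem GeneralOn.and {k : ℕ} {X : Set (PP k)} {Q Q' : PP k → Prop} (h : GeneralOn X Q)
    (h' : GeneralOn X Q') : GeneralOn X fun x => Q x ∧ Q' x := by
  obtain ⟨Z, a1, a2, a3⟩ := h
  obtain ⟨Z', b1, b2, b3⟩ := h'
  exact ⟨Z ∪ Z', a1.union b1, fun W hW => hW.elim (a2 W) (b2 W), fun x hx hZ =>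
    ⟨a3 x hx fun W hW => hZ W (Or.inl hW), b3 x hx fun W hW => hZ W (Or.inr hW)⟩⟩

theorem GeneralOn.imp {k : ℕ} {X : Set (PP k)} {Q Q' : PP k → Prop} (h : GeneralOn X Q)
    (h' : ∀ x, Q x → Q' x) : GeneralOn X Q' := by
  obtain ⟨Z, a1, a2, a3⟩ := h
  exact ⟨Z, a1, a2, fun x hx hZ => h' x (a3 x hx hZ)⟩

theorem main (h1 : SGen) (h2 : SOff) (h3 : SComb) (h4 : SExists) (h5 : SCheap) (h6 : SBir)
    (h7 : SFinA) (h8 : SFinB) {k : ℕ} (P : CIPair k) (hι : ∑ i, P.δ i + 2 ≤ k)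
    (hW : P.WeaklyUniruled) : P.Uniruled := by
  refine (GeneralOn.and hW (h1 k P)).imp ?_
  rintro x ⟨⟨c, -, -, hc⟩, y, hy, rfl, hF, hM⟩
  have hG := h2 k P y hy hF hM
  obtain ⟨ι, hk⟩ : ∃ ι, k = ∑ i, P.δ i + ι := ⟨k - ∑ i, P.δ i, by omega⟩
  have hneg : ∑ j, (1 - im (P.m j)) * P.d j < ι := by
    have h0 : ∑ i, (P.δ i : ℝ) - k + ∑ j, (1 - im (P.m j)) * P.d j < 0 := by
      by_contra h
      exact absurd hc (not_lt.2 (mul_nonneg (not_lt.1 h) (Nat.cast_nonneg _)))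
    have h9 : (k : ℝ) = ∑ i, (P.δ i : ℝ) + ι := by exact_mod_cast hk
    linarith
  obtain ⟨e, Pt, _, s, κ, he, hs, hstar, hκ0, hκ1, hκ2⟩ := h3 (Fin P.r) P.d P.m ι (by omega)
    P.d_pos (fun j => one_le_two.trans (P.two_le j)) hneg
  obtain ⟨f, a, hA, hFf, hGf⟩ := h4 k P y e Pt s hy hF hM hG he hs (by
    intro μ T a1 a2 a3
    have := hstar μ T a1 a2 a3
    have h9 : k * μ = (∑ i, P.δ i) * μ + ι * μ := by rw [← add_mul, ← hk]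
    rw [add_mul, h9]
    omega)
  have him : ∀ j, 0 ≤ im (P.m j) := fun j => ENNReal.toReal_nonneg
  obtain ⟨e', g, hA', hFg, hCg, hI⟩ := h6 k P y (fun j => im (P.m j)) e f hy hG him he hA hFf (by
    simp only [hGf]
    exact h5 _ Pt _ s κ a _ him hG hκ0 hκ1 hκ2)
  obtain ⟨c', a₀, b1, b2, b3⟩ := h7 k e' y hy g hA' hI
  exact ⟨c', ⟨a₀, b2⟩, h8 k e' P y hy g c' a₀ hA' b1 b2 b3 hFg hG hCg⟩

end Pool.Agent.MP_4be736_ag.H39
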