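import Pool.Agent.MP_4be736_ag.H39.Spec

/-!
Multiplicities under a rational map and the Riemann-Hurwitz inequality.
-/

open Polynomial

namespace Pool.Agent.MP_4be736_ag.H39

namespace MultA

variable {A B : ℂ[X]}

theorem deg_fib (h : B.natDegree < A.natDegree) (β : ℂ) :
    (A - C β * B).natDegree = A.natDegree :=
  natDegree_sub_eq_left_of_natDegree_lt ((natDegree_C_mul_le _ _).trans_lt h)

theorem fib_ne (h : B.natDegree < A.natDegree) (β : ℂ) : A - C β * B ≠ 0 := by
  intro h0
  have := deg_fib h β
  rw [h0, natDegree_zero] at this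
  omega

theorem den_ne (hc : IsCoprime A B) {β a : ℂ} (ha : (A - C β * B).IsRoot a) : B.eval a ≠ 0 := by
  intro h0
  have h1 : A.eval a = 0 := by simpa [h0] using ha
  obtain ⟨u, v, huv⟩ := hc
  have := congrArg (eval a) huv
  simp [h0, h1] at this

theorem fib_inj (hc : IsCoprime A B) {β β' a : ℂ} (ha : (A - C β * B).IsRoot a)
    (ha' : (A - C β' * B).IsRoot a) : β = β' := by
  have h0 := den_ne hc ha
  simp only [IsRoot.def, eval_sub, eval_mul, eval_C] at ha ha'
  exact mul_right_cancel₀ h0 (by linear_combination ha' - ha)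

theorem mult_prod (h : B.natDegree < A.natDegree) (hc : IsCoprime A B) {β a : ℂ}
    (ha : (A - C β * B).IsRoot a) (s : Multiset ℂ) :
    (s.map fun b => A - C b * B).prod ≠ 0 ∧ (s.map fun b => A - C b * B).prod.rootMultiplicity a =
      (A - C β * B).rootMultiplicity a * s.count β := by
  classical
  induction s using Multiset.induction_on with
  | empty => simp
  | cons b s ih =>
    have h0 := mul_ne_zero (fib_ne h b) ih.1
    rw [Multiset.map_cons, Multiset.prod_cons]
    refine ⟨h0, ?_⟩
    rw [rootMultiplicity_mul h0, ih.2, Multiset.count_cons]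
    split_ifs with hb
    · rw [hb]; ring
    · rw [rootMultiplicity_eq_zero fun h1 => hb (fib_inj hc ha h1)]; ring

theorem sum_mult (p : ℂ[X]) : ∑ a ∈ p.roots.toFinset, p.rootMultiplicity a = p.natDegree := by
  classical
  simp only [← count_roots]
  rw [Multiset.toFinset_sum_count_eq, IsAlgClosed.card_roots_eq_natDegree]

theorem sum_mult_le (p : ℂ[X]) (S : Finset ℂ) : ∑ a ∈ S, p.rootMultiplicity a ≤ p.natDegree := by
  classical
  rw [← sum_mult]
  refine Finset.sum_le_sum_of_ne_zero fun a _ ha => ?_
  rw [Multiset.mem_toFinset, ← Multiset.count_ne_zero, count_roots]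
  exact ha

theorem fib_disj (h : B.natDegree < A.natDegree) (hc : IsCoprime A B) (T : Finset ℂ) :
    (T : Set ℂ).PairwiseDisjoint fun β => (A - C β * B).roots.toFinset := by
  intro β _ β' _ hne
  refine Finset.disjoint_left.2 fun a h1 h2 => hne (fib_inj hc (a := a) ?_ ?_)
  · exact (mem_roots (fib_ne h _)).1 (Multiset.mem_toFinset.1 h1)
  · exact (mem_roots (fib_ne h _)).1 (Multiset.mem_toFinset.1 h2)

end MultA

open MultA

theorem sMult : SMult := by
  intro A B p q a β hB h hc hq hp ha
  classical
  have h1 := C_leadingCoeff_mul_prod_multiset_X_sub_C (p := q) IsAlgClosed.card_roots_eq_natDegree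
  have h2 : p = C q.leadingCoeff * (q.roots.map fun b => A - C b * B).prod := by
    refine eq_of_infinite_eval_eq _ _ (Set.Infinite.mono (s := (B.roots.toFinset : Set ℂ)ᶜ)
      (fun t ht => ?_) (Finset.finite_toSet _).infinite_compl)
    have ht' : B.eval t ≠ 0 := fun h0 => ht (Multiset.mem_toFinset.2 ((mem_roots hB).2 h0))
    have key : ∀ s : Multiset ℂ, eval t (s.map fun b => A - C b * B).prod =
        B.eval t ^ s.card * eval (A.eval t / B.eval t) (s.map fun b => X - C b).prod := by
      intro s
      induction s using Multiset.induction_on with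
      | empty => simp
      | cons b s ih =>
        simp only [Multiset.map_cons, Multiset.prod_cons, eval_mul, ih, Multiset.card_cons,
          eval_sub, eval_C, eval_X]
        field_simp
        ring
    change p.eval t = _
    rw [hp t ht', eval_mul, key, IsAlgClosed.card_roots_eq_natDegree]
    conv_lhs => rw [← h1]
    rw [h1, eval_C, mul_left_comm]
    conv_lhs => rw [← h1]
    rw [eval_mul, eval_C, h1]
  have h3 := mult_prod h hc ha q.roots
  rw [h2, rootMultiplicity_mul (mul_ne_zero (C_ne_zero.2 (leadingCoeff_ne_zero.2 hq)) h3.1), h3.2,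
    rootMultiplicity_C, zero_add, count_roots]

theorem sHurwitz : SHurwitz := by
  intro A B T _ h hc
  classical
  have hW : wronskian A B ≠ 0 := by
    intro h0
    have := derivative_eq_zero.1 (hc.wronskian_eq_zero_iff.1 h0).1
    omega
  have h1 := natDegree_wronskian_lt_add hW
  have h2 : ∀ β, A.natDegree ≤ ∑ a ∈ (A - C β * B).roots.toFinset,
      (wronskian A B).rootMultiplicity a + (A - C β * B).roots.toFinset.card := by
    intro β
    rw [← deg_fib h β, ← sum_mult, Finset.card_eq_sum_ones, ← Finset.sum_add_distrib]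
    refine Finset.sum_le_sum fun a _ => ?_
    have h3 := pow_rootMultiplicity_dvd (A - C β * B) a
    have h4 : wronskian A B = (A - C β * B) * derivative B - derivative (A - C β * B) * B := by
      simp only [wronskian, derivative_sub, derivative_mul, derivative_C]
      ring
    have h5 : (X - C a) ^ ((A - C β * B).rootMultiplicity a - 1) ∣ wronskian A B := by
      rw [h4]
      exact dvd_sub (((pow_dvd_pow _ (Nat.sub_le _ _)).trans h3).mul_right _)
        ((pow_sub_one_dvd_derivative_of_pow_dvd h3).mul_right _)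
    have := (le_rootMultiplicity_iff hW).2 h5
    omega
  have h3 := Finset.sum_le_sum fun β (_ : β ∈ T) => h2 β
  rw [Finset.sum_const, smul_eq_mul, Finset.sum_add_distrib,
    ← Finset.sum_biUnion (fib_disj h hc T), mul_comm] at h3
  have h4 := sum_mult_le (wronskian A B) (T.biUnion fun β => (A - C β * B).roots.toFinset)
  omega

theorem sDescent : SDescent := by
  rintro J _ w A B p q - hB h hc hq hp ⟨S, ν, a1, a2, a3⟩
  classical
  have hρ : (0 : ℝ) < A.natDegree := by exact_mod_cast (Nat.zero_le _).trans_lt h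
  set T : Finset ℂ := Finset.univ.biUnion fun j => (q j).roots.toFinset with hT
  have hm : ∀ j β, (q j).IsRoot β → ∀ a ∈ (A - C β * B).roots.toFinset, a ∈ S ∧
      ν a ≤ (A - C β * B).rootMultiplicity a * ((q j).rootMultiplicity β * w j) := by
    intro j β hβ a ha
    have ha' := (mem_roots (fib_ne h _)).1 (Multiset.mem_toFinset.1 ha)
    have h1 := sMult A B (p j) (q j) a β hB h hc (hq j) (hp j) ha'
    have h2 : 0 < (p j).rootMultiplicity a := by
      rw [h1]
      exact Nat.mul_pos ((rootMultiplicity_pos (fib_ne h _)).2 ha')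
        ((rootMultiplicity_pos (hq j)).2 hβ)
    have h3 := a2 j a (rootMultiplicity_pos'.1 h2).2
    rw [h1, Nat.cast_mul, mul_assoc] at h3
    exact h3
  have hS : ∀ β ∈ T, ∀ a ∈ (A - C β * B).roots.toFinset, a ∈ S := by
    intro β hβ a ha
    obtain ⟨j, -, hj⟩ := Finset.mem_biUnion.1 hβ
    exact (hm j β ((mem_roots (hq j)).1 (Multiset.mem_toFinset.1 hj)) a ha).1
  refine ⟨T, fun β => (∑ a ∈ (A - C β * B).roots.toFinset, ν a) / A.natDegree, ?_, ?_, ?_⟩
  · intro β hβ
    rw [div_le_one hρ]
    refine (Finset.sum_le_sum fun a ha => a1 a (hS β hβ a ha)).trans ?_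
    rw [Finset.sum_const, nsmul_eq_mul, mul_one, ← deg_fib h β]
    exact_mod_cast (Multiset.toFinset_card_le _).trans (card_roots' _)
  · intro j β hβ
    refine ⟨Finset.mem_biUnion.2 ⟨j, Finset.mem_univ j,
      Multiset.mem_toFinset.2 ((mem_roots (hq j)).2 hβ)⟩, ?_⟩
    rw [div_le_iff₀ hρ]
    refine (Finset.sum_le_sum fun a ha => (hm j β hβ a ha).2).trans ?_
    rw [← Finset.sum_mul, ← Nat.cast_sum, sum_mult, deg_fib h β, mul_comm]
  · have h1 : (A.natDegree : ℝ) * T.card + 2 ≤ 2 * A.natDegree +
        ∑ β ∈ T, ((A - C β * B).roots.toFinset.card : ℝ) := by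
      exact_mod_cast sHurwitz A B T hB h hc
    have h2 : ∑ β ∈ T, ∑ a ∈ (A - C β * B).roots.toFinset, (1 - ν a) ≤ ∑ a ∈ S, (1 - ν a) := by
      rw [← Finset.sum_biUnion (fib_disj h hc T)]
      refine Finset.sum_le_sum_of_subset_of_nonneg (fun a ha => ?_) fun a ha _ =>
        sub_nonneg.2 (a1 a ha)
      obtain ⟨β, hβ, ha⟩ := Finset.mem_biUnion.1 ha
      exact hS β hβ a ha
    simp only [Finset.sum_sub_distrib, Finset.sum_const, nsmul_eq_mul, mul_one] at h2 a3 ⊢
    rw [← Finset.sum_div, sub_lt_comm, lt_div_iff₀ hρ]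
    linarith

end Pool.Agent.MP_4be736_ag.H39
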