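import Pool.Agent.MP_4be736_ag.H39.Spec

/-!
A point that moves in every tangent direction lies off the divisor.
-/

namespace Pool.Agent.MP_4be736_ag.H39

open MvPolynomial

namespace OffA

variable {k : ℕ} (δ : Der) (y : Fin k → ℂ)

/-- The chain rule holds for `G`. -/
def Ch (G : MvPolynomial (Fin k) ℂ) : Prop := δ (eval y G) = ∑ l, grad y G l * δ (y l)

theorem ch_mul {p q : MvPolynomial (Fin k) ℂ} (hp : Ch δ y p) (hq : Ch δ y q) :
    Ch δ y (p * q) := by
  unfold Ch at *
  rw [map_mul, Derivation.leibniz, hp, hq, smul_eq_mul, smul_eq_mul, Finset.mul_sum,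
    Finset.mul_sum, ← Finset.sum_add_distrib]
  refine Finset.sum_congr rfl fun l _ => ?_
  simp only [grad, Derivation.leibniz, smul_eq_mul, map_add, map_mul]
  ring

theorem ch_C {a : ℂ} (ha : δ a = 0) : Ch δ y (C a) := by simp [Ch, grad, ha]

theorem ch_one : Ch δ y 1 := by simp [Ch, grad]

theorem ch_X (l : Fin k) : Ch δ y (X l) := by
  simp [Ch, grad, pderiv_X, Pi.single_apply, apply_ite (eval y)]

theorem ch_pow (l : Fin k) (n : ℕ) : Ch δ y (X l ^ n) := by
  induction n with
  | zero => simpa using ch_one δ y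
  | succ n ih => rw [pow_succ]; exact ch_mul δ y ih (ch_X δ y l)

theorem ch_of_kills {G : MvPolynomial (Fin k) ℂ} (h : Kills δ G) : Ch δ y G := by
  rw [G.as_sum]
  refine Finset.sum_induction _ (Ch δ y) (fun p q hp hq => ?_) (by simp [Ch, grad]) fun m _ => ?_
  · unfold Ch at *
    rw [map_add, map_add, hp, hq, ← Finset.sum_add_distrib]
    refine Finset.sum_congr rfl fun l _ => ?_
    simp only [grad, map_add, add_mul]
  · rw [monomial_eq]
    exact ch_mul δ y (ch_C δ y (h m)) (Finset.prod_induction _ (Ch δ y)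
      (fun p q => ch_mul δ y) (ch_one δ y) fun l _ => ch_pow δ y l _)

end OffA

theorem sOff : SOff := by
  intro k P y hy hF hM j hj
  have h1 := (P.snc y hy hF).notMem_span_image (s := Set.range Sum.inl)
    (x := Sum.inr ⟨j, hj⟩) (by simp)
  obtain ⟨f, hf, hf0⟩ := Submodule.exists_dual_map_eq_bot_of_notMem h1 inferInstance
  have key : ∀ w : Fin k → ℂ, f w = ∑ l, w l * f fun j => if l = j then 1 else 0 := fun w => by
    rw [LinearMap.pi_apply_eq_sum_univ f w]
    simp only [smul_eq_mul]
  obtain ⟨δ, -, hG, hv⟩ := hM (fun l => f fun j => if l = j then 1 else 0) fun i => by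
    rw [← key, ← Submodule.mem_bot ℂ, ← hf0]
    exact Submodule.mem_map_of_mem (Submodule.subset_span ⟨Sum.inl i, ⟨i, rfl⟩, rfl⟩)
  have h2 := OffA.ch_of_kills δ y (hG j)
  unfold OffA.Ch at h2
  simp only [hj, map_zero, hv] at h2
  exact hf ((key _).trans h2.symm)

end Pool.Agent.MP_4be736_ag.H39
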