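import Pool.Agent.MP_4be736_ag.H39.Spec

/-!
A generic rescaling of a point separates the homogeneous components.
-/

open Polynomial

namespace Pool.Agent.MP_4be736_ag.H39

namespace ScaleA

theorem aeval_smul {k n : ℕ} {K : Subfield ℂ} (x : Fin k → ℂ) (t : ℂ)
    {h : MvPolynomial (Fin k) K} (hh : h.IsHomogeneous n) :
    MvPolynomial.aeval (t • x) h = t ^ n * MvPolynomial.aeval x h := by
  rw [MvPolynomial.aeval_def, MvPolynomial.aeval_def, MvPolynomial.eval₂_eq',
    MvPolynomial.eval₂_eq', Finset.mul_sum]
  refine Finset.sum_congr rfl fun d hd => ?_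
  have h1 : ∑ i, d i = n := by
    have := hh (MvPolynomial.mem_support_iff.mp hd)
    rw [← this, Finsupp.weight_apply, Finsupp.sum_fintype _ _ (by simp)]
    simp
  simp only [Pi.smul_apply, smul_eq_mul, mul_pow, Finset.prod_mul_distrib,
    Finset.prod_pow_eq_pow_sum, h1]
  ring

/-- The restriction of `g` to the line through `x`. -/
noncomputable def ln {k : ℕ} {K : Subfield ℂ} (x : Fin k → ℂ) (g : MvPolynomial (Fin k) K) :
    ℂ[X] :=
  ∑ n ∈ Finset.range (g.totalDegree + 1),
    monomial n (MvPolynomial.aeval x (MvPolynomial.homogeneousComponent n g))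

theorem eval_ln {k : ℕ} {K : Subfield ℂ} (x : Fin k → ℂ) (g : MvPolynomial (Fin k) K) (t : ℂ) :
    (ln x g).eval t = MvPolynomial.aeval (t • x) g := by
  conv_rhs => rw [← MvPolynomial.sum_homogeneousComponent g]
  rw [ln, eval_finsetSum, map_sum]
  refine Finset.sum_congr rfl fun n _ => ?_
  rw [eval_monomial, aeval_smul x t (MvPolynomial.homogeneousComponent_isHomogeneous n g),
    mul_comm]

theorem coeff_ln {k : ℕ} {K : Subfield ℂ} (x : Fin k → ℂ) (g : MvPolynomial (Fin k) K) (n : ℕ) :
    (ln x g).coeff n = MvPolynomial.aeval x (MvPolynomial.homogeneousComponent n g) := by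
  rw [ln, finsetSum_coeff]
  simp only [coeff_monomial]
  rw [Finset.sum_ite_eq']
  split_ifs with h
  · rfl
  · rw [MvPolynomial.homogeneousComponent_eq_zero, map_zero]
    simpa using h

theorem countable_mv {k : ℕ} {K : Type} [Field K] [Countable K] :
    Countable (MvPolynomial (Fin k) K) := by
  rw [← Cardinal.mk_le_aleph0_iff]
  refine MvPolynomial.cardinalMk_le_max.trans ?_
  simp

end ScaleA

open ScaleA in
theorem sScale : SScale := by
  intro k K x hK
  have : Countable K := hK.to_subtype
  have := countable_mv (k := k) (K := K)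
  have hc : ({0} ∪ ⋃ g : MvPolynomial (Fin k) K, ((ln x g).roots.toFinset : Set ℂ)).Countable :=
    (Set.countable_singleton 0).union
      (Set.countable_iUnion fun g => (Finset.countable_toSet _))
  have hne : ({0} ∪ ⋃ g : MvPolynomial (Fin k) K, ((ln x g).roots.toFinset : Set ℂ)) ≠
      Set.univ := by
    intro h
    rw [h] at hc
    exact not_countable_complex hc
  obtain ⟨t, ht⟩ := (Set.ne_univ_iff_exists_notMem _).mp hne
  simp only [Set.mem_union, Set.mem_singleton_iff, Set.mem_iUnion, not_or, not_exists] at ht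
  refine ⟨t, ht.1, fun g hg n => ?_⟩
  have h0 : ln x g = 0 := by
    by_contra h
    apply ht.2 g
    rw [Finset.mem_coe, Multiset.mem_toFinset, mem_roots h, IsRoot.def, eval_ln]
    exact hg
  rw [← coeff_ln, h0, coeff_zero]

end Pool.Agent.MP_4be736_ag.H39
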