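import Pool.Agent.MP_4be736_ag.H39.Spec

/-!
Existence of a curve with prescribed contact orders, possibly with base points.
-/

open Polynomial

namespace Pool.Agent.MP_4be736_ag.H39

namespace SolveA

/-- The universal curve with top coefficient `y`. -/
noncomputable def uc {k : ℕ} (y : Fin k → ℂ) (e : ℕ) (Pt : Type) :
    Fin k → (MvPolynomial ((Fin k × Fin e) ⊕ Pt) ℂ)[X] :=
  fun l => C (MvPolynomial.C (y l)) * X ^ e +
    ∑ n : Fin e, C (MvPolynomial.X (.inl (l, n))) * X ^ (n : ℕ)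

theorem map_uc {k : ℕ} (y : Fin k → ℂ) (e : ℕ) (Pt : Type) (z : (Fin k × Fin e) ⊕ Pt → ℂ)
    (F : MvPolynomial (Fin k) ℂ) :
    (MvPolynomial.aeval (uc y e Pt) F).map (MvPolynomial.eval z) =
      MvPolynomial.aeval (cv y e fun u => z (.inl u)) F := by
  induction F using MvPolynomial.induction_on with
  | C c => simp
  | add p q hp hq => simp only [map_add, Polynomial.map_add, hp, hq]
  | mul_X p i hp =>
    simp only [map_mul, Polynomial.map_mul, hp, MvPolynomial.aeval_X]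
    congr 1
    simp [uc, cv, Polynomial.map_sum]

theorem coeff_cv {k : ℕ} (y : Fin k → ℂ) (e : ℕ) (z : Fin k × Fin e → ℂ) (l : Fin k) (m : ℕ)
    (hm : e ≤ m) : (cv y e z l).coeff m = if m = e then y l else 0 := by
  rw [cv, coeff_add, finset_sum_coeff, coeff_C_mul_X_pow, Finset.sum_eq_zero, add_zero]
  intro n _
  rw [coeff_C_mul_X_pow, if_neg]
  have := n.2
  omega

theorem natDegree_cv {k : ℕ} (y : Fin k → ℂ) (e : ℕ) (z : Fin k × Fin e → ℂ) (l : Fin k) :
    (cv y e z l).natDegree ≤ e := by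
  rw [natDegree_le_iff_coeff_eq_zero]
  intro m hm
  rw [coeff_cv y e z l m hm.le, if_neg hm.ne']

theorem aeval_cv_zero {k n : ℕ} (y : Fin k → ℂ) (e : ℕ) (F : MvPolynomial (Fin k) ℂ)
    (hF : F.IsHomogeneous n) :
    MvPolynomial.aeval (cv y e fun _ => 0) F = C (MvPolynomial.eval y F) * X ^ (n * e) := by
  refine Polynomial.funext fun a => ?_
  have h : (fun l => (cv y e (fun _ => 0) l).eval a) = a ^ e • y := by
    funext l
    simp only [cv, C_0, zero_mul, Finset.sum_const_zero, add_zero, eval_mul, eval_C, eval_pow,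
      eval_X, Pi.smul_apply, smul_eq_mul]
    ring
  rw [eval_aeval, h, H94.eval_smul_hom hF]
  simp only [eval_mul, eval_C, eval_pow, eval_X]
  ring

theorem top_cv (h2 : STop) {k n : ℕ} (y : Fin k → ℂ) (e : ℕ) (z : Fin k × Fin e → ℂ)
    (F : MvPolynomial (Fin k) ℂ) (hF : F.IsHomogeneous n) :
    (MvPolynomial.aeval (cv y e z) F).natDegree ≤ n * e ∧
      (MvPolynomial.aeval (cv y e z) F).coeff (n * e) = MvPolynomial.eval y F := by
  have h := h2 k n e F (cv y e z) hF (natDegree_cv y e z)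
  have h' : (fun l => (cv y e z l).coeff e) = y := by
    funext l
    rw [coeff_cv y e z l e le_rfl, if_pos rfl]
  rwa [h'] at h

theorem eq_of_coeff {p q : ℂ[X]} {N : ℕ} (hp : p.natDegree ≤ N) (hq : q.natDegree ≤ N)
    (ht : p.coeff N = q.coeff N) (hl : ∀ n : Fin N, p.coeff n = q.coeff n) : p = q := by
  ext m
  rcases lt_trichotomy m N with h | rfl | h
  · exact hl ⟨m, h⟩
  · exact ht
  · rw [coeff_eq_zero_of_natDegree_lt (hp.trans_lt h),
      coeff_eq_zero_of_natDegree_lt (hq.trans_lt h)]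

theorem top_prod {Pt : Type} [Fintype Pt] (γ : ℂ) (a : Pt → ℂ) (s : Pt → ℕ) :
    (C γ * ∏ π, (X - C (a π)) ^ s π).natDegree ≤ ∑ π, s π ∧
      (C γ * ∏ π, (X - C (a π)) ^ s π).coeff (∑ π, s π) = γ := by
  have hm : ∀ π ∈ (Finset.univ : Finset Pt), ((X - C (a π)) ^ s π : ℂ[X]).Monic :=
    fun π _ => (monic_X_sub_C _).pow _
  have hd : (∏ π, (X - C (a π)) ^ s π : ℂ[X]).natDegree = ∑ π, s π := by
    rw [natDegree_prod_of_monic _ _ hm]
    simp
  refine ⟨(natDegree_C_mul_le _ _).trans hd.le, ?_⟩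
  rw [coeff_C_mul, ← hd, (monic_prod_of_monic _ _ hm).coeff_natDegree, mul_one]

end SolveA

open SolveA in
theorem sSolve (h1 : SKrull) (h2 : STop) : SSolve := by
  intro k P y e Pt I _ _ s E hy hs hE hcard
  let R : Fin P.r → (MvPolynomial ((Fin k × Fin e) ⊕ Pt) ℂ)[X] := fun j =>
    C (MvPolynomial.C (MvPolynomial.eval y (P.G j))) *
      ∏ π, (X - C (MvPolynomial.X (.inr π))) ^ s π j
  have hR : ∀ (z : (Fin k × Fin e) ⊕ Pt → ℂ) j, (R j).map (MvPolynomial.eval z) =
      C (MvPolynomial.eval y (P.G j)) * ∏ π, (X - C (z (.inr π))) ^ s π j := by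
    intro z j
    simp [R, Polynomial.map_prod]
  let p : I ⊕ ((Σ i, Fin (P.δ i * e)) ⊕ (Σ j, Fin (P.d j * e))) →
      MvPolynomial ((Fin k × Fin e) ⊕ Pt) ℂ :=
    Sum.elim E (Sum.elim (fun x => (MvPolynomial.aeval (uc y e Pt) (P.F x.1)).coeff x.2)
      fun x => (MvPolynomial.aeval (uc y e Pt) (P.G x.1) - R x.1).coeff x.2)
  have pF : ∀ (z : (Fin k × Fin e) ⊕ Pt → ℂ) i (n : Fin (P.δ i * e)),
      MvPolynomial.eval z (p (.inr (.inl ⟨i, n⟩))) =
        (MvPolynomial.aeval (cv y e fun u => z (.inl u)) (P.F i)).coeff n := by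
    intro z i n
    rw [← map_uc, coeff_map]
    rfl
  have pG : ∀ (z : (Fin k × Fin e) ⊕ Pt → ℂ) j (n : Fin (P.d j * e)),
      MvPolynomial.eval z (p (.inr (.inr ⟨j, n⟩))) =
        (MvPolynomial.aeval (cv y e fun u => z (.inl u)) (P.G j)).coeff n -
        (C (MvPolynomial.eval y (P.G j)) * ∏ π, (X - C (z (.inr π))) ^ s π j).coeff n := by
    intro z j n
    rw [← map_uc, ← hR, ← coeff_sub, ← Polynomial.map_sub, coeff_map]
    rfl
  obtain ⟨z, hz, hp⟩ := h1 _ _ p (by
    rintro (q | ⟨i, n⟩ | ⟨j, n⟩)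
    · exact hE q
    · rw [pF]
      simp only [Pi.zero_apply]
      rw [aeval_cv_zero y e _ (P.homF i), hy i]
      simp
    · rw [pG]
      simp only [Pi.zero_apply]
      rw [aeval_cv_zero y e _ (P.homG j)]
      simp only [C_0, sub_zero, Finset.prod_pow_eq_pow_sum, hs j, sub_self]) (by
    simp only [Fintype.card_sum, Fintype.card_sigma, Fintype.card_fin, Fintype.card_prod,
      ← Finset.sum_mul, ← add_mul]
    exact hcard)
  refine ⟨z, hz, fun q => hp (.inl q), fun i => ?_, fun j => ?_⟩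
  · have h := top_cv h2 y e (fun u => z (.inl u)) _ (P.homF i)
    refine eq_of_coeff h.1 (by simp) (by rw [h.2, hy i, coeff_zero]) fun n => ?_
    rw [← pF, hp, coeff_zero]
  · have h := top_cv h2 y e (fun u => z (.inl u)) _ (P.homG j)
    have h' := top_prod (MvPolynomial.eval y (P.G j)) (fun π => z (.inr π)) fun π => s π j
    rw [hs j] at h'
    refine eq_of_coeff h.1 h'.1 (by rw [h.2, h'.2]) fun n => ?_
    rw [← sub_eq_zero, ← pG, hp]

end Pool.Agent.MP_4be736_ag.H39
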