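import Pool.Agent.MP_4be736_ag.H39.Defs

/-!
Statements of the lemmas.
-/

open Polynomial
open scoped IntermediateField

namespace Pool.Agent.MP_4be736_ag.H39

open Pool.Agent.Results.MP_4be736_ag.NotUniruled (PP RatCurve pt)

/-- Derivations of the complex numbers. -/
abbrev Der : Type := Derivation ℤ ℂ ℂ

/-- `δ` kills the coefficients of `F`. -/
def Kills {k : ℕ} (δ : Der) (F : MvPolynomial (Fin k) ℂ) : Prop :=
  ∀ m, δ (MvPolynomial.coeff m F) = 0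

/-- `δ` applied to the coefficients. -/
noncomputable def dc (δ : Der) (p : ℂ[X]) : ℂ[X] := p.sum fun n a => monomial n (δ a)

/-- The differential of `F` along the curve `f` applied to `v`. -/
noncomputable def dP {k : ℕ} (F : MvPolynomial (Fin k) ℂ) (f v : Fin k → ℂ[X]) : ℂ[X] :=
  ∑ l, MvPolynomial.aeval f (MvPolynomial.pderiv l F) * v l

/-- The point `y` moves in every tangent direction of the cone over `X`. -/
def Mov {k : ℕ} (P : CIPair k) (y : Fin k → ℂ) : Prop :=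
  ∀ v : Fin k → ℂ, (∀ i, ∑ l, grad y (P.F i) l * v l = 0) →
    ∃ δ : Der, (∀ i, Kills δ (P.F i)) ∧ (∀ j, Kills δ (P.G j)) ∧ ∀ l, δ (y l) = v l

/-- A curve of degree `e` without base point, passing through `y` at infinity. -/
structure Aff {k : ℕ} (y : Fin k → ℂ) (e : ℕ) (f : Fin k → ℂ[X]) : Prop where
  deg : ∀ l, (f l).natDegree ≤ e
  top : ∀ l, (f l).coeff e = y l
  prim : ∀ a : ℂ, ∃ l, (f l).eval a ≠ 0

/-- The curve with top coefficient `y` and lower coefficients `z`. -/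
noncomputable def cv {k : ℕ} (y : Fin k → ℂ) (e : ℕ) (z : Fin k × Fin e → ℂ) : Fin k → ℂ[X] :=
  fun l => C (y l) * X ^ e + ∑ n : Fin e, C (z (l, n)) * X ^ (n : ℕ)

/-- The orbifold divisor of the curve has degree less than two. -/
def Cheap {J : Type} (w : J → ℝ) (p : J → ℂ[X]) : Prop :=
  ∃ (S : Finset ℂ) (ν : ℂ → ℝ), (∀ a ∈ S, ν a ≤ 1) ∧
    (∀ j a, (p j).IsRoot a → a ∈ S ∧ ν a ≤ (p j).rootMultiplicity a * w j) ∧
    ∑ a ∈ S, (1 - ν a) < 2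

/-- The curve is injective off a finite set. -/
def Inj {k : ℕ} (f : Fin k → ℂ[X]) : Prop :=
  ∃ s : ℂ[X], s ≠ 0 ∧ ∀ β β' u : ℂ, s.eval β ≠ 0 → s.eval β' ≠ 0 →
    (∀ l, (f l).eval β = u * (f l).eval β') → β = β'

/-- The combinatorial condition on the contact orders. -/
def Star {J Pt : Type} (d : J → ℕ) (s : Pt → J → ℕ) (e N k : ℕ) : Prop :=
  ∀ (μ : ℕ) (T : Finset Pt), 1 ≤ μ → μ ≤ e → (∀ j, d j * μ ≤ ∑ π ∈ T, s π j) →
    N * μ + 2 ≤ k * μ + T.card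

/-- The determinant of the matrix with columns `u` and `w`. -/
noncomputable def DD {K N L : Type} [Fintype K] [DecidableEq K] (ε : K ≃ N ⊕ L)
    (u : N → K → ℂ[X]) (w : L → K → ℂ[X]) : ℂ[X] :=
  (Matrix.of fun l l' => Sum.elim u w (ε l') l).det

/-- The determinant of the pairing of `φ` and `w`. -/
noncomputable def DW {K L : Type} [Fintype K] [Fintype L] [DecidableEq L]
    (φ w : L → K → ℂ[X]) : ℂ[X] :=
  (Matrix.of fun i i' => ∑ l, φ i l * w i' l).det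

theorem eval_aeval {k : ℕ} (f : Fin k → ℂ[X]) (F : MvPolynomial (Fin k) ℂ) (a : ℂ) :
    (MvPolynomial.aeval f F).eval a = MvPolynomial.eval (fun l => (f l).eval a) F := by
  induction F using MvPolynomial.induction_on with
  | C c => simp
  | add p q hp hq => simp only [map_add, eval_add, hp, hq]
  | mul_X p i hp => simp only [map_mul, eval_mul, hp, MvPolynomial.aeval_X, MvPolynomial.eval_X]

/-! ### Existence of solutions -/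

def SKrull : Prop := ∀ (U I : Type) [Fintype U] [Fintype I] (p : I → MvPolynomial U ℂ),
  (∀ i, MvPolynomial.eval 0 (p i) = 0) → Fintype.card I < Fintype.card U →
  ∃ z : U → ℂ, z ≠ 0 ∧ ∀ i, MvPolynomial.eval z (p i) = 0

def STop : Prop := ∀ (k n e : ℕ) (F : MvPolynomial (Fin k) ℂ) (f : Fin k → ℂ[X]),
  F.IsHomogeneous n → (∀ l, (f l).natDegree ≤ e) →
  (MvPolynomial.aeval f F).natDegree ≤ n * e ∧
    (MvPolynomial.aeval f F).coeff (n * e) = MvPolynomial.eval (fun l => (f l).coeff e) F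

def SSolve : Prop := ∀ (k : ℕ) (P : CIPair k) (y : Fin k → ℂ) (e : ℕ) (Pt I : Type) [Fintype Pt]
  [Fintype I] (s : Pt → Fin P.r → ℕ) (E : I → MvPolynomial ((Fin k × Fin e) ⊕ Pt) ℂ),
  (∀ i, MvPolynomial.eval y (P.F i) = 0) → (∀ j, ∑ π, s π j = P.d j * e) →
  (∀ q, MvPolynomial.eval 0 (E q) = 0) →
  Fintype.card I + (∑ i, P.δ i + ∑ j, P.d j) * e < k * e + Fintype.card Pt →
  ∃ z : (Fin k × Fin e) ⊕ Pt → ℂ, z ≠ 0 ∧ (∀ q, MvPolynomial.eval z (E q) = 0) ∧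
    (∀ i, MvPolynomial.aeval (cv y e fun u => z (.inl u)) (P.F i) = 0) ∧
    ∀ j, MvPolynomial.aeval (cv y e fun u => z (.inl u)) (P.G j) =
      C (MvPolynomial.eval y (P.G j)) * ∏ π, (X - C (z (.inr π))) ^ s π j

/-! ### Derivations -/

def SDerExt : Prop := ∀ (K : Subfield ℂ) (I : Type) [Fintype I] (u w : I → ℂ),
  (∀ g : MvPolynomial I K, MvPolynomial.aeval u g = 0 →
    ∑ i, MvPolynomial.aeval u (MvPolynomial.pderiv i g) * w i = 0) →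
  ∃ δ : Der, (∀ a ∈ K, δ a = 0) ∧ ∀ i, δ (u i) = w i

def SFree : Prop := ∀ (I : Type) [Fintype I] (T : Set ℂ), T.Countable →
  ∃ c : I → ℂ, ∀ γ : I → ℂ, ∃ δ : Der, (∀ a ∈ T, δ a = 0) ∧ ∀ i, δ (c i) = γ i

def SIndep : Prop := ∀ (U I : Type) [Fintype U] [Fintype I] (w : U → ℕ) (M : ℕ) (T : Set ℂ),
  0 < M → (∀ u, w u ∣ M) → T.Countable →
  ∃ E : I → MvPolynomial U ℂ, (∀ q, MvPolynomial.eval 0 (E q) = 0) ∧
    ∀ z : U → ℂ, z ≠ 0 → (∀ q, MvPolynomial.eval z (E q) = 0) →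
      ∃ δ : I → Der, (∀ q, ∀ a ∈ T, δ q a = 0) ∧ LinearIndependent ℂ
        fun o : Option I => (o.elim (fun u => (w u : ℂ) * z u) fun q u => δ q (z u) : U → ℂ)

def STang : Prop := ∀ (k c : ℕ) (F : Fin c → MvPolynomial (Fin k) ℂ) (g : MvPolynomial (Fin k) ℂ)
  (y v : Fin k → ℂ), y ≠ 0 → (∀ i, MvPolynomial.eval y (F i) = 0) →
  LinearIndependent ℂ (fun i => grad y (F i)) →
  (∀ y' : Fin k → ℂ, y' ≠ 0 → (∀ i, MvPolynomial.eval y' (F i) = 0) →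
    MvPolynomial.eval y' g = 0) →
  (∀ i, ∑ l, grad y (F i) l * v l = 0) → ∑ l, grad y g l * v l = 0

def SScale : Prop := ∀ (k : ℕ) (K : Subfield ℂ) (x : Fin k → ℂ), (K : Set ℂ).Countable →
  ∃ t : ℂ, t ≠ 0 ∧ ∀ g : MvPolynomial (Fin k) K, MvPolynomial.aeval (t • x) g = 0 →
    ∀ n, MvPolynomial.aeval x (MvPolynomial.homogeneousComponent n g) = 0

def SGen : Prop := ∀ (k : ℕ) (P : CIPair k), GeneralOn P.X fun x =>
  ∃ (y : Fin k → ℂ) (hy : y ≠ 0), Projectivization.mk ℂ y hy = x ∧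
    (∀ i, MvPolynomial.eval y (P.F i) = 0) ∧ Mov P y

def SOff : Prop := ∀ (k : ℕ) (P : CIPair k) (y : Fin k → ℂ), y ≠ 0 →
  (∀ i, MvPolynomial.eval y (P.F i) = 0) → Mov P y → ∀ j, MvPolynomial.eval y (P.G j) ≠ 0

def SDc : Prop := ∀ δ : Der, (∀ p n, (dc δ p).coeff n = δ (p.coeff n)) ∧
  (∀ p q, dc δ (p * q) = p * dc δ q + q * dc δ p) ∧
  (∀ (k : ℕ) (F : MvPolynomial (Fin k) ℂ) (f : Fin k → ℂ[X]), Kills δ F →
    dc δ (MvPolynomial.aeval f F) = dP F f fun l => dc δ (f l)) ∧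
  ∀ p ξ : ℂ[X], p ≠ 0 → (∀ a, p.IsRoot a → ξ.eval a = δ a) → p ∣ dc δ p + ξ * derivative p

def SChain : Prop := ∀ (k : ℕ) (F : MvPolynomial (Fin k) ℂ) (f : Fin k → ℂ[X]),
  derivative (MvPolynomial.aeval f F) = dP F f (fun l => derivative (f l)) ∧
  ∀ n, F.IsHomogeneous n → dP F f f = C (n : ℂ) * MvPolynomial.aeval f F

/-! ### Determinants and lattices -/

def STopDet : Prop := ∀ (K : Type) [Fintype K] [DecidableEq K] (M : Matrix K K ℂ[X])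
  (a b : K → ℕ), (∀ i j, (M i j).natDegree ≤ a i + b j) →
  M.det.natDegree ≤ ∑ i, a i + ∑ i, b i ∧
    M.det.coeff (∑ i, a i + ∑ i, b i) = (Matrix.of fun i j => (M i j).coeff (a i + b j)).det

def SDetDiv : Prop := ∀ (K N L J : Type) [Fintype K] [DecidableEq K] [Fintype N] [DecidableEq N]
  [Fintype L] [DecidableEq L] [Fintype J] (ε : K ≃ N ⊕ L) (φ w : L → K → ℂ[X])
  (ψ : J → K → ℂ[X]) (g : J → ℂ[X]) (u : N → K → ℂ[X]),
  (∀ a : ℂ, LinearIndependent ℂ (Sum.elim (fun i l => (φ i l).eval a)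
    fun (j : {j // (g j).eval a = 0}) l => (ψ j l).eval a)) →
  (∀ n i, ∑ l, φ i l * u n l = 0) → (∀ n j, g j ∣ ∑ l, ψ j l * u n l) →
  DW φ w * ∏ j, g j ∣ DD ε u w

def SLattice : Prop := ∀ (K N I : Type) [Fintype K] [Fintype N] [DecidableEq N] [Fintype I]
  (Λ : Submodule ℂ[X] (K → ℂ[X])) (s : N → K → ℂ[X]) (h : ℂ[X]) (v : I → K → ℂ[X]),
  (∀ n, s n ∈ Λ) → LinearIndependent ℂ[X] s → h ≠ 0 →
  (∀ x ∈ Λ, h • x ∈ Submodule.span ℂ[X] (Set.range s)) → (∀ i, v i ∈ Λ) →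
  (∀ c : I → ℂ, ∑ i, c i • v i ∈ Submodule.span ℂ[X] (Set.range s) → c = 0) →
  ∃ (u : N → K → ℂ[X]) (A : Matrix N N ℂ[X]), (∀ n, u n ∈ Λ) ∧ (∀ n, s n = ∑ m, A n m • u m) ∧
    Fintype.card I ≤ A.det.natDegree

def SBound : Prop := ∀ (K N L J I : Type) [Fintype K] [DecidableEq K] [Fintype N] [DecidableEq N]
  [Fintype L] [DecidableEq L] [Fintype J] [Fintype I] (ε : K ≃ N ⊕ L) (φ w : L → K → ℂ[X])
  (ψ : J → K → ℂ[X]) (g : J → ℂ[X]) (s : N → K → ℂ[X]) (v : I → K → ℂ[X]),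
  (∀ a : ℂ, LinearIndependent ℂ (Sum.elim (fun i l => (φ i l).eval a)
    fun (j : {j // (g j).eval a = 0}) l => (ψ j l).eval a)) →
  (∀ n i, ∑ l, φ i l * s n l = 0) → (∀ n j, g j ∣ ∑ l, ψ j l * s n l) →
  (∀ n i, ∑ l, φ i l * v n l = 0) → (∀ n j, g j ∣ ∑ l, ψ j l * v n l) →
  DD ε s w ≠ 0 → DW φ w ≠ 0 →
  (∀ c : I → ℂ, ∑ i, c i • v i ∈ Submodule.span ℂ[X] (Set.range s) → c = 0) →
  Fintype.card I + (DW φ w).natDegree + ∑ j, (g j).natDegree ≤ (DD ε s w).natDegree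

def SLead : Prop := ∀ (K N : Type) [Fintype N] (e : ℕ) (s : N → K → ℂ[X]) (A : N → ℂ[X]),
  (∀ n l, (s n l).natDegree ≤ e) → LinearIndependent ℂ (fun n l => (s n l).coeff e) →
  (∀ l, (∑ n, A n * s n l).degree < e) → ∀ n, A n = 0

def SFrame : Prop := ∀ (k c : ℕ) (φ : Fin c → Fin k → ℂ), LinearIndependent ℂ φ →
  ∃ (n : ℕ) (v : Fin n → Fin k → ℂ) (w : Fin c → Fin k → ℂ) (ε : Option (Fin k) ≃
    Option (Fin n) ⊕ Fin c), n + c = k ∧ LinearIndependent ℂ v ∧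
    (∀ m i, ∑ l, φ i l * v m l = 0) ∧ (∀ i i', ∑ l, φ i l * w i' l = if i = i' then 1 else 0) ∧
    (Matrix.of fun l l' : Option (Fin k) => (Sum.elim
      (fun m : Option (Fin n) => m.elim (fun l : Option (Fin k) => l.elim 1 fun _ => 0)
        fun m l => l.elim 0 (v m))
      (fun i (l : Option (Fin k)) => l.elim 0 (w i)) (ε l') l : ℂ)).det ≠ 0

def SDim : Prop := ∀ (k : ℕ) (P : CIPair k) (y : Fin k → ℂ) (e : ℕ) (h : Fin k → ℂ[X])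
  (S : Finset ℂ) (I : Type) [Fintype I] (v : I → Fin k → ℂ[X]) (ξ : I → ℂ[X]),
  y ≠ 0 → (∀ i, MvPolynomial.eval y (P.F i) = 0) → Mov P y →
  (∀ j, MvPolynomial.eval y (P.G j) ≠ 0) → Aff y e h →
  (∀ i, MvPolynomial.aeval h (P.F i) = 0) →
  (∀ j a, (MvPolynomial.aeval h (P.G j)).IsRoot a → a ∈ S) →
  (∀ o l, (v o l).degree < e) → (∀ o, (ξ o).degree < S.card) →
  (∀ o i, dP (P.F i) h (v o) = 0) →
  (∀ o j, MvPolynomial.aeval h (P.G j) ∣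
    dP (P.G j) h (v o) + ξ o * derivative (MvPolynomial.aeval h (P.G j))) →
  LinearIndependent ℂ (fun o => (v o, ξ o)) →
  Fintype.card I + (∑ i, P.δ i + ∑ j, P.d j) * e ≤ k * e + S.card

def STangent : Prop := ∀ (k : ℕ) (P : CIPair k) (e : ℕ) (h : Fin k → ℂ[X])
  (Q : ℂ[X]) (S : Finset ℂ) (δ : Der) (ε : ℂ), Q.Monic → (∀ l, (h l).natDegree ≤ e) →
  (∀ l, δ ((h l).coeff e) = 0) → (∀ i, Kills δ (P.F i)) → (∀ j, Kills δ (P.G j)) →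
  (∀ i, MvPolynomial.aeval h (P.F i) = 0) → (∀ j, MvPolynomial.aeval h (P.G j) ≠ 0) →
  (∀ j a, (MvPolynomial.aeval h (P.G j)).IsRoot a → a ∈ S) → (∀ a, Q.IsRoot a → a ∈ S) →
  ∃ (v : Fin k → ℂ[X]) (ξ : ℂ[X]), (∀ l, (v l).degree < e) ∧ ξ.degree < S.card ∧
    (∀ i, dP (P.F i) h v = 0) ∧
    (∀ j, MvPolynomial.aeval h (P.G j) ∣
      dP (P.G j) h v + ξ * derivative (MvPolynomial.aeval h (P.G j))) ∧
    (∀ a ∈ S, ξ.eval a = δ a + ε * a) ∧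
    ∀ l n, (Q * v l - ((ξ * derivative Q) %ₘ Q) * h l).coeff n =
      δ ((Q * h l).coeff n) + ε * (((Q.natDegree + e : ℕ) : ℂ) - n) * (Q * h l).coeff n

def SCount : Prop := ∀ (J Pt : Type) [Fintype Pt] (d : J → ℕ) (s : Pt → J → ℕ) (e e' N k : ℕ)
  (a : Pt → ℂ) (Q : ℂ[X]) (S : Finset ℂ), Star d s e N k → Q.Monic → e = Q.natDegree + e' →
  (∀ j, Q ^ d j ∣ ∏ π, (X - C (a π)) ^ s π j) → (∀ b ∈ S, Q.IsRoot b ∨ ∃ π, a π = b) →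
  Fintype.card Pt + k * e + N * e' ≤ N * e + k * e' + S.card → Q = 1

def SFactor : Prop := ∀ (k e : ℕ) (y : Fin k → ℂ) (f : Fin k → ℂ[X]), y ≠ 0 →
  (∀ l, (f l).natDegree ≤ e) → (∀ l, (f l).coeff e = y l) →
  ∃ (Q : ℂ[X]) (e' : ℕ) (h : Fin k → ℂ[X]), Q.Monic ∧ e = Q.natDegree + e' ∧ Aff y e' h ∧
    (∀ l, f l = Q * h l) ∧ ∀ (n : ℕ) (F : MvPolynomial (Fin k) ℂ), F.IsHomogeneous n →
      MvPolynomial.aeval f F = Q ^ n * MvPolynomial.aeval h F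

def SExists : Prop := ∀ (k : ℕ) (P : CIPair k) (y : Fin k → ℂ) (e : ℕ) (Pt : Type) [Fintype Pt]
  (s : Pt → Fin P.r → ℕ), y ≠ 0 → (∀ i, MvPolynomial.eval y (P.F i) = 0) → Mov P y →
  (∀ j, MvPolynomial.eval y (P.G j) ≠ 0) → 1 ≤ e → (∀ j, ∑ π, s π j = P.d j * e) →
  Star P.d s e (∑ i, P.δ i + ∑ j, P.d j) k →
  ∃ (f : Fin k → ℂ[X]) (a : Pt → ℂ), Aff y e f ∧ (∀ i, MvPolynomial.aeval f (P.F i) = 0) ∧
    ∀ j, MvPolynomial.aeval f (P.G j) =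
      C (MvPolynomial.eval y (P.G j)) * ∏ π, (X - C (a π)) ^ s π j

/-! ### Contact orders -/

def SFill : Prop := ∀ (J : Type) [Fintype J] (lo hi : J → ℕ) (R : ℕ), (∀ j, lo j ≤ hi j) →
  ∑ j, lo j ≤ R → R ≤ ∑ j, hi j → ∃ p : J → ℕ, (∀ j, lo j ≤ p j ∧ p j ≤ hi j) ∧ ∑ j, p j = R

/-- The conclusion of the combinatorial lemma. -/
def Orders {J : Type} [Fintype J] (d : J → ℕ) (m : J → ℕ∞) (ι : ℕ) : Prop :=
  ∃ (e : ℕ) (Pt : Type) (_ : Fintype Pt) (s : Pt → J → ℕ) (c : Pt → ℝ), 1 ≤ e ∧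
    (∀ j, ∑ π, s π j = d j * e) ∧ Star d s e (∑ j, d j) ι ∧ (∀ π, 0 ≤ c π) ∧
    (∀ π j, 0 < s π j → 1 - s π j * im (m j) ≤ c π) ∧ ∑ π, c π < 2

/-- The number of parts needed for the multiple `μ` of the finite components. -/
noncomputable def need {J : Type} [Fintype J] (d : J → ℕ) (m : J → ℕ∞) (μ : ℕ) : ℕ :=
  ∑ j, if m j = ⊤ then 0 else (d j * μ + (m j).toNat - 1) / (m j).toNat

def SCombA : Prop := ∀ (J : Type) [Fintype J] (d : J → ℕ) (m : J → ℕ∞) (ι : ℕ),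
  (∀ j, 1 ≤ d j) → (∀ j, 1 ≤ m j) →
  (∀ μ, 1 ≤ μ → (∑ j, d j) * μ + 2 ≤ ι * μ + need d m μ + if ∃ j, m j = ⊤ then 1 else 0) →
  Orders d m ι

def SCombB : Prop := ∀ (J : Type) [Fintype J] (d : J → ℕ) (m : J → ℕ∞) (ι e : ℕ),
  2 ≤ ι → (∀ j, 1 ≤ m j) → (∀ j, m j ≠ ⊤) → 1 ≤ e → ∑ j, (1 - im (m j)) * d j < ι →
  ι * e + need d m e < (∑ j, d j) * e + 2 →
  (∀ μ, 1 ≤ μ → μ < e → (∑ j, d j) * μ + 2 ≤ ι * μ + need d m μ) → Orders d m ι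

def SComb : Prop := ∀ (J : Type) [Fintype J] (d : J → ℕ) (m : J → ℕ∞) (ι : ℕ),
  2 ≤ ι → (∀ j, 1 ≤ d j) → (∀ j, 1 ≤ m j) → ∑ j, (1 - im (m j)) * d j < ι → Orders d m ι

def SCheap : Prop := ∀ (J Pt : Type) [Fintype Pt] (w : J → ℝ) (s : Pt → J → ℕ) (c : Pt → ℝ)
  (a : Pt → ℂ) (γ : J → ℂ), (∀ j, 0 ≤ w j) → (∀ j, γ j ≠ 0) → (∀ π, 0 ≤ c π) →
  (∀ π j, 0 < s π j → 1 - s π j * w j ≤ c π) → ∑ π, c π < 2 →
  Cheap w fun j => C (γ j) * ∏ π, (X - C (a π)) ^ s π j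

/-! ### Passing to a birational parametrisation -/

def SLurA : Prop := ∀ (k : ℕ) (f : Fin k → ℂ[X]) (l₀ : Fin k), f l₀ ≠ 0 →
  (RatFunc.X : RatFunc ℂ) ∈ IntermediateField.adjoin ℂ (Set.range fun l =>
    algebraMap ℂ[X] (RatFunc ℂ) (f l) / algebraMap ℂ[X] (RatFunc ℂ) (f l₀)) → Inj f

def SLurB : Prop := ∀ E : IntermediateField ℂ (RatFunc ℂ), E ≠ ⊥ →
  ∃ A B : ℂ[X], A.Monic ∧ B ≠ 0 ∧ B.natDegree < A.natDegree ∧ IsCoprime A B ∧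
    E = ℂ⟮algebraMap ℂ[X] (RatFunc ℂ) A / algebraMap ℂ[X] (RatFunc ℂ) B⟯

def SLurC : Prop := ∀ (k : ℕ) (f : Fin k → ℂ[X]) (l₀ : Fin k) (A B : ℂ[X]), f l₀ ≠ 0 →
  B ≠ 0 → B.natDegree < A.natDegree →
  (∀ l, algebraMap ℂ[X] (RatFunc ℂ) (f l) / algebraMap ℂ[X] (RatFunc ℂ) (f l₀) ∈
    ℂ⟮algebraMap ℂ[X] (RatFunc ℂ) A / algebraMap ℂ[X] (RatFunc ℂ) B⟯) →
  ∃ (e : ℕ) (g : Fin k → ℂ[X]), (∀ l, (g l).natDegree ≤ e) ∧ (∃ l, (g l).coeff e ≠ 0) ∧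
    (∀ a : ℂ, ∃ l, (g l).eval a ≠ 0) ∧
    ∀ l, f l * MvPolynomial.aeval ![A, B] ((g l₀).homogenize e) =
      f l₀ * MvPolynomial.aeval ![A, B] ((g l).homogenize e)

def SLurD : Prop := ∀ (k e e' : ℕ) (y : Fin k → ℂ) (f g : Fin k → ℂ[X]) (l₀ : Fin k) (A B : ℂ[X]),
  Aff y e f → y l₀ ≠ 0 → A.Monic → B.natDegree < A.natDegree → IsCoprime A B →
  (∀ l, (g l).natDegree ≤ e') → (∃ l, (g l).coeff e' ≠ 0) → (∀ a : ℂ, ∃ l, (g l).eval a ≠ 0) →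
  (∀ l, f l * MvPolynomial.aeval ![A, B] ((g l₀).homogenize e') =
    f l₀ * MvPolynomial.aeval ![A, B] ((g l).homogenize e')) →
  e = A.natDegree * e' ∧ ∃ g' : Fin k → ℂ[X], Aff y e' g' ∧ ∀ a : ℂ, B.eval a ≠ 0 →
    ∀ l, (f l).eval a = B.eval a ^ e' * (g' l).eval (A.eval a / B.eval a)

def SMult : Prop := ∀ (A B p q : ℂ[X]) (a β : ℂ), B ≠ 0 → B.natDegree < A.natDegree →
  IsCoprime A B → q ≠ 0 →
  (∀ t : ℂ, B.eval t ≠ 0 → p.eval t = B.eval t ^ q.natDegree * q.eval (A.eval t / B.eval t)) →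
  (A - C β * B).IsRoot a →
  p.rootMultiplicity a = (A - C β * B).rootMultiplicity a * q.rootMultiplicity β

def SHurwitz : Prop := ∀ (A B : ℂ[X]) (T : Finset ℂ), B ≠ 0 → B.natDegree < A.natDegree →
  IsCoprime A B →
  A.natDegree * T.card + 2 ≤ 2 * A.natDegree + ∑ β ∈ T, (A - C β * B).roots.toFinset.card

def SDescent : Prop := ∀ (J : Type) [Fintype J] (w : J → ℝ) (A B : ℂ[X]) (p q : J → ℂ[X]),
  (∀ j, 0 ≤ w j) → B ≠ 0 → B.natDegree < A.natDegree → IsCoprime A B → (∀ j, q j ≠ 0) →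
  (∀ j (t : ℂ), B.eval t ≠ 0 →
    (p j).eval t = B.eval t ^ (q j).natDegree * (q j).eval (A.eval t / B.eval t)) →
  Cheap w p → Cheap w q

def SBir : Prop := ∀ (k : ℕ) (P : CIPair k) (y : Fin k → ℂ) (w : Fin P.r → ℝ) (e : ℕ)
  (f : Fin k → ℂ[X]), y ≠ 0 → (∀ j, MvPolynomial.eval y (P.G j) ≠ 0) → (∀ j, 0 ≤ w j) → 1 ≤ e →
  Aff y e f → (∀ i, MvPolynomial.aeval f (P.F i) = 0) →
  Cheap w (fun j => MvPolynomial.aeval f (P.G j)) →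
  ∃ (e' : ℕ) (g : Fin k → ℂ[X]), Aff y e' g ∧ (∀ i, MvPolynomial.aeval g (P.F i) = 0) ∧
    Cheap w (fun j => MvPolynomial.aeval g (P.G j)) ∧ Inj g

def SFinA : Prop := ∀ (k e : ℕ) (y : Fin k → ℂ) (hy : y ≠ 0) (f : Fin k → ℂ[X]), Aff y e f →
  Inj f → ∃ (c : RatCurve k) (a₀ : PP 2), (∀ l, c.F l = (f l).homogenize e) ∧
    pt c a₀ = Projectivization.mk ℂ y hy ∧ ∀ a : PP 2, a.rep 1 = 0 → a = a₀

def SFinB : Prop := ∀ (k e : ℕ) (P : CIPair k) (y : Fin k → ℂ) (hy : y ≠ 0) (f : Fin k → ℂ[X])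
  (c : RatCurve k) (a₀ : PP 2), Aff y e f → (∀ l, c.F l = (f l).homogenize e) →
  pt c a₀ = Projectivization.mk ℂ y hy → (∀ a : PP 2, a.rep 1 = 0 → a = a₀) →
  (∀ i, MvPolynomial.aeval f (P.F i) = 0) → (∀ j, MvPolynomial.eval y (P.G j) ≠ 0) →
  Cheap (fun j => im (P.m j)) (fun j => MvPolynomial.aeval f (P.G j)) → P.OrbRat c

end Pool.Agent.MP_4be736_ag.H39
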