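import Pool.Agent.MP_4be736_ag.H39.Spec

/-! A function vanishing on a smooth level set has a differential vanishing on the tangent space. -/

open Filter Topology

namespace Pool.Agent.MP_4be736_ag.H39

namespace TangA

variable {k : ℕ}

/-- The linear form with coefficients `a`. -/
noncomputable def lf (a : Fin k → ℂ) : (Fin k → ℂ) →L[ℂ] ℂ :=
  ∑ l, a l • ContinuousLinearMap.proj l

theorem lf_apply (a v : Fin k → ℂ) : lf a v = ∑ l, a l * v l := by
  simp [lf]

theorem strict (F : MvPolynomial (Fin k) ℂ) (y : Fin k → ℂ) :
    HasStrictFDerivAt (fun x => MvPolynomial.eval x F) (lf (grad y F)) y := by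
  induction F using MvPolynomial.induction_on with
  | C c =>
    have : lf (grad y (MvPolynomial.C c)) = 0 := by
      ext v
      simp [lf_apply, grad]
    rw [this]
    simpa using hasStrictFDerivAt_const c y
  | add p q hp hq =>
    have : lf (grad y (p + q)) = lf (grad y p) + lf (grad y q) := by
      refine ContinuousLinearMap.ext fun v => ?_
      simp [lf_apply, grad, add_mul, Finset.sum_add_distrib]
    rw [this]
    simpa only [map_add] using hp.fun_add hq
  | mul_X p i hp =>
    have h1 := hp.fun_mul (hasStrictFDerivAt_apply (𝕜 := ℂ) i y)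
    have : lf (grad y (p * MvPolynomial.X i)) =
        MvPolynomial.eval y p • ContinuousLinearMap.proj i + y i • lf (grad y p) := by
      refine ContinuousLinearMap.ext fun v => ?_
      simp [lf_apply, grad, add_mul, Finset.sum_add_distrib, MvPolynomial.pderiv_X, Pi.single_apply,
        apply_ite, Finset.mul_sum, mul_assoc]
    rw [this]
    simpa only [map_mul, MvPolynomial.eval_X] using h1

theorem onto {c : ℕ} (a : Fin c → Fin k → ℂ) (h : LinearIndependent ℂ a) :
    (ContinuousLinearMap.pi fun i => lf (a i)).range = ⊤ := by
  have h1 : (Matrix.of a).rank = Fintype.card (Fin c) := LinearIndependent.rank_matrix h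
  have h2 : (ContinuousLinearMap.pi fun i => lf (a i)).range =
      LinearMap.range (Matrix.of a).mulVecLin := by
    congr 1
    refine LinearMap.ext fun v => funext fun i => ?_
    simp [lf_apply, Matrix.mulVec, dotProduct]
  rw [h2]
  refine Submodule.eq_top_of_finrank_eq ?_
  rw [Module.finrank_fintype_fun_eq_card]
  exact h1

end TangA

open TangA

theorem sTang : STang := by
  intro k c F g y v hy hF hind hg hv
  have hf : HasStrictFDerivAt (fun x i => MvPolynomial.eval x (F i))
      (ContinuousLinearMap.pi fun i => lf (grad y (F i))) y :=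
    hasStrictFDerivAt_pi.2 fun i => strict (F i) y
  have hf' := onto _ hind
  have hφ := hf.to_implicitFunction hf'
  have h0 := hf.implicitFunction_apply_image hf'
  have h1 := (Tendsto.prodMk_nhds tendsto_const_nhds tendsto_id).eventually
    (hf.map_implicitFunction_eq hf')
  have h2 := (hf.tendsto_implicitFunction hf' tendsto_const_nhds tendsto_id).eventually_ne hy
  have h3 := (h0.symm ▸ strict g y).hasFDerivAt.comp 0 hφ.hasFDerivAt
  have h4 := (hasFDerivAt_const (𝕜 := ℂ) (0 : ℂ) _).congr_of_eventuallyEq
    ((h1.and h2).mono fun t ht => hg _ ht.2 fun i => (congrFun ht.1 i).trans (hF i))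
  have h5 := congrArg (fun L => L ⟨v, funext fun i => (lf_apply _ _).trans (hv i)⟩) (h3.unique h4)
  rw [← lf_apply]
  rw [h0] at h5
  exact h5

end Pool.Agent.MP_4be736_ag.H39
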