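import Pool.Agent.MP_4be736_ag.H39.Spec

/-!
The tangent vector attached to a derivation and a scaling.
-/

open Polynomial

namespace Pool.Agent.MP_4be736_ag.H39

namespace TangentA

/-- The derivation on coefficients plus `ε` times the scaling of weight `e`. -/
noncomputable def tv (δ : Der) (ε : ℂ) (e : ℕ) (p : ℂ[X]) : ℂ[X] :=
  dc δ p + C ε * (C (e : ℂ) * p - X * derivative p)

theorem coeff_X_mul_derivative (p : ℂ[X]) (n : ℕ) :
    (X * derivative p).coeff n = (n : ℂ) * p.coeff n := by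
  cases n with
  | zero => simp
  | succ n =>
    rw [coeff_X_mul, coeff_derivative]
    push_cast
    ring

theorem coeff_tv (h1 : SDc) (δ : Der) (ε : ℂ) (e : ℕ) (p : ℂ[X]) (n : ℕ) :
    (tv δ ε e p).coeff n = δ (p.coeff n) + ε * ((e : ℂ) - n) * p.coeff n := by
  rw [tv, coeff_add, (h1 δ).1, coeff_C_mul, coeff_sub, coeff_C_mul, coeff_X_mul_derivative]
  ring

theorem degree_tv (h1 : SDc) (δ : Der) (ε : ℂ) (e : ℕ) (p : ℂ[X]) (hp : p.natDegree ≤ e)
    (h0 : δ (p.coeff e) = 0) : (tv δ ε e p).degree < e := by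
  rw [degree_lt_iff_coeff_zero]
  intro m hm
  rw [coeff_tv h1]
  rcases hm.eq_or_lt with rfl | hlt
  · rw [h0, sub_self]
    ring
  · rw [coeff_eq_zero_of_natDegree_lt (hp.trans_lt hlt)]
    simp

theorem dP_tv (h1 : SDc) (h2 : SChain) {k n : ℕ} (F : MvPolynomial (Fin k) ℂ)
    (hF : F.IsHomogeneous n) (δ : Der) (hδ : Kills δ F) (ε : ℂ) (e : ℕ) (h : Fin k → ℂ[X]) :
    dP F h (fun l => tv δ ε e (h l)) = tv δ ε (e * n) (MvPolynomial.aeval h F) := by
  have e1 := (h1 δ).2.2.1 k F h hδ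
  have e2 := (h2 k F h).1
  have e3 := (h2 k F h).2 n hF
  have e4 : dP F h (fun l => tv δ ε e (h l)) = dP F h (fun l => dc δ (h l)) +
      C ε * (C (e : ℂ) * dP F h h - X * dP F h fun l => derivative (h l)) := by
    simp only [dP, tv, Finset.mul_sum, ← Finset.sum_sub_distrib, ← Finset.sum_add_distrib]
    refine Finset.sum_congr rfl fun l _ => ?_
    ring
  rw [e4, ← e1, ← e2, e3, tv]
  push_cast
  rw [C_mul]
  ring

theorem dvd_tv (h1 : SDc) (δ : Der) (ε : ℂ) (e : ℕ) (p ξ : ℂ[X]) (hp : p ≠ 0)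
    (hξ : ∀ a, p.IsRoot a → ξ.eval a = δ a + ε * a) :
    p ∣ tv δ ε e p + ξ * derivative p := by
  have e1 := (h1 δ).2.2.2 p (ξ - C ε * X) hp fun a ha => by
    rw [eval_sub, hξ a ha, eval_mul, eval_C, eval_X]
    ring
  have e2 : tv δ ε e p + ξ * derivative p =
      (dc δ p + (ξ - C ε * X) * derivative p) + p * (C ε * C (e : ℂ)) := by
    rw [tv]
    ring
  rw [e2]
  exact dvd_add e1 (dvd_mul_right _ _)

theorem tv_mul (h1 : SDc) (δ : Der) (ε : ℂ) (b e : ℕ) (p q : ℂ[X]) :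
    tv δ ε (b + e) (p * q) = p * tv δ ε e q + tv δ ε b p * q := by
  rw [tv, tv, tv, (h1 δ).2.1, derivative_mul]
  push_cast
  rw [C_add]
  ring

theorem tv_zero (h1 : SDc) (δ : Der) (ε : ℂ) (e : ℕ) : tv δ ε e 0 = 0 := by
  ext n
  rw [coeff_tv h1]
  simp

theorem mod_eq (h1 : SDc) (δ : Der) (ε : ℂ) (Q ξ : ℂ[X]) (hQ : Q.Monic)
    (hξ : ∀ a, Q.IsRoot a → ξ.eval a = δ a + ε * a) :
    (ξ * derivative Q) %ₘ Q = -tv δ ε Q.natDegree Q := by
  obtain ⟨W, hW⟩ := dvd_tv h1 δ ε Q.natDegree Q ξ hQ.ne_zero hξ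
  have hd : (tv δ ε Q.natDegree Q).degree < Q.natDegree :=
    degree_tv h1 δ ε _ Q le_rfl (by rw [hQ.coeff_natDegree]; simp)
  refine (div_modByMonic_unique W _ hQ ⟨?_, ?_⟩).2
  · rw [← hW]
    ring
  · rw [degree_neg, degree_eq_natDegree hQ.ne_zero]
    exact hd

end TangentA

open TangentA in
theorem sTangent (h1 : SDc) (h2 : SChain) : STangent := by
  classical
  intro k P e h Q S δ ε hQ hdeg htop hF hG hF0 hG0 hGS hQS
  have hev : ∀ a ∈ S, (Lagrange.interpolate S id fun a => δ a + ε * a).eval a = δ a + ε * a :=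
    fun a ha => Lagrange.eval_interpolate_at_node (v := id) _ (Set.injOn_id _) ha
  refine ⟨fun l => tv δ ε e (h l), Lagrange.interpolate S id fun a => δ a + ε * a,
    fun l => degree_tv h1 δ ε e _ (hdeg l) (htop l),
    Lagrange.degree_interpolate_lt _ (Set.injOn_id _), fun i => ?_, fun j => ?_, hev,
    fun l n => ?_⟩
  · rw [dP_tv h1 h2 _ (P.homF i) δ (hF i), hF0 i, tv_zero h1]
  · rw [dP_tv h1 h2 _ (P.homG j) δ (hG j)]
    exact dvd_tv h1 δ ε _ _ _ (hG0 j) fun a ha => hev a (hGS j a ha)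
  · rw [mod_eq h1 δ ε Q _ hQ fun a ha => hev a (hQS a ha), neg_mul, sub_neg_eq_add,
      ← tv_mul h1, coeff_tv h1]

end Pool.Agent.MP_4be736_ag.H39
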