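import Pool.Agent.MP_4be736_ag.H39.Spec

/-! Top coefficient of a form along a curve, chain rule and the identity of Euler. -/

open Polynomial

namespace Pool.Agent.MP_4be736_ag.H39

namespace TopA

theorem prod_top {ι : Type} (s : Finset ι) (p : ι → ℂ[X]) (a : ι → ℕ)
    (h : ∀ i, (p i).natDegree ≤ a i) :
    (∏ i ∈ s, p i).natDegree ≤ ∑ i ∈ s, a i ∧
      (∏ i ∈ s, p i).coeff (∑ i ∈ s, a i) = ∏ i ∈ s, (p i).coeff (a i) := by
  classical
  induction s using Finset.induction_on with
  | empty => simp
  | insert i s hi ih =>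
    simp only [Finset.prod_insert hi, Finset.sum_insert hi]
    exact ⟨natDegree_mul_le_of_le (h i) ih.1, by
      rw [coeff_mul_add_eq_of_natDegree_le (h i) ih.1, ih.2]⟩

end TopA

theorem sTop : STop := by
  intro k n e F f hF hf
  have key : ∀ m ∈ F.support, (∏ l, f l ^ m l).natDegree ≤ n * e ∧
      (∏ l, f l ^ m l).coeff (n * e) = ∏ l, (f l).coeff e ^ m l := by
    intro m hm
    have h1 : ∑ l, m l * e = n * e := by
      rw [← Finset.sum_mul, ← Finsupp.degree_eq_sum, Finsupp.degree_eq_weight_one]
      exact congrArg (· * e) (hF (MvPolynomial.mem_support_iff.1 hm))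
    have h2 := TopA.prod_top Finset.univ (fun l => f l ^ m l) (fun l => m l * e)
      fun l => natDegree_pow_le_of_le _ (hf l)
    rw [h1] at h2
    exact ⟨h2.1, h2.2.trans (Finset.prod_congr rfl fun l _ => coeff_pow_of_natDegree_le (hf l))⟩
  rw [MvPolynomial.aeval_def, MvPolynomial.eval₂_eq', MvPolynomial.eval_eq', finsetSum_coeff]
  refine ⟨natDegree_sum_le_of_forall_le _ _ fun m hm =>
    (natDegree_C_mul_le _ _).trans (key m hm).1, Finset.sum_congr rfl fun m hm => ?_⟩
  rw [algebraMap_eq, coeff_C_mul, (key m hm).2]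

theorem sChain : SChain := by
  intro k F f
  refine ⟨?_, fun n hn => ?_⟩
  · induction F using MvPolynomial.induction_on with
    | C a => simp [dP]
    | add p q hp hq =>
      simp only [dP, map_add, add_mul, Finset.sum_add_distrib] at hp hq ⊢
      rw [hp, hq]
    | mul_X p i hp =>
      simp only [dP, map_mul, MvPolynomial.aeval_X, derivative_mul, MvPolynomial.pderiv_mul,
        map_add, add_mul, Finset.sum_add_distrib] at hp ⊢
      rw [hp, Finset.sum_mul, Finset.sum_eq_single i (f := fun x => MvPolynomial.aeval f p *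
        MvPolynomial.aeval f (MvPolynomial.pderiv x (MvPolynomial.X i)) * derivative (f x))]
      · simp [mul_right_comm]
      · intro j _ hj
        simp [MvPolynomial.pderiv_X_of_ne hj.symm]
      · simp
  · have h := congrArg (MvPolynomial.aeval f) hn.sum_X_mul_pderiv
    simpa [dP, mul_comm] using h

end Pool.Agent.MP_4be736_ag.H39
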