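import Pool.Agent.MP_4be736_ag.H39.Spec

/-!
Top coefficients of determinants and of linear combinations.
-/

open Polynomial

namespace Pool.Agent.MP_4be736_ag.H39

namespace TopDetA

theorem prod_top {K : Type} (s : Finset K) (p : K → ℂ[X]) (d : K → ℕ)
    (h : ∀ i, (p i).natDegree ≤ d i) :
    (∏ i ∈ s, p i).natDegree ≤ ∑ i ∈ s, d i ∧
      (∏ i ∈ s, p i).coeff (∑ i ∈ s, d i) = ∏ i ∈ s, (p i).coeff (d i) := by
  classical
  induction s using Finset.induction_on with
  | empty => simp
  | insert a s ha ih =>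
    simp only [Finset.prod_insert ha, Finset.sum_insert ha]
    exact ⟨natDegree_mul_le.trans (add_le_add (h a) ih.1),
      by rw [coeff_mul_add_eq_of_natDegree_le (h a) ih.1, ih.2]⟩

end TopDetA

theorem sTopDet : STopDet := by
  intro K _ _ M a b h
  have key : ∀ σ : Equiv.Perm K, (∏ i, M (σ i) i).natDegree ≤ ∑ i, a i + ∑ i, b i ∧
      (∏ i, M (σ i) i).coeff (∑ i, a i + ∑ i, b i) =
        ∏ i, (M (σ i) i).coeff (a (σ i) + b i) := fun σ => by
    have := TopDetA.prod_top Finset.univ (fun i => M (σ i) i) (fun i => a (σ i) + b i)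
      fun i => h _ _
    rwa [Finset.sum_add_distrib, Equiv.sum_comp σ a] at this
  rw [Matrix.det_apply, Matrix.det_apply]
  refine ⟨natDegree_sum_le_of_forall_le _ _ fun σ _ => (natDegree_smul_le _ _).trans (key σ).1, ?_⟩
  rw [finsetSum_coeff]
  refine Finset.sum_congr rfl fun σ _ => ?_
  rw [coeff_smul, (key σ).2]
  rfl

theorem sLead : SLead := by
  intro K N _ e s A hs hl hd
  by_contra hne
  push Not at hne
  obtain ⟨n₀, hn₀, hmax⟩ := Finset.exists_max_image (Finset.univ.filter fun n => A n ≠ 0)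
    (fun n => (A n).natDegree) (by
      obtain ⟨n, hn⟩ := hne
      exact ⟨n, by simpa using hn⟩)
  have hle : ∀ n, (A n).natDegree ≤ (A n₀).natDegree := fun n => by
    by_cases hn : A n = 0
    · simp [hn]
    · exact hmax n (by simpa using hn)
  have := Fintype.linearIndependent_iff.1 hl (fun n => (A n).coeff (A n₀).natDegree) (by
    funext l
    have h1 := coeff_eq_zero_of_degree_lt (n := (A n₀).natDegree + e) ((hd l).trans_le (by
      exact_mod_cast Nat.le_add_left _ _))
    rw [finsetSum_coeff] at h1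
    rw [Finset.sum_apply, Pi.zero_apply, ← h1]
    refine Finset.sum_congr rfl fun n _ => ?_
    rw [coeff_mul_add_eq_of_natDegree_le (hle n) (hs n l)]
    rfl) n₀
  exact (Finset.mem_filter.1 hn₀).2 (leadingCoeff_eq_zero.1 this)

end Pool.Agent.MP_4be736_ag.H39
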